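import Mathlib

/-!
Project THX (problem MP_5e85fc_lc), average case, module AV1 (helper97): the exponential moment.

`A` runs through all functions `X → Bool` (subsets of `X`), `C` is a set of points, `g A` is one of the
functions of a finite set `F`. Then on average over `A` the functions `A` and `g A` agree on at most
`|C|/2 + sqrt(|C| log |F| / 2)` points of `C`.
-/

set_option autoImplicit false

namespace Pool.Agent.THX

open Finset

namespace AV1

variable {X : Type} [Fintype X] [DecidableEq X]

/-- the number of points of `C` at which `A` and `v` agree -/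
def agr (C : Finset X) (A v : X → Bool) : ℕ := (C.filter fun x => A x = v x).card

theorem moment (C : Finset X) (v : X → Bool) (l : ℝ) :
    ∑ A : X → Bool, Real.exp (l * ((agr C A v : ℝ) - C.card / 2)) =
      2 ^ Fintype.card X * Real.cosh (l / 2) ^ C.card := by
  have h1 : ∀ A : X → Bool, Real.exp (l * ((agr C A v : ℝ) - C.card / 2)) =
      ∏ x, (if x ∈ C then Real.exp (if A x = v x then l / 2 else -(l / 2)) else 1) := by
    intro A
    rw [Finset.prod_ite_mem, Finset.univ_inter, ← Real.exp_sum, Finset.sum_ite]
    congr 1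
    simp only [Finset.sum_const, nsmul_eq_mul]
    have h2 : (C.filter fun x => ¬ A x = v x).card + agr C A v = C.card := by
      unfold agr
      rw [add_comm]
      exact Finset.card_filter_add_card_filter_not _
    have h3 : ((C.filter fun x => ¬ A x = v x).card : ℝ) = C.card - agr C A v := by
      rw [← h2]
      push_cast
      ring
    rw [h3]
    unfold agr
    ring
  have h4 : ∏ x, (∑ b : Bool, (if x ∈ C then Real.exp (if b = v x then l / 2 else -(l / 2)) else 1))
      = ∑ A : X → Bool, ∏ x,
        (if x ∈ C then Real.exp (if A x = v x then l / 2 else -(l / 2)) else 1) := by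
    have h5 := Finset.prod_univ_sum (fun _ : X => (Finset.univ : Finset Bool))
      (fun x b => (if x ∈ C then Real.exp (if b = v x then l / 2 else -(l / 2)) else (1 : ℝ)))
    rw [Fintype.piFinset_univ] at h5
    exact h5
  rw [Finset.sum_congr rfl fun A _ => h1 A, ← h4]
  have h6 : ∀ x : X, (∑ b : Bool, (if x ∈ C then
      Real.exp (if b = v x then l / 2 else -(l / 2)) else 1)) =
      2 * (if x ∈ C then Real.cosh (l / 2) else 1) := by
    intro x
    rw [Fintype.sum_bool]
    by_cases hx : x ∈ C
    · simp only [hx, if_true]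
      rw [Real.cosh_eq]
      cases hv : v x
      · simp
        ring
      · simp
        ring
    · simp only [hx, if_false]
      norm_num
  rw [Finset.prod_congr rfl fun x _ => h6 x, Finset.prod_mul_distrib, Finset.prod_const,
    Finset.card_univ, Finset.prod_ite_mem, Finset.univ_inter, Finset.prod_const]

theorem bound (C : Finset X) (F : Finset (X → Bool)) (g : (X → Bool) → (X → Bool))
    (hg : ∀ A, g A ∈ F) (l : ℝ) (hl : 0 < l) :
    ∑ A : X → Bool, ((agr C A (g A) : ℝ) - C.card / 2) ≤
      2 ^ Fintype.card X * (Real.log F.card / l + C.card * l / 8) := by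
  have hF : 0 < F.card := Finset.card_pos.2 ⟨_, hg fun _ => true⟩
  have hF' : (0 : ℝ) < F.card := by exact_mod_cast hF
  set a : ℝ := F.card * Real.cosh (l / 2) ^ C.card with ha
  have hc : 0 < Real.cosh (l / 2) := Real.cosh_pos _
  have ha0 : 0 < a := mul_pos hF' (pow_pos hc _)
  have h1 : ∑ A : X → Bool, Real.exp (l * ((agr C A (g A) : ℝ) - C.card / 2)) ≤
      2 ^ Fintype.card X * a := by
    calc ∑ A : X → Bool, Real.exp (l * ((agr C A (g A) : ℝ) - C.card / 2))
        ≤ ∑ A : X → Bool, ∑ v ∈ F, Real.exp (l * ((agr C A v : ℝ) - C.card / 2)) := by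
          refine Finset.sum_le_sum fun A _ => ?_
          exact Finset.single_le_sum
            (f := fun v => Real.exp (l * ((agr C A v : ℝ) - C.card / 2)))
            (fun v _ => (Real.exp_pos _).le) (hg A)
      _ = ∑ v ∈ F, ∑ A : X → Bool, Real.exp (l * ((agr C A v : ℝ) - C.card / 2)) :=
          Finset.sum_comm
      _ = 2 ^ Fintype.card X * a := by
          rw [Finset.sum_congr rfl fun v _ => moment C v l, Finset.sum_const, nsmul_eq_mul, ha]
          ring
  have h2 : ∀ A : X → Bool, l * ((agr C A (g A) : ℝ) - C.card / 2) ≤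
      Real.log a - 1 + Real.exp (l * ((agr C A (g A) : ℝ) - C.card / 2)) / a := by
    intro A
    have h3 := Real.log_le_sub_one_of_pos
      (div_pos (Real.exp_pos (l * ((agr C A (g A) : ℝ) - C.card / 2))) ha0)
    rw [Real.log_div (Real.exp_pos _).ne' ha0.ne', Real.log_exp] at h3
    linarith
  have h3 : l * ∑ A : X → Bool, ((agr C A (g A) : ℝ) - C.card / 2) ≤
      2 ^ Fintype.card X * Real.log a := by
    rw [Finset.mul_sum]
    refine (Finset.sum_le_sum fun A _ => h2 A).trans ?_
    rw [Finset.sum_add_distrib, Finset.sum_const, ← Finset.sum_div, nsmul_eq_mul,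
      Finset.card_univ, Fintype.card_fun, Fintype.card_bool]
    have h4 : (∑ A : X → Bool, Real.exp (l * ((agr C A (g A) : ℝ) - C.card / 2))) / a ≤
        2 ^ Fintype.card X := by
      rw [div_le_iff₀ ha0]
      exact h1
    push_cast
    linarith
  have h5 : Real.log a ≤ Real.log F.card + C.card * l ^ 2 / 8 := by
    rw [ha, Real.log_mul hF'.ne' (pow_pos hc _).ne', Real.log_pow]
    have h6 : Real.log (Real.cosh (l / 2)) ≤ l ^ 2 / 8 := by
      have h7 := Real.cosh_le_exp_half_sq (l / 2)
      have h8 := Real.log_le_log hc h7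
      rw [Real.log_exp] at h8
      linarith
    have h9 : (0 : ℝ) ≤ C.card := Nat.cast_nonneg _
    nlinarith [mul_le_mul_of_nonneg_left h6 h9]
  have h6 : (0 : ℝ) < 2 ^ Fintype.card X := by positivity
  have h7 : l * ∑ A : X → Bool, ((agr C A (g A) : ℝ) - C.card / 2) ≤
      l * (2 ^ Fintype.card X * (Real.log F.card / l + C.card * l / 8)) := by
    refine h3.trans ((mul_le_mul_of_nonneg_left h5 h6.le).trans (le_of_eq ?_))
    field_simp
  exact le_of_mul_le_mul_left h7 hl

end AV1

open AV1 in
/-- AV1: the average over all `A` of the agreement of `A` and `g A` on `C`. -/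
theorem AV1_thm {X : Type} [Fintype X] [DecidableEq X] (C : Finset X) (F : Finset (X → Bool))
    (g : (X → Bool) → (X → Bool)) (hg : ∀ A, g A ∈ F) :
    ∑ A : X → Bool, ((C.filter fun x => A x = g A x).card : ℝ) ≤
      2 ^ Fintype.card X * ((C.card : ℝ) / 2 + Real.sqrt (C.card * Real.log F.card / 2)) := by
  have hF : 0 < F.card := Finset.card_pos.2 ⟨_, hg fun _ => true⟩
  have hF1 : (1 : ℝ) ≤ F.card := by exact_mod_cast hF
  have hlog : 0 ≤ Real.log F.card := Real.log_nonneg hF1
  have hN : (0 : ℝ) < 2 ^ Fintype.card X := by positivity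
  have key : ∑ A : X → Bool, ((agr C A (g A) : ℝ) - C.card / 2) ≤
      2 ^ Fintype.card X * Real.sqrt (C.card * Real.log F.card / 2) := by
    rcases Nat.eq_zero_or_pos C.card with h0 | h0
    · have h1 : C = ∅ := Finset.card_eq_zero.1 h0
      have h2 : ∀ A : X → Bool, ((agr C A (g A) : ℝ) - C.card / 2) = 0 := by
        intro A
        rw [h1]
        simp [agr]
      rw [Finset.sum_congr rfl fun A _ => h2 A, Finset.sum_const_zero]
      positivity
    · have hC : (0 : ℝ) < C.card := by exact_mod_cast h0
      rcases hlog.eq_or_lt with h1 | h1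
      · rw [← h1]
        have h2 : ∀ l : ℝ, 0 < l → ∑ A : X → Bool, ((agr C A (g A) : ℝ) - C.card / 2) ≤
            2 ^ Fintype.card X * (C.card * l / 8) := by
          intro l hl
          have h3 := bound C F g hg l hl
          rw [← h1] at h3
          simpa using h3
        simp only [mul_zero, zero_div, Real.sqrt_zero]
        refine le_of_forall_pos_le_add fun ε hε => ?_
        rw [zero_add]
        have h4 := h2 (8 * ε / (2 ^ Fintype.card X * C.card)) (by positivity)
        refine h4.trans (le_of_eq ?_)
        field_simp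
      · obtain ⟨s, hs0, hs⟩ : ∃ s : ℝ, 0 < s ∧ Real.log F.card = C.card * s ^ 2 / 8 := by
          refine ⟨Real.sqrt (8 * Real.log F.card / C.card), Real.sqrt_pos.2 (by positivity), ?_⟩
          rw [Real.sq_sqrt (by positivity)]
          field_simp
        have h3 := bound C F g hg s hs0
        refine h3.trans (mul_le_mul_of_nonneg_left (le_of_eq ?_) hN.le)
        have h6 : (C.card : ℝ) * Real.log F.card / 2 = (C.card * s / 4) ^ 2 := by
          rw [hs]
          ring
        rw [h6, Real.sqrt_sq (by positivity), hs]
        field_simp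
        ring
  have h7 : ∑ A : X → Bool, ((agr C A (g A) : ℝ) - C.card / 2) =
      (∑ A : X → Bool, ((C.filter fun x => A x = g A x).card : ℝ)) -
        2 ^ Fintype.card X * (C.card / 2) := by
    rw [Finset.sum_sub_distrib, Finset.sum_const, nsmul_eq_mul, Finset.card_univ,
      Fintype.card_fun, Fintype.card_bool]
    push_cast
    rfl
  rw [h7] at key
  rw [mul_add]
  linarith

end Pool.Agent.THX
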