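import Pool.Agent.THX.StmtsB
import Pool.Agent.THX.AV1

/-!
Project THX (problem MP_5e85fc_lc), average case: `AV1_Stmt` from `AV1_thm` (helper97).
-/

set_option autoImplicit false

namespace Pool.Agent.THX

theorem t_AV1 : AV1_Stmt := by
  classical
  intro X T _ _ _ C v g L _ hT
  have h1 := AV1_thm C (Finset.univ.image v) (fun A => v (g A))
    (fun A => Finset.mem_image_of_mem v (Finset.mem_univ _))
  have h2 : (fun A : X → Bool => ((C.filter fun x => v (g A) x = A x).card : ℝ)) =
      fun A : X → Bool => ((C.filter fun x => A x = v (g A) x).card : ℝ) := by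
    funext A
    simp only [eq_comm]
  rw [h2]
  refine h1.trans (mul_le_mul_of_nonneg_left (add_le_add_right (Real.sqrt_le_sqrt ?_) _)
    (by positivity))
  have h3 : (0 : ℝ) < (Finset.univ.image v).card := by
    have h4 : (Finset.univ.image v).Nonempty :=
      ⟨v (g fun _ => true), Finset.mem_image_of_mem v (Finset.mem_univ _)⟩
    exact_mod_cast h4.card_pos
  have h4 : ((Finset.univ.image v).card : ℝ) ≤ Real.exp L := by
    refine le_trans ?_ hT
    have h5 : (Finset.univ.image v).card ≤ Fintype.card T := by
      rw [← Finset.card_univ (α := T)]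
      exact Finset.card_image_le
    exact_mod_cast h5
  have h5 : Real.log ((Finset.univ.image v).card : ℝ) ≤ L := by
    have h6 := Real.log_le_log h3 h4
    rwa [Real.log_exp] at h6
  have h6 : (0 : ℝ) ≤ C.card := Nat.cast_nonneg _
  have h7 := mul_le_mul_of_nonneg_left h5 h6
  linarith

end Pool.Agent.THX
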