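import Pool.Agent.THX.StmtsB

/-!
Project THX (problem MP_5e85fc_lc), module AV2: guesses with classes. The answer for the element `x` of
the class `Φ x` depends on the random set only through the guess of the class; AV1 for every class and
the inequality of Cauchy and Schwarz.
-/

set_option autoImplicit false

namespace Pool.Agent.THX

namespace AV2x

/-- The sum of square roots: `∑ √(f i) ≤ √(|I| ∑ f i)`. -/
theorem sum_sqrt_le {I : Type} [Fintype I] (f : I → ℝ) (hf : ∀ i, 0 ≤ f i) :
    ∑ i, Real.sqrt (f i) ≤ Real.sqrt (Fintype.card I * ∑ i, f i) := by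
  apply Real.le_sqrt_of_sq_le
  have h1 := sq_sum_le_card_mul_sum_sq (s := (Finset.univ : Finset I))
    (f := fun i => Real.sqrt (f i))
  rw [Finset.card_univ] at h1
  refine le_trans h1 (le_of_eq ?_)
  congr 1
  exact Finset.sum_congr rfl fun i _ => Real.sq_sqrt (hf i)

/-- The fibres of `Φ` cut a finite set into pieces. -/
theorem card_fib {X I : Type} [DecidableEq X] [Fintype I] [DecidableEq I]
    (Φ : X → I) (S : Finset X) :
    (S.card : ℝ) = ∑ i, ((S.filter fun x => Φ x = i).card : ℝ) := by
  rw [Finset.card_eq_sum_card_fiberwise (f := Φ) (s := S) (t := Finset.univ)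
    (fun x _ => Finset.mem_coe.2 (Finset.mem_univ _))]
  push_cast
  rfl

end AV2x

open AV2x in
theorem t_AV2 (h : AV1_Stmt) : AV2_Stmt := by
  intro X I T _ _ _ _ _ Φ τ V L hL hT hV
  classical
  have hv : ∀ i : I, ∃ v : T → X → Bool, ∀ A x, Φ x = i → v (τ i A) x = V x A := by
    intro i
    refine ⟨fun t x => if hh : ∃ A, τ i A = t then V x hh.choose else false, ?_⟩
    intro A x hx
    have hh : ∃ A', τ i A' = τ i A := ⟨A, rfl⟩
    show (if hh : ∃ A', τ i A' = τ i A then V x hh.choose else false) = V x A
    rw [dif_pos hh]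
    subst hx
    exact hV x _ _ hh.choose_spec
  choose v hv using hv
  have h1 : ∀ i : I, ∑ A : X → Bool,
      ((((Finset.univ.filter fun x => V x A = A x)).filter fun x => Φ x = i).card : ℝ) ≤
      2 ^ Fintype.card X * (((Finset.univ.filter fun x => Φ x = i).card : ℝ) / 2 +
        Real.sqrt ((Finset.univ.filter fun x => Φ x = i).card * L / 2)) := by
    intro i
    refine le_trans (le_of_eq ?_) (h X T (Finset.univ.filter fun x => Φ x = i) (v i) (τ i) L hL hT)
    refine Finset.sum_congr rfl fun A _ => ?_
    congr 2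
    ext x
    simp only [Finset.mem_filter, Finset.mem_univ, true_and]
    constructor
    · rintro ⟨h2, h3⟩
      exact ⟨h3, by rw [hv i A x h3]; exact h2⟩
    · rintro ⟨h3, h2⟩
      rw [hv i A x h3] at h2
      exact ⟨h2, h3⟩
  have h2 : ∑ A : X → Bool, ((Finset.univ.filter fun x => V x A = A x).card : ℝ) =
      ∑ i : I, ∑ A : X → Bool,
        ((((Finset.univ.filter fun x => V x A = A x)).filter fun x => Φ x = i).card : ℝ) := by
    rw [Finset.sum_comm]
    exact Finset.sum_congr rfl fun A _ => card_fib Φ _
  have h3 : (Fintype.card X : ℝ) = ∑ i, ((Finset.univ.filter fun x => Φ x = i).card : ℝ) := by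
    rw [← Finset.card_univ]
    exact card_fib Φ _
  rw [h2]
  refine le_trans (Finset.sum_le_sum fun i _ => h1 i) ?_
  rw [← Finset.mul_sum, Finset.sum_add_distrib, ← Finset.sum_div, ← h3]
  refine mul_le_mul_of_nonneg_left ?_ (by positivity)
  refine add_le_add le_rfl ?_
  refine le_trans (sum_sqrt_le _ fun i => by positivity) (le_of_eq ?_)
  congr 1
  rw [← Finset.sum_div, ← Finset.sum_mul, ← h3]
  ring

end Pool.Agent.THX
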