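import Pool.Agent.THX.Stmts

/-!
# The parameters
-/

set_option autoImplicit false

namespace Pool.Agent.THX

namespace PARx

/-- First inequality. -/
theorem one {s K : ℕ} (hs : 1 ≤ s) (h2 : 130 * s ≤ K) (h3 : K ≤ 130 * s ^ 3) :
    200 * K ^ 5 * (1 + s * (2 * K + 1)) ^ (2 * s) ≤ 2 ^ (128 * s ^ 2) := by
  have hK : 130 ≤ K := by nlinarith
  have a1 : 1 + s * (2 * K + 1) ≤ K ^ 2 := by nlinarith
  have a2 : (1 + s * (2 * K + 1)) ^ (2 * s) ≤ K ^ (4 * s) := by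
    calc (1 + s * (2 * K + 1)) ^ (2 * s) ≤ (K ^ 2) ^ (2 * s) := Nat.pow_le_pow_left a1 _
      _ = K ^ (4 * s) := by rw [← pow_mul]; congr 1; ring
  have a3 : K ≤ 2 ^ (8 + 3 * s) := by
    have b1 : s ≤ 2 ^ s := Nat.lt_two_pow_self.le
    have b2 : s ^ 3 ≤ 2 ^ (3 * s) := by
      calc s ^ 3 ≤ (2 ^ s) ^ 3 := Nat.pow_le_pow_left b1 3
        _ = 2 ^ (3 * s) := by rw [← pow_mul]; congr 1; ring
    calc K ≤ 130 * s ^ 3 := h3
      _ ≤ 2 ^ 8 * 2 ^ (3 * s) := Nat.mul_le_mul (by norm_num) b2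
      _ = 2 ^ (8 + 3 * s) := (pow_add 2 8 (3 * s)).symm
  have a4 : K ^ 5 * K ^ (4 * s) ≤ 2 ^ ((8 + 3 * s) * (5 + 4 * s)) := by
    rw [← pow_add, pow_mul]
    exact Nat.pow_le_pow_left a3 _
  calc 200 * K ^ 5 * (1 + s * (2 * K + 1)) ^ (2 * s)
      ≤ 200 * K ^ 5 * K ^ (4 * s) := Nat.mul_le_mul_left _ a2
    _ = 200 * (K ^ 5 * K ^ (4 * s)) := by ring
    _ ≤ 2 ^ 8 * 2 ^ ((8 + 3 * s) * (5 + 4 * s)) := Nat.mul_le_mul (by norm_num) a4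
    _ = 2 ^ (8 + (8 + 3 * s) * (5 + 4 * s)) := (pow_add 2 8 _).symm
    _ ≤ 2 ^ (128 * s ^ 2) := Nat.pow_le_pow_right (by norm_num) (by nlinarith)

/-- Second inequality. -/
theorem two_lt {s K l : ℕ} (hs : s ≤ K) (hK : 130 ≤ K) (hl : l + 2 ≤ K) :
    K.factorial * (2 + s * (l + 3 + 4 * K + K.factorial) ^ 2) ^ (s * (l + 5 + 6 * K) ^ 2) <
      2 ^ (200 * K ^ 5) := by
  have hK0 : 0 < K := by omega
  obtain ⟨E, hE⟩ : ∃ E, E = 2 ^ (K ^ 2) := ⟨_, rfl⟩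
  have e1 : 2 ^ K ≤ E := by
    rw [hE]
    exact Nat.pow_le_pow_right (by norm_num) (Nat.le_self_pow (by norm_num) K)
  have e0 : 5 * K + 2 ≤ 2 ^ K := by
    have : ∀ n : ℕ, 5 ≤ n → 5 * n + 2 ≤ 2 ^ n := by
      intro n hn
      induction n, hn using Nat.le_induction with
      | base => norm_num
      | succ n hn ih => rw [pow_succ]; omega
    exact this K (by omega)
  have e2 : K.factorial ≤ E := by
    calc K.factorial ≤ K ^ K := Nat.factorial_le_pow K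
      _ ≤ (2 ^ K) ^ K := Nat.pow_le_pow_left Nat.lt_two_pow_self.le K
      _ = E := by rw [hE, ← pow_mul, sq]
  have e3 : l + 3 + 4 * K + K.factorial ≤ 2 * E := by omega
  have e4 : 2 + s * (l + 3 + 4 * K + K.factorial) ^ 2 ≤ E ^ 3 := by
    have f1 : (l + 3 + 4 * K + K.factorial) ^ 2 ≤ (2 * E) ^ 2 := Nat.pow_le_pow_left e3 2
    have f2 : s * (l + 3 + 4 * K + K.factorial) ^ 2 ≤ K * (2 * E) ^ 2 := Nat.mul_le_mul hs f1
    have f3 : 4 * K + 2 ≤ E := by omega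
    have f4 : 1 ≤ E ^ 2 := Nat.one_le_pow _ _ (by omega)
    calc 2 + s * (l + 3 + 4 * K + K.factorial) ^ 2 ≤ 2 * E ^ 2 + K * (2 * E) ^ 2 := by omega
      _ = (4 * K + 2) * E ^ 2 := by ring
      _ ≤ E * E ^ 2 := Nat.mul_le_mul_right _ f3
      _ = E ^ 3 := by ring
  have e5 : s * (l + 5 + 6 * K) ^ 2 ≤ 64 * K ^ 3 := by
    have f1 : (l + 5 + 6 * K) ^ 2 ≤ (8 * K) ^ 2 := Nat.pow_le_pow_left (by omega) 2
    calc s * (l + 5 + 6 * K) ^ 2 ≤ K * (8 * K) ^ 2 := Nat.mul_le_mul hs f1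
      _ = 64 * K ^ 3 := by ring
  have e6 : (2 + s * (l + 3 + 4 * K + K.factorial) ^ 2) ^ (s * (l + 5 + 6 * K) ^ 2) ≤
      (E ^ 3) ^ (64 * K ^ 3) :=
    (Nat.pow_le_pow_left e4 _).trans
      (Nat.pow_le_pow_right (Nat.one_le_pow _ _ (by omega)) e5)
  calc K.factorial * (2 + s * (l + 3 + 4 * K + K.factorial) ^ 2) ^ (s * (l + 5 + 6 * K) ^ 2)
      ≤ E * (E ^ 3) ^ (64 * K ^ 3) := Nat.mul_le_mul e2 e6
    _ = 2 ^ (K ^ 2 + 192 * K ^ 5) := by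
        rw [hE, ← pow_mul, ← pow_mul, ← pow_add]
        congr 1
        ring
    _ < 2 ^ (200 * K ^ 5) := by
        refine Nat.pow_lt_pow_right (by norm_num) ?_
        have : K ^ 2 ≤ K ^ 5 := Nat.pow_le_pow_right hK0 (by norm_num)
        have h5 : 0 < K ^ 5 := Nat.pow_pos hK0
        omega

/-- Third inequality. -/
theorem three {s K : ℕ} (hs : 1 ≤ s) (h3 : K ≤ 130 * s ^ 3) :
    128 * s ^ 2 + 1 + 3 ^ (2 + (8 * K + 8) + (128 * s ^ 2 + 1) * (200 * K ^ 5)) ≤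
      2 ^ (10 ^ 16 * s ^ 17) := by
  obtain ⟨y, hy⟩ : ∃ y, y = 2 + (8 * K + 8) + (128 * s ^ 2 + 1) * (200 * K ^ 5) := ⟨_, rfl⟩
  obtain ⟨z, hz⟩ : ∃ z, z = s ^ 17 := ⟨_, rfl⟩
  have h17 : ∀ k : ℕ, k ≤ 17 → s ^ k ≤ z := fun k hk => by
    rw [hz]
    exact Nat.pow_le_pow_right hs hk
  have hz1 : 1 ≤ z := by
    rw [hz]
    exact Nat.one_le_pow _ _ hs
  have b1 : K ^ 5 ≤ 37129300000 * s ^ 15 := by
    calc K ^ 5 ≤ (130 * s ^ 3) ^ 5 := Nat.pow_le_pow_left h3 5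
      _ = 37129300000 * s ^ 15 := by ring
  have b2 : (128 * s ^ 2 + 1) * (200 * K ^ 5) ≤ 957935940000000 * z := by
    have c1 : 128 * s ^ 2 + 1 ≤ 129 * s ^ 2 := by
      have := Nat.one_le_pow 2 s hs
      omega
    calc (128 * s ^ 2 + 1) * (200 * K ^ 5) ≤ 129 * s ^ 2 * (200 * (37129300000 * s ^ 15)) :=
          Nat.mul_le_mul c1 (Nat.mul_le_mul_left _ b1)
      _ = 957935940000000 * s ^ 17 := by ring
      _ = 957935940000000 * z := by rw [hz]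
  have b3 : K ≤ 130 * z := h3.trans (Nat.mul_le_mul_left _ (h17 3 (by norm_num)))
  have b4 : y ≤ 10 ^ 15 * z := by
    rw [hy]
    norm_num
    omega
  have b5 : 128 * s ^ 2 + 1 ≤ 129 * z := by
    have := h17 2 (by norm_num)
    omega
  have b6 : 128 * s ^ 2 + 1 ≤ 2 ^ (129 * z) := b5.trans Nat.lt_two_pow_self.le
  have b7 : 3 ^ y ≤ 2 ^ (2 * y) := by
    rw [pow_mul]
    exact Nat.pow_le_pow_left (by norm_num) y
  rw [← hy, ← hz]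
  calc 128 * s ^ 2 + 1 + 3 ^ y ≤ 2 ^ (129 * z) + 2 ^ (2 * y) := Nat.add_le_add b6 b7
    _ ≤ 2 ^ (2 * 10 ^ 15 * z) + 2 ^ (2 * 10 ^ 15 * z) := by
        refine Nat.add_le_add (Nat.pow_le_pow_right (by norm_num) ?_)
          (Nat.pow_le_pow_right (by norm_num) ?_)
        · norm_num
          omega
        · norm_num at b4 ⊢
          omega
    _ = 2 ^ (2 * 10 ^ 15 * z + 1) := by rw [pow_succ]; ring
    _ ≤ 2 ^ (10 ^ 16 * z) := by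
        refine Nat.pow_le_pow_right (by norm_num) ?_
        norm_num
        omega

end PARx

theorem t_PAR : PAR_Stmt := by
  refine ⟨10 ^ 16, fun s hs => ⟨128 * s ^ 2, 200 * (s * (128 * s ^ 2 + 2)) ^ 5, ?_⟩⟩
  obtain ⟨K, hK⟩ : ∃ K, K = s * (128 * s ^ 2 + 2) := ⟨_, rfl⟩
  rw [← hK]
  have h2 : 130 * s ≤ K := by
    rw [hK]
    have : 1 ≤ s ^ 2 := Nat.one_le_pow _ _ hs
    calc 130 * s = s * 130 := by ring
      _ ≤ s * (128 * s ^ 2 + 2) := Nat.mul_le_mul_left _ (by omega)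
  have h3 : K ≤ 130 * s ^ 3 := by
    rw [hK]
    have : 1 ≤ s ^ 2 := Nat.one_le_pow _ _ hs
    calc s * (128 * s ^ 2 + 2) ≤ s * (130 * s ^ 2) := Nat.mul_le_mul_left _ (by omega)
      _ = 130 * s ^ 3 := by ring
  have h4 : 128 * s ^ 2 + 2 ≤ K := by
    rw [hK]
    exact Nat.le_mul_of_pos_left _ hs
  exact ⟨PARx.one hs h2 h3, PARx.two_lt (by omega) (by omega) h4, PARx.three hs h3⟩

end Pool.Agent.THX
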