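import Pool.Agent.THX.StmtsB
import Pool.Agent.THX.PAR

/-!
# The parameters for the average case
-/

set_option autoImplicit false

namespace Pool.Agent.THX

namespace AV3x

lemma step {ℓ s c : ℕ} (h : ℓ ^ (50 * s) ≤ 2 ^ ℓ) (hc : 2 ^ c ≤ ℓ) : 50 * c * s ≤ ℓ := by
  have h1 : (2 : ℕ) ^ (c * (50 * s)) ≤ 2 ^ ℓ := by
    calc (2 : ℕ) ^ (c * (50 * s)) = (2 ^ c) ^ (50 * s) := pow_mul 2 c _
      _ ≤ ℓ ^ (50 * s) := Nat.pow_le_pow_left hc _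
      _ ≤ 2 ^ ℓ := h
  have h2 : c * (50 * s) ≤ ℓ := (Nat.pow_le_pow_iff_right (by norm_num)).1 h1
  calc 50 * c * s = c * (50 * s) := by ring
    _ ≤ ℓ := h2

lemma big {ℓ s : ℕ} (hl : 10 ≤ ℓ) (hs : 1 ≤ s) (h : ℓ ^ (50 * s) ≤ 2 ^ ℓ) : 400 * s ≤ ℓ := by
  have h1 := step (c := 3) h (by omega)
  have h2 := step (c := 7) h (by omega)
  have h3 := step (c := 8) h (by omega)
  omega

lemma E1 : ∀ ℓ : ℕ, 10 ≤ ℓ → 4 * (ℓ + 2) ≤ 2 ^ ℓ := by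
  intro ℓ hl
  induction ℓ, hl using Nat.le_induction with
  | base => norm_num
  | succ n hn ih =>
    rw [pow_succ]
    omega

lemma E2 : ∀ ℓ : ℕ, 10 ≤ ℓ → ℓ ^ 2 + 2 ≤ 2 ^ ℓ := by
  intro ℓ hl
  induction ℓ, hl using Nat.le_induction with
  | base => norm_num
  | succ n hn ih =>
    rw [pow_succ 2 n]
    nlinarith

lemma last (ℓ : ℕ) (hl : 10 ≤ ℓ) : 3 ^ (2 + ℓ ^ 2 + (ℓ + 1) * 2 ^ ℓ) ≤ 2 ^ (4 ^ ℓ) := by
  have h1 := E1 ℓ hl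
  have h2 := E2 ℓ hl
  obtain ⟨E, hE⟩ : ∃ E, E = 2 ^ ℓ := ⟨_, rfl⟩
  have h4 : 4 ^ ℓ = E * E := by
    rw [hE, ← mul_pow]
    norm_num
  rw [← hE] at h1 h2 ⊢
  rw [h4]
  calc 3 ^ (2 + ℓ ^ 2 + (ℓ + 1) * E) ≤ (2 ^ 2) ^ (2 + ℓ ^ 2 + (ℓ + 1) * E) :=
        Nat.pow_le_pow_left (by norm_num) _
    _ = 2 ^ (2 * (2 + ℓ ^ 2 + (ℓ + 1) * E)) := (pow_mul 2 2 _).symm
    _ ≤ 2 ^ (E * E) := by
        apply Nat.pow_le_pow_right (by norm_num)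
        have h5 : 4 * (ℓ + 2) * E ≤ E * E := Nat.mul_le_mul_right E h1
        have h6 : 2 * (ℓ ^ 2 + 2) ≤ 2 * E := by omega
        have h7 : 2 * E ≤ (2 * ℓ + 6) * E := Nat.mul_le_mul_right E (by omega)
        nlinarith

end AV3x

/-- **The module.** -/
theorem t_AV3 : AV3_Stmt := by
  refine ⟨?_, AV3x.last⟩
  intro ℓ s hl hs h
  have h4 := AV3x.big hl hs h
  have hl4 : 400 ≤ ℓ := by omega
  obtain ⟨K, hK⟩ : ∃ K, K = s * (ℓ + 2) := ⟨_, rfl⟩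
  rw [← hK]
  have k1 : 400 * K ≤ ℓ * (ℓ + 2) := by
    rw [hK]
    calc 400 * (s * (ℓ + 2)) = (400 * s) * (ℓ + 2) := by ring
      _ ≤ ℓ * (ℓ + 2) := Nat.mul_le_mul_right _ h4
  have k2 : ℓ + 2 ≤ K := by
    rw [hK]
    exact Nat.le_mul_of_pos_left _ hs
  have k3 : s ≤ K := by
    rw [hK]
    exact Nat.le_mul_of_pos_right _ (by omega)
  have k4 : 3 * K ≤ ℓ ^ 2 := by nlinarith
  refine ⟨by nlinarith, ?_, ?_⟩
  · refine (PARx.two_lt (l := ℓ) k3 (by omega) k2).le.trans ?_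
    apply Nat.pow_le_pow_right (by norm_num)
    calc 200 * K ^ 5 ≤ 243 * K ^ 5 := Nat.mul_le_mul_right _ (by norm_num)
      _ = (3 * K) ^ 5 := by ring
      _ ≤ (ℓ ^ 2) ^ 5 := Nat.pow_le_pow_left k4 _
      _ = ℓ ^ 10 := by ring
  · have a1 : 1 + s * (2 * K + 1) ≤ ℓ ^ 3 := by
      have b1 : 2 * K + 1 ≤ ℓ ^ 2 := by nlinarith
      have b2 : 1 + s ≤ ℓ := by omega
      calc 1 + s * (2 * K + 1) ≤ 1 + s * ℓ ^ 2 := by
            have := Nat.mul_le_mul_left s b1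
            omega
        _ ≤ 1 * ℓ ^ 2 + s * ℓ ^ 2 := by
            have : 1 ≤ ℓ ^ 2 := Nat.one_le_pow _ _ (by omega)
            omega
        _ = (1 + s) * ℓ ^ 2 := by ring
        _ ≤ ℓ * ℓ ^ 2 := Nat.mul_le_mul_right _ b2
        _ = ℓ ^ 3 := by ring
    have a2 : (1 + s * (2 * K + 1)) ^ (2 * s) * ℓ ^ 10 ≤ ℓ ^ (16 * s) := by
      calc (1 + s * (2 * K + 1)) ^ (2 * s) * ℓ ^ 10 ≤ (ℓ ^ 3) ^ (2 * s) * ℓ ^ (10 * s) :=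
            Nat.mul_le_mul (Nat.pow_le_pow_left a1 _)
              (Nat.pow_le_pow_right (by omega) (by omega))
        _ = ℓ ^ (16 * s) := by
            rw [← pow_mul, ← pow_add]
            congr 1
            ring
    calc ((1 + s * (2 * K + 1)) ^ (2 * s) * ℓ ^ 10) ^ 3 ≤ (ℓ ^ (16 * s)) ^ 3 :=
          Nat.pow_le_pow_left a2 _
      _ = ℓ ^ (48 * s) := by
          rw [← pow_mul]
          congr 1
          ring
      _ ≤ ℓ ^ (50 * s) := Nat.pow_le_pow_right (by omega) (by omega)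
      _ ≤ 2 ^ ℓ := h

end Pool.Agent.THX
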