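import Pool.Agent.THX.Stmts

/-!
Project THX (problem MP_5e85fc_lc), module CA: progress if both heads are in the gap or on the right
endmarker.
-/

set_option autoImplicit false

namespace Pool.Agent.THX

open Pool.Agent.Heads

namespace CAx

variable {Q : Type} [Fintype Q]

open scoped Classical in
lemma out_pos (M : TH Q) (ℓ N : ℕ) (F : Ft Q ℓ) (c : Cf Q)
    (h : ∃ t, Stp ℓ N F ((M.J ℓ N F)^[t] c)) :
    ∃ t, Stp ℓ N F ((M.J ℓ N F)^[t] c) ∧ (∀ i < t, ¬ Stp ℓ N F ((M.J ℓ N F)^[i] c)) ∧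
      M.out ℓ N F c = Sum.inr (((M.J ℓ N F)^[t] c).1,
        fun b => lab Q ℓ N (((M.J ℓ N F)^[t] c).2 b)) :=
  ⟨Nat.find h, Nat.find_spec h, fun _ hi => Nat.find_min h hi, by
    unfold TH.out
    rw [dif_pos h]⟩

open scoped Classical in
lemma out_neg (M : TH Q) (ℓ N : ℕ) (F : Ft Q ℓ) (c : Cf Q)
    (h : ¬ ∃ t, Stp ℓ N F ((M.J ℓ N F)^[t] c)) :
    M.out ℓ N F c = Sum.inl (decide (∃ t, ((M.J ℓ N F)^[t] c).1 ∈ M.acc)) := by
  unfold TH.out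
  rw [dif_neg h]

lemma dec_le {ℓ N : ℕ} (hN : 8 * KK Q ℓ + 8 ≤ N) (z : Cd Q ℓ) : dec N z ≤ ℓ + 2 + N := by
  rcases z with i | j
  · have := i.isLt
    change i.val ≤ ℓ + 2 + N
    omega
  · change ℓ + 2 + N - j.val ≤ ℓ + 2 + N
    omega

/-- equal labels: not deep, or deep and congruent -/
lemma lab_cases {ℓ N N' d d' : ℕ} (h : lab Q ℓ N d = lab Q ℓ N' d') (hd : d ≤ ℓ + 2 + N)
    (hd' : d' ≤ ℓ + 2 + N') :
    Sm Q ℓ N N' d d' ∨ (Dp Q ℓ N d ∧ Dp Q ℓ N' d' ∧ d ≡ d' [MOD (KK Q ℓ).factorial]) := by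
  unfold lab at h
  by_cases h1 : d < ℓ + 2 + 2 * KK Q ℓ
  · rw [dif_pos h1] at h
    left
    left
    by_cases h2 : d' < ℓ + 2 + 2 * KK Q ℓ
    · rw [dif_pos h2] at h
      exact ⟨Fin.mk.inj (Sum.inl.inj h), h1⟩
    · rw [dif_neg h2] at h
      split_ifs at h
  · rw [dif_neg h1] at h
    by_cases h2 : d' < ℓ + 2 + 2 * KK Q ℓ
    · rw [dif_pos h2] at h
      split_ifs at h
    · rw [dif_neg h2] at h
      by_cases h3 : ℓ + 2 + N ≤ d + 2 * KK Q ℓ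
      · rw [dif_pos h3] at h
        by_cases h4 : ℓ + 2 + N' ≤ d' + 2 * KK Q ℓ
        · rw [dif_pos h4] at h
          left
          right
          have h7 := Fin.mk.inj (Sum.inl.inj (Sum.inr.inj h))
          exact ⟨ℓ + 2 + N - d, by omega, by omega, by omega⟩
        · rw [dif_neg h4] at h
          cases Sum.inr.inj h
      · rw [dif_neg h3] at h
        by_cases h4 : ℓ + 2 + N' ≤ d' + 2 * KK Q ℓ
        · rw [dif_pos h4] at h
          cases Sum.inr.inj h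
        · rw [dif_neg h4] at h
          right
          have h7 := Fin.mk.inj (Sum.inr.inj (Sum.inr.inj h))
          exact ⟨⟨by omega, by omega⟩, ⟨by omega, by omega⟩, h7⟩

lemma lab_low {ℓ N N' p : ℕ} (h : lab Q ℓ N (ℓ + 1) = lab Q ℓ N' p) (hp : p ≤ ℓ + 2 + N')
    (hN : 2 * KK Q ℓ + 2 ≤ N) : p = ℓ + 1 := by
  rcases lab_cases h (by omega) hp with h1 | h1
  · rcases h1 with h2 | ⟨j, h2, h3, h4⟩
    · exact h2.1.symm
    · omega
  · have := h1.1.1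
    omega

end CAx

open CAx in
theorem t_CA (hEXF : EXF_Stmt) (hRUN : RUN_Stmt) : CA_Stmt := by
  intro Q _ M ℓ N N' x F c c' hx hF hN hN' hty hRG
  obtain ⟨k, rfl, rfl, hc, hc'⟩ := hRG
  have hout : M.out ℓ N F (dcf N k) = M.out ℓ N' F (dcf N' k) :=
    congrFun (congrArg Prod.snd hty) k
  have hb : ∀ b, ℓ + 1 ≤ (dcf N k : Cf Q).2 b ∧ (dcf N k : Cf Q).2 b ≤ ℓ + 2 + N := fun b =>
    ⟨by have := hc b; omega, dec_le hN (k.2 b)⟩
  have hb' : ∀ b, ℓ + 1 ≤ (dcf N' k : Cf Q).2 b ∧ (dcf N' k : Cf Q).2 b ≤ ℓ + 2 + N' := fun b =>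
    ⟨by have := hc' b; omega, dec_le hN' (k.2 b)⟩
  by_cases h : ∃ t, Stp ℓ N F ((M.J ℓ N F)^[t] (dcf N k))
  · obtain ⟨t, ht, htm, hto⟩ := out_pos M ℓ N F _ h
    have h' : ∃ t, Stp ℓ N' F ((M.J ℓ N' F)^[t] (dcf N' k)) := by
      by_contra hcon
      rw [hto, out_neg M ℓ N' F _ hcon] at hout
      cases hout
    obtain ⟨t', ht', htm', hto'⟩ := out_pos M ℓ N' F _ h'
    rw [hto, hto'] at hout
    obtain ⟨⟨m, hm, hg⟩, hgb⟩ := hRUN Q M ℓ N x F _ t hx hF hb htm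
    obtain ⟨⟨m', hm', hg'⟩, hgb'⟩ := hRUN Q M ℓ N' x F _ t' hx hF hb' htm'
    have ht1 : 1 ≤ t := by
      rcases Nat.eq_zero_or_pos t with h0 | h0
      · subst h0
        exact absurd hc ht.1
      · exact h0
    refine Or.inr (Or.inr ⟨m, m', ht1.trans hm, ?_⟩)
    rw [← hg, ← hg']
    have hpair := Prod.mk.inj (Sum.inr.inj hout)
    generalize (M.J ℓ N F)^[t] (dcf N k) = g at ht hgb hpair ⊢
    generalize (M.J ℓ N' F)^[t'] (dcf N' k) = g' at hgb' hpair ⊢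
    obtain ⟨hq, hlab⟩ := hpair
    have hlab : ∀ b, lab Q ℓ N (g.2 b) = lab Q ℓ N' (g'.2 b) := fun b => congrFun hlab b
    obtain ⟨hs1, hs2⟩ := ht
    obtain ⟨a, ha⟩ := not_forall.1 hs1
    have ha1 : g.2 a = ℓ + 1 := by
      have := (hgb a).1
      omega
    have ha2 : g'.2 a = ℓ + 1 := by
      have h1 := hlab a
      rw [ha1] at h1
      exact lab_low h1 (hgb' a).2 (by omega)
    have e : g = (g.1, two a (ℓ + 1) (g.2 !a)) := by
      rw [← ha1, ← eq_two]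
    have e' : g' = (g.1, two a (ℓ + 1) (g'.2 !a)) := by
      rw [← ha2, ← eq_two, hq]
    rcases lab_cases (hlab (!a)) (hgb _).2 (hgb' _).2 with h1 | ⟨h1, h2, h3⟩
    · exact Or.inr (Or.inl ⟨a, g.1, ℓ + 1, g.2 !a, g'.2 !a, le_rfl, e, e', h1⟩)
    · refine Or.inr (Or.inr ⟨a, g.1, ℓ + 1, g.2 !a, g'.2 !a, le_rfl, e, e', h1, h2, h3, ?_⟩)
      rcases hEXF Q M ℓ x a g.1 with h4 | ⟨t, i, -, -, -, -, h5, -⟩
      · exact h4.1
      · exfalso
        rw [hF] at h5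
        exact hs2 ⟨a, _, ha1, h1, h5⟩
  · have h' : ¬ ∃ t, Stp ℓ N' F ((M.J ℓ N' F)^[t] (dcf N' k)) := by
      intro hcon
      obtain ⟨t', -, -, hto'⟩ := out_pos M ℓ N' F _ hcon
      rw [hto', out_neg M ℓ N F _ h] at hout
      cases hout
    rw [out_neg M ℓ N F _ h, out_neg M ℓ N' F _ h'] at hout
    have hiff := Sum.inl.inj hout
    rw [decide_eq_decide] at hiff
    by_cases ha : ∃ t, ((M.J ℓ N' F)^[t] (dcf N' k)).1 ∈ M.acc
    · obtain ⟨t, ht⟩ := ha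
      obtain ⟨⟨m, hm, hg⟩, -⟩ := hRUN Q M ℓ N' x F _ t hx hF hb'
        (fun i _ hi => h' ⟨i, hi⟩)
      refine Or.inr (Or.inl ⟨m, ?_⟩)
      rw [← hg]
      exact ht
    · left
      rintro ⟨n, hn⟩
      obtain ⟨⟨m, hm, hg⟩, -⟩ := hRUN Q M ℓ N x F _ n hx hF hb
        (fun i _ hi => h ⟨i, hi⟩)
      rw [acc_mono M _ _ n m hm hn] at hg
      refine ha (hiff.1 ⟨n, ?_⟩)
      rw [hg]
      exact hn

end Pool.Agent.THX
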