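import Pool.Agent.THX.Stmts

/-!
Project THX (problem MP_5e85fc_lc), module CB: progress if one head is on the cells `0, …, ℓ + 1` and
the other one is not deep.
-/

set_option autoImplicit false

namespace Pool.Agent.THX

open Pool.Agent.Heads

namespace CBx

variable {Q : Type} [Fintype Q] {ℓ : ℕ}

/-- Two configurations with the same codes and all positions in the gap are related. -/
lemma rg (N N' : ℕ) (a : Bool) (q : Q) (z₁ z₂ : Cd Q ℓ) (h1 : ℓ + 2 ≤ dec N z₁)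
    (h2 : ℓ + 2 ≤ dec N z₂) (h3 : ℓ + 2 ≤ dec N' z₁) (h4 : ℓ + 2 ≤ dec N' z₂) :
    RG ℓ N N' (q, two a (dec N z₁) (dec N z₂)) (q, two a (dec N' z₁) (dec N' z₂)) := by
  refine ⟨(q, fun b => if b = a then z₁ else z₂), ?_, ?_, ?_, ?_⟩
  · simp only [dcf]
    congr 1
    funext b
    by_cases hb : b = a <;> simp [two, hb]
  · simp only [dcf]
    congr 1
    funext b
    by_cases hb : b = a <;> simp [two, hb]
  · intro b
    by_cases hb : b = a <;> simp [two, hb, h1, h2]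
  · intro b
    by_cases hb : b = a <;> simp [two, hb, h3, h4]

lemma dec_inl (N i : ℕ) (h : i < ℓ + 3 + 3 * KK Q ℓ) :
    dec (Q := Q) (ℓ := ℓ) N (Sum.inl ⟨i, h⟩) = i := rfl

lemma dec_inr (N j : ℕ) (h : j < 3 * KK Q ℓ + 2) :
    dec (Q := Q) (ℓ := ℓ) N (Sum.inr ⟨j, h⟩) = ℓ + 2 + N - j := rfl

end CBx

open CBx in
theorem t_CB (hLCK : LCK_Stmt) (hEXT : EXT_Stmt) (hSIM : SIM_Stmt) : CB_Stmt := by
  intro Q _ M ℓ N N' x c c' hx hN hN' hNN hRB
  obtain ⟨a, q, p, d, d', hp, rfl, rfl, hS⟩ := hRB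
  obtain ⟨q₁, p₁, d₁, d₁', hp₁, hSn, h1, h2⟩ := hLCK Q M ℓ N N' x a q p d d' hx hN hN' hp hS
  have hK : 1 ≤ KK Q ℓ := by
    unfold KK
    exact Nat.mul_pos (Fintype.card_pos_iff.mpr ⟨q⟩) (by omega)
  refine Or.inr (Or.inr ?_)
  rcases Nat.lt_or_ge (ℓ + 1) p₁ with hpp | hpp
  · -- the head `a` leaves
    obtain rfl : p₁ = ℓ + 2 := by omega
    refine ⟨1, 1, le_rfl, ?_⟩
    rw [Function.iterate_one, Function.iterate_one, h1, h2]
    rcases hSn with ⟨rfl, hd⟩ | ⟨j, hj, rfl, rfl⟩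
    · rcases Nat.lt_or_ge d₁ (ℓ + 2) with hd2 | hd2
      · refine Or.inr (Or.inl ⟨!a, q₁, d₁, ℓ + 2, ℓ + 2, by omega, ?_, ?_, Or.inl ⟨rfl, by omega⟩⟩)
        · rw [two_swap]
        · rw [two_swap]
      · refine Or.inl ?_
        have := rg N N' a q₁ (Sum.inl ⟨ℓ + 2, by omega⟩ : Cd Q ℓ)
          (Sum.inl ⟨d₁, by omega⟩ : Cd Q ℓ) (by rw [dec_inl]) (by rw [dec_inl]; exact hd2)
          (by rw [dec_inl]) (by rw [dec_inl]; exact hd2)
        simpa only [dec_inl] using this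
    · refine Or.inl ?_
      have := rg N N' a q₁ (Sum.inl ⟨ℓ + 2, by omega⟩ : Cd Q ℓ)
          (Sum.inr ⟨j, by omega⟩ : Cd Q ℓ) (by rw [dec_inl]) (by rw [dec_inr]; omega)
          (by rw [dec_inl]) (by rw [dec_inr]; omega)
      simpa only [dec_inl, dec_inr] using this
  · by_cases hSm : Sm Q ℓ N N' d₁ d₁'
    · refine ⟨1, 1, le_rfl, ?_⟩
      rw [Function.iterate_one, Function.iterate_one, h1, h2]
      exact Or.inr (Or.inl ⟨a, q₁, p₁, d₁, d₁', hpp, rfl, rfl, hSm⟩)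
    · have hcase : (d₁ = ℓ + 2 + 2 * KK Q ℓ ∧ d₁' = ℓ + 2 + 2 * KK Q ℓ) ∨
          (d₁ + (2 * KK Q ℓ + 1) = ℓ + 2 + N ∧ d₁' + (2 * KK Q ℓ + 1) = ℓ + 2 + N') := by
        rcases hSn with ⟨he, hd⟩ | ⟨j, hj, he, he'⟩
        · left
          have : ¬ d₁ < ℓ + 2 + 2 * KK Q ℓ := fun h => hSm (Or.inl ⟨he, h⟩)
          omega
        · right
          have : ¬ j ≤ 2 * KK Q ℓ := fun h => hSm (Or.inr ⟨j, h, he, he'⟩)
          omega
      have hD : Dp Q ℓ N d₁ := by unfold Dp; omega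
      have hD' : Dp Q ℓ N' d₁' := by unfold Dp; omega
      by_cases hSt : M.Stays ℓ x a (q₁, p₁)
      · refine ⟨1, 1, le_rfl, ?_⟩
        rw [Function.iterate_one, Function.iterate_one, h1, h2]
        refine Or.inr (Or.inr ⟨a, q₁, p₁, d₁, d₁', hpp, rfl, rfl, hD, hD', ?_, hSt⟩)
        rcases hcase with ⟨e1, e2⟩ | ⟨e1, e2⟩
        · rw [e1, e2]
        · apply Nat.ModEq.add_right_cancel' (2 * KK Q ℓ + 1)
          rw [e1, e2]
          exact hNN.add_left (ℓ + 2)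
      · obtain ⟨t, ht1, htK, hlt, heq⟩ := hEXT Q M ℓ x a (q₁, p₁) hpp hSt
        have hz : ∀ i ≤ t, -(KK Q ℓ : ℤ) ≤ dsp (M.bs x a) (M.bw x a) (q₁, p₁) i ∧
            dsp (M.bs x a) (M.bw x a) (q₁, p₁) i ≤ KK Q ℓ := by
          intro i hi
          have h3 := abs_bz_le M x a (q₁, p₁) i
          have h4 : (i : ℤ) ≤ KK Q ℓ := by exact_mod_cast hi.trans htK
          exact abs_le.mp (h3.trans h4)
        have hs := hSIM Q M ℓ x N a (q₁, p₁) d₁ t hx hlt (by
          intro i hi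
          have := hz i hi.le
          unfold Dp at hD
          omega)
        have hs' := hSIM Q M ℓ x N' a (q₁, p₁) d₁' t hx hlt (by
          intro i hi
          have := hz i hi.le
          unfold Dp at hD'
          omega)
        refine ⟨t + 1, t + 1, by omega, ?_⟩
        rw [Function.iterate_succ_apply, Function.iterate_succ_apply, h1, h2, hs, hs', heq]
        refine Or.inl ?_
        have hzt := hz t le_rfl
        generalize dsp (M.bs x a) (M.bw x a) (q₁, p₁) t = z at hzt ⊢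
        rcases hcase with ⟨e1, e2⟩ | ⟨e1, e2⟩
        · have hb : ((d₁ : ℤ) + z).toNat < ℓ + 3 + 3 * KK Q ℓ := by omega
          have hb' : ((d₁' : ℤ) + z).toNat = ((d₁ : ℤ) + z).toNat := by rw [e1, e2]
          have := rg N N' a ((M.bs x a)^[t] (q₁, p₁)).1 (Sum.inl ⟨ℓ + 2, by omega⟩ : Cd Q ℓ)
            (Sum.inl ⟨((d₁ : ℤ) + z).toNat, hb⟩ : Cd Q ℓ) (by rw [dec_inl])
            (by rw [dec_inl]; omega) (by rw [dec_inl]) (by rw [dec_inl]; omega)
          rw [hb']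
          simpa only [dec_inl] using this
        · have hb : (2 * (KK Q ℓ : ℤ) + 1 - z).toNat < 3 * KK Q ℓ + 2 := by omega
          have := rg N N' a ((M.bs x a)^[t] (q₁, p₁)).1 (Sum.inl ⟨ℓ + 2, by omega⟩ : Cd Q ℓ)
            (Sum.inr ⟨(2 * (KK Q ℓ : ℤ) + 1 - z).toNat, hb⟩ : Cd Q ℓ) (by rw [dec_inl])
            (by rw [dec_inr]; omega) (by rw [dec_inl]) (by rw [dec_inr]; omega)
          simp only [dec_inl, dec_inr] at this
          have e3 : ((d₁ : ℤ) + z).toNat = ℓ + 2 + N - (2 * (KK Q ℓ : ℤ) + 1 - z).toNat := by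
            omega
          have e4 : ((d₁' : ℤ) + z).toNat = ℓ + 2 + N' - (2 * (KK Q ℓ : ℤ) + 1 - z).toNat := by
            omega
          rw [e3, e4]
          exact this

end Pool.Agent.THX
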