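import Pool.Agent.THX.Stmts

/-!
Project THX (problem MP_5e85fc_lc): module CC, progress if one head stays on the cells of `⊢ x $`
forever in the blind run and the other one is deep.
-/

set_option autoImplicit false

namespace Pool.Agent.THX

open Pool.Agent.Heads

namespace CCx

variable {Q : Type} [Fintype Q]

/-- The blind orbit is in a set with `K` elements. -/
lemma orb_mem (M : TH Q) (ℓ : ℕ) (x : List (Fin 3)) (a : Bool) (u : Q × ℕ)
    (h : M.Stays ℓ x a u) (i : ℕ) :
    (M.bs x a)^[i] u ∈ (Finset.univ : Finset Q) ×ˢ Finset.range (ℓ + 2) := by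
  simp only [Finset.mem_product, Finset.mem_univ, Finset.mem_range, true_and]
  have := h i
  omega

lemma orb_card (ℓ : ℕ) :
    ((Finset.univ : Finset Q) ×ˢ Finset.range (ℓ + 2)).card ≤ KK Q ℓ := by
  simp [KK, Finset.card_product]

omit [Fintype Q] in
/-- The run up to the time `t`, if all displacements stay in the gap before `t`. -/
lemma run (hSIM : SIM_Stmt) (M : TH Q) (ℓ N : ℕ) (x : List (Fin 3)) (a : Bool) (q : Q)
    (p d t : ℕ) (hx : x.length = ℓ) (h : M.Stays ℓ x a (q, p))
    (hz : ∀ i < t, (ℓ : ℤ) + 2 ≤ (d : ℤ) + dsp (M.bs x a) (M.bw x a) (q, p) i ∧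
      (d : ℤ) + dsp (M.bs x a) (M.bw x a) (q, p) i ≤ ℓ + 1 + N) :
    (M.step (wrd x N))^[t] (q, two a p d) =
      (((M.bs x a)^[t] (q, p)).1, two a ((M.bs x a)^[t] (q, p)).2
        ((d : ℤ) + dsp (M.bs x a) (M.bw x a) (q, p) t).toNat) :=
  hSIM Q M ℓ x N a (q, p) d t hx (fun i _ => h i) hz

end CCx

open CCx in
theorem t_CC (hLOP : LOP_Stmt) (hSIM : SIM_Stmt) : CC_Stmt := by
  intro Q _ M ℓ N N' x c c' hx hN hN' hNN hRC
  obtain ⟨a, q, p, d, d', hp, rfl, rfl, hd, hd', hdd, hst⟩ := hRC
  obtain ⟨hd1, hd2⟩ := hd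
  obtain ⟨hd1', hd2'⟩ := hd'
  have hrun := fun t => run hSIM M ℓ N x a q p d t hx hst
  have hrun' := fun t => run hSIM M ℓ N' x a q p d' t hx hst
  have hdv : (((KK Q ℓ).factorial : ℕ) : ℤ) ∣ (N' : ℤ) - N := Nat.modEq_iff_dvd.1 hNN
  have hdv2 : (((KK Q ℓ).factorial : ℕ) : ℤ) ∣ (d' : ℤ) - d := Nat.modEq_iff_dvd.1 hdd
  rcases hLOP (Q × ℕ) (M.bs x a) (M.bw x a) (q, p)
    ((Finset.univ : Finset Q) ×ˢ Finset.range (ℓ + 2)) (KK Q ℓ) (orb_card ℓ)
    (orb_mem M ℓ x a (q, p) hst) (abs_bw M x a) with hb | ⟨s, hs, hlow, hfst, heq⟩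
  · -- bounded displacements
    have key : ∀ t, ((M.step (wrd x N))^[t] (q, two a p d)).1 =
        ((M.step (wrd x N'))^[t] (q, two a p d')).1 := by
      intro t
      rw [hrun t (fun i _ => ?_), hrun' t (fun i _ => ?_)]
      · have := abs_le.1 (hb i)
        constructor <;> omega
      · have := abs_le.1 (hb i)
        constructor <;> omega
    by_cases hacc : M.Acc (wrd x N) (q, two a p d)
    · obtain ⟨n, hn⟩ := hacc
      refine Or.inr (Or.inl ⟨n, ?_⟩)
      rw [← key n]
      exact hn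
    · exact Or.inl hacc
  · rcases hs with rfl | rfl
    · -- to the right
      simp only [one_mul] at hlow hfst heq
      obtain ⟨t, ht, hti⟩ := hfst ((ℓ : ℤ) + 2 + N - d) (by omega)
      obtain ⟨t', ht', hti'⟩ := hfst ((ℓ : ℤ) + 2 + N' - d') (by omega)
      have e := hrun t (fun i hi => by
        have h1 := hti i hi
        have h2 := hlow i
        constructor <;> omega)
      have e' := hrun' t' (fun i hi => by
        have h1 := hti' i hi
        have h2 := hlow i
        constructor <;> omega)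
      have hu : (M.bs x a)^[t] (q, p) = (M.bs x a)^[t'] (q, p) := by
        refine heq t t' (by rw [ht]; omega) (by rw [ht']; omega)
          (fun i hi => by rw [ht]; exact hti i hi) (fun i hi => by rw [ht']; exact hti' i hi) ?_
        rw [ht, ht']
        have : ((ℓ : ℤ) + 2 + N - d) - ((ℓ : ℤ) + 2 + N' - d') =
            ((d' : ℤ) - d) - ((N' : ℤ) - N) := by ring
        rw [this]
        exact dvd_sub hdv2 hdv
      have ht1 : 1 ≤ t := by
        rcases Nat.eq_zero_or_pos t with h0 | h0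
        · exfalso
          subst h0
          rw [dsp_zero] at ht
          omega
        · exact h0
      refine Or.inr (Or.inr ⟨t, t', ht1, Or.inr (Or.inl
        ⟨a, ((M.bs x a)^[t] (q, p)).1, ((M.bs x a)^[t] (q, p)).2, ℓ + 2 + N, ℓ + 2 + N',
          hst t, ?_, ?_, Or.inr ⟨0, Nat.zero_le _, rfl, rfl⟩⟩)⟩)
      · rw [e, ht]
        have : ((d : ℤ) + ((ℓ : ℤ) + 2 + N - d)).toNat = ℓ + 2 + N := by omega
        rw [this]
      · rw [e', ht', ← hu]
        have : ((d' : ℤ) + ((ℓ : ℤ) + 2 + N' - d')).toNat = ℓ + 2 + N' := by omega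
        rw [this]
    · -- to the left
      simp only [neg_mul, one_mul] at hlow hfst heq
      obtain ⟨t, ht, hti⟩ := hfst ((d : ℤ) - (ℓ + 1)) (by omega)
      obtain ⟨t', ht', hti'⟩ := hfst ((d' : ℤ) - (ℓ + 1)) (by omega)
      have e := hrun t (fun i hi => by
        have h1 := hti i hi
        have h2 := hlow i
        constructor <;> omega)
      have e' := hrun' t' (fun i hi => by
        have h1 := hti' i hi
        have h2 := hlow i
        constructor <;> omega)
      have hu : (M.bs x a)^[t] (q, p) = (M.bs x a)^[t'] (q, p) := by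
        refine heq t t' (by rw [ht]; omega) (by rw [ht']; omega)
          (fun i hi => by rw [ht]; exact hti i hi) (fun i hi => by rw [ht']; exact hti' i hi) ?_
        rw [ht, ht']
        have : ((d : ℤ) - (ℓ + 1)) - ((d' : ℤ) - (ℓ + 1)) = -((d' : ℤ) - d) := by ring
        rw [this]
        exact (dvd_neg).2 hdv2
      have ht1 : 1 ≤ t := by
        rcases Nat.eq_zero_or_pos t with h0 | h0
        · exfalso
          subst h0
          rw [dsp_zero] at ht
          omega
        · exact h0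
      refine Or.inr (Or.inr ⟨t, t', ht1, Or.inr (Or.inl
        ⟨a, ((M.bs x a)^[t] (q, p)).1, ((M.bs x a)^[t] (q, p)).2, ℓ + 1, ℓ + 1,
          hst t, ?_, ?_, Or.inl ⟨rfl, by omega⟩⟩)⟩)
      · rw [e]
        have : ((d : ℤ) + dsp (M.bs x a) (M.bw x a) (q, p) t).toNat = ℓ + 1 := by omega
        rw [this]
      · rw [e', ← hu]
        have : ((d' : ℤ) + dsp (M.bs x a) (M.bw x a) (q, p) t').toNat = ℓ + 1 := by omega
        rw [this]

end Pool.Agent.THX
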