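import Pool.Agent.THX.Stmts

/-!
Project THX (problem MP_5e85fc_lc), module DGT: numbers whose ternary notation has exactly the
prescribed binary words between two consecutive digits `2`.
-/

set_option autoImplicit false

namespace Pool.Agent.THX

namespace DGTx

/-- The word `x $ 0^N` determines `x` and `N` if `x` has no letter `2`. -/
lemma wrd_inj {x y : List (Fin 3)} {N M : ℕ} (hx : ∀ a ∈ x, a ≠ 2) (hy : ∀ a ∈ y, a ≠ 2)
    (h : wrd x N = wrd y M) : x = y ∧ N = M := by
  induction x generalizing y with
  | nil =>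
    cases y with
    | nil =>
      refine ⟨rfl, ?_⟩
      have := congrArg List.length h
      simpa [wrd] using this
    | cons b y =>
      simp only [wrd, List.nil_append, List.cons_append, List.cons.injEq] at h
      exact absurd h.1.symm (hy b (by simp))
  | cons a x ih =>
    cases y with
    | nil =>
      simp only [wrd, List.nil_append, List.cons_append, List.cons.injEq] at h
      exact absurd h.1 (hx a (by simp))
    | cons b y =>
      simp only [wrd, List.cons_append, List.cons.injEq] at h
      obtain ⟨h1, h2⟩ := ih (fun c hc => hx c (by simp [hc])) (y := y)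
        (fun c hc => hy c (by simp [hc])) h.2
      exact ⟨by rw [h.1, h1], h2⟩

lemma jn_length {ℓ : ℕ} (ws : List (List ℕ)) (h : ∀ y ∈ ws, y.length = ℓ) :
    (jn ws).length = 1 + (ℓ + 1) * ws.length := by
  induction ws with
  | nil => simp [jn]
  | cons y ws ih =>
    have h1 := ih (fun z hz => h z (by simp [hz]))
    have h2 := h y (by simp)
    simp only [jn, List.length_cons, List.length_append, h1, h2]
    ring

lemma jn_lt (ws : List (List ℕ)) (h : ∀ y ∈ ws, ∀ d ∈ y, d < 3) : ∀ d ∈ jn ws, d < 3 := by
  induction ws with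
  | nil => simp [jn]
  | cons y ws ih =>
    intro d hd
    simp only [jn, List.mem_cons, List.mem_append] at hd
    rcases hd with rfl | hd | hd
    · norm_num
    · exact h y (by simp) d hd
    · exact ih (fun z hz => h z (by simp [hz])) d hd

/-- The word as a list of natural numbers. -/
def nw {ℓ : ℕ} (f : Fin ℓ → Bool) : List ℕ := (wd f).map Fin.val

lemma nw_inj {ℓ : ℕ} {f g : Fin ℓ → Bool} (h : nw f = nw g) : f = g :=
  wd_inj ((List.map_injective_iff.mpr Fin.val_injective) h)

lemma nw_length {ℓ : ℕ} (f : Fin ℓ → Bool) : (nw f).length = ℓ := by simp [nw, wd_length]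

lemma nw_lt {ℓ : ℕ} (f : Fin ℓ → Bool) : ∀ d ∈ nw f, d < 3 := by
  intro d hd
  simp only [nw, List.mem_map] at hd
  obtain ⟨a, _, rfl⟩ := hd
  exact a.2

lemma nw_two {ℓ : ℕ} (f : Fin ℓ → Bool) : 2 ∉ nw f := by
  intro hd
  simp only [nw, List.mem_map] at hd
  obtain ⟨a, ha, h2⟩ := hd
  exact wd_ne f a ha (Fin.ext h2)

end DGTx

open DGTx in
/-- DGT. -/
theorem t_DGT (hINF : INF_Stmt) : DGT_Stmt := by
  intro ℓ P S
  obtain ⟨ws, hws⟩ : ∃ ws : List (List ℕ), ws = S.toList.map nw := ⟨_, rfl⟩
  have hmem : ∀ y ∈ ws, ∃ f ∈ S, nw f = y := by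
    intro y hy
    rw [hws, List.mem_map] at hy
    obtain ⟨f, hf, h⟩ := hy
    exact ⟨f, Finset.mem_toList.mp hf, h⟩
  have hws_len : ws.length = S.card := by rw [hws]; simp
  obtain ⟨l, hl⟩ : ∃ l : List ℕ, l = 1 :: (List.replicate P 0 ++ jn ws) := ⟨_, rfl⟩
  have hjl : (jn ws).length = 1 + (ℓ + 1) * ws.length := by
    apply jn_length
    intro y hy
    obtain ⟨f, _, rfl⟩ := hmem y hy
    exact nw_length f
  have hlen : l.length = 2 + P + (ℓ + 1) * S.card := by
    rw [hl, ← hws_len, List.length_cons, List.length_append, List.length_replicate, hjl]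
    ring
  have hlt : ∀ d ∈ l, d < 3 := by
    intro d hd
    rw [hl, List.mem_cons, List.mem_append] at hd
    rcases hd with rfl | hd | hd
    · norm_num
    · rw [List.eq_of_mem_replicate hd]
      norm_num
    · refine jn_lt ws ?_ d hd
      intro y hy
      obtain ⟨f, _, rfl⟩ := hmem y hy
      exact nw_lt f
  have hrlt : ∀ d ∈ l.reverse, d < 3 := fun d hd => hlt d (List.mem_reverse.mp hd)
  obtain ⟨N, hN⟩ : ∃ N : ℕ, N = Nat.ofDigits 3 l.reverse := ⟨_, rfl⟩
  have hdig : Nat.digits 3 N = l.reverse := by
    rw [hN]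
    refine Nat.digits_ofDigits 3 (by norm_num) _ hrlt ?_
    intro h
    rw [List.getLast_reverse]
    simp [hl]
  have hdl : (Nat.digits 3 N).length = 2 + P + (ℓ + 1) * S.card := by
    rw [hdig, List.length_reverse, hlen]
  refine ⟨N, ?_, ?_, ?_⟩
  · by_contra hc
    have h1 : N < 3 ^ P := lt_of_lt_of_le (not_le.mp hc) (Nat.lt_pow_self (by norm_num)).le
    have h2 := (Nat.digits_length_le_iff (b := 3) (by norm_num) N).mpr h1
    rw [hdl] at h2
    omega
  · rw [← hdl]
    exact Nat.lt_base_pow_length_digits (by norm_num)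
  · intro f
    have hx : 2 ∉ nw f := nw_two f
    have key : (2 :: (nw f ++ [2])) <:+: l ↔ nw f ∈ ws := by
      rw [hl]
      refine hINF (1 :: List.replicate P 0) (nw f) ws ?_ hx ?_
      · intro h
        rw [List.mem_cons] at h
        rcases h with h | h
        · norm_num at h
        · have := List.eq_of_mem_replicate h
          norm_num at this
      · intro y hy
        obtain ⟨g, _, rfl⟩ := hmem y hy
        exact nw_two g
    have key2 : nw f ∈ ws ↔ f ∈ S := by
      constructor
      · intro h
        obtain ⟨g, hg, h2⟩ := hmem _ h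
        rwa [← nw_inj h2]
      · intro h
        rw [hws]
        exact List.mem_map.mpr ⟨f, Finset.mem_toList.mpr h, rfl⟩
    rw [← key2, ← key]
    constructor
    · rintro ⟨x', N', hx', h1, h2⟩
      obtain ⟨h3, h4⟩ := wrd_inj (wd_ne f) hx' h1
      subst h3
      subst h4
      rw [hdig, List.reverse_reverse] at h2
      exact h2
    · intro h
      refine ⟨wd f, N, wd_ne f, rfl, ?_⟩
      rw [hdig, List.reverse_reverse]
      exact h

end Pool.Agent.THX
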