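import Pool.Agent.THX.Stmts

/-!
Project THX (problem MP_5e85fc_lc), module EQV: the same type implies the same acceptance.
-/

set_option autoImplicit false

namespace Pool.Agent.THX

open Pool.Agent.Heads

namespace EQVx

variable {Q : Type} [Fintype Q]

/-- Related configurations have the same state. -/
lemma rl_state {M : TH Q} {ℓ : ℕ} {x : List (Fin 3)} {N N' : ℕ} {c c' : Cf Q}
    (h : M.Rl ℓ x N N' c c') : c.1 = c'.1 := by
  rcases h with h | h | h
  · obtain ⟨k, rfl, rfl, -, -⟩ := h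
    rfl
  · obtain ⟨a, q, p, d, d', -, rfl, rfl, -⟩ := h
    rfl
  · obtain ⟨a, q, p, d, d', -, rfl, rfl, -⟩ := h
    rfl

/-- The induction. -/
lemma main {M : TH Q} {ℓ : ℕ} {x : List (Fin 3)} {N N' : ℕ}
    (hP : ∀ c c', M.Rl ℓ x N N' c c' → M.Pr ℓ x N N' c c') :
    ∀ (n : ℕ) (c c' : Cf Q), M.Rl ℓ x N N' c c' → ((M.step (wrd x N))^[n] c).1 ∈ M.acc →
      M.Acc (wrd x N') c' := by
  intro n
  induction n using Nat.strong_induction_on with
  | _ n ih =>
    intro c c' hR hn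
    rcases hP c c' hR with h | h | h
    · exact absurd ⟨n, hn⟩ h
    · exact h
    · obtain ⟨m, m', hm, hg⟩ := h
      rw [← acc_iter M (wrd x N') c' m']
      by_cases hmn : m ≤ n
      · refine ih (n - m) (by omega) _ _ hg ?_
        rw [← Function.iterate_add_apply]
        have e : n - m + m = n := by omega
        rw [e]
        exact hn
      · have e : (M.step (wrd x N))^[m] c = (M.step (wrd x N))^[n] c :=
          acc_mono M (wrd x N) c n m (by omega) hn
        refine ⟨0, ?_⟩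
        have h1 := rl_state hg
        rw [Function.iterate_zero_apply, ← h1, e]
        exact hn

/-- One direction. -/
lemma dir (hCA : CA_Stmt) (hCB : CB_Stmt) (hCC : CC_Stmt) (M : TH Q) (ℓ N N' : ℕ)
    (x : List (Fin 3)) (hx : x.length = ℓ) (hN : 8 * KK Q ℓ + 8 ≤ N) (hN' : 8 * KK Q ℓ + 8 ≤ N')
    (hty : M.ty ℓ (M.ex ℓ x) N = M.ty ℓ (M.ex ℓ x) N')
    (h : M.Acc (wrd x N) (M.start, fun _ => 0)) :
    M.Acc (wrd x N') (M.start, fun _ => 0) := by
  have hmod : N ≡ N' [MOD (KK Q ℓ).factorial] := by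
    have h1 := congrArg (fun z => (z.1 : ℕ)) hty
    exact h1
  have hP : ∀ c c', M.Rl ℓ x N N' c c' → M.Pr ℓ x N N' c c' := by
    intro c c' hR
    rcases hR with h1 | h1 | h1
    · exact hCA Q M ℓ N N' x (M.ex ℓ x) c c' hx rfl hN hN' hty h1
    · exact hCB Q M ℓ N N' x c c' hx hN hN' hmod h1
    · exact hCC Q M ℓ N N' x c c' hx hN hN' hmod h1
  obtain ⟨n, hn⟩ := h
  have e : (fun _ : Bool => 0) = two true 0 0 := by
    funext b
    simp [two]
  refine main hP n (M.start, fun _ => 0) (M.start, fun _ => 0) (Or.inr (Or.inl ?_)) hn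
  refine ⟨true, M.start, 0, 0, 0, by omega, by rw [e], by rw [e], Or.inl ⟨rfl, by omega⟩⟩

end EQVx

theorem t_EQV (hCA : CA_Stmt) (hCB : CB_Stmt) (hCC : CC_Stmt) : EQV_Stmt := by
  intro Q _ M ℓ N N' x hx hN hN' hty
  exact ⟨EQVx.dir hCA hCB hCC M ℓ N N' x hx hN hN' hty,
    EQVx.dir hCA hCB hCC M ℓ N' N x hx hN' hN hty.symm⟩

end Pool.Agent.THX
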