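import Pool.Agent.THX.Stmts

/-!
Project THX (problem MP_5e85fc_lc), module EXF: the values of the table `M.ex`.
-/

set_option autoImplicit false

namespace Pool.Agent.THX

open Pool.Agent.Heads

theorem t_EXF (hEXT : EXT_Stmt) : EXF_Stmt := by
  classical
  intro Q _ M ℓ x a q
  by_cases hS : M.Stays ℓ x a (q, ℓ + 1)
  · left
    refine ⟨hS, ?_⟩
    have hno : ¬ ∃ t, ((M.bs x a)^[t] (q, ℓ + 1)).2 = ℓ + 2 := by
      rintro ⟨t, ht⟩
      have := hS t
      omega
    unfold TH.ex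
    rw [dif_neg hno]
  · right
    obtain ⟨t, ht1, htK, hlt, hex⟩ := hEXT Q M ℓ x a (q, ℓ + 1) (le_refl _) hS
    have hH : ∃ t, ((M.bs x a)^[t] (q, ℓ + 1)).2 = ℓ + 2 := ⟨t, hex⟩
    have hfind : Nat.find hH = t := by
      rw [Nat.find_eq_iff]
      refine ⟨hex, ?_⟩
      intro n hn h2
      have := hlt n hn
      omega
    have hab := abs_bz_le M x a (q, ℓ + 1) t
    rw [abs_le] at hab
    have hK : (t : ℤ) ≤ KK Q ℓ := by exact_mod_cast htK
    have hnn : 0 ≤ dsp (M.bs x a) (M.bw x a) (q, ℓ + 1) t + KK Q ℓ := by linarith [hab.1]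
    have hlt' : (dsp (M.bs x a) (M.bw x a) (q, ℓ + 1) t + KK Q ℓ).toNat < 2 * KK Q ℓ + 1 := by
      have h3 := hab.2
      omega
    refine ⟨t, ⟨(dsp (M.bs x a) (M.bw x a) (q, ℓ + 1) t + KK Q ℓ).toNat, hlt'⟩, ht1, htK, hlt, hex,
      ?_, ?_⟩
    · unfold TH.ex
      rw [dif_pos hH]
      congr 2
      · rw [hfind]
      · apply Fin.ext
        simp only [hfind]
        exact Nat.mod_eq_of_lt hlt'
    · simp only
      exact Int.toNat_of_nonneg hnn

end Pool.Agent.THX
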