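import Pool.Agent.THX.Stmts

/-!
Project THX (problem MP_5e85fc_lc), module EXT: exit after at most `K` steps.
-/

set_option autoImplicit false

namespace Pool.Agent.THX

open Pool.Agent.Heads

namespace EXTx

/-- The position changes by at most one in a blind step. -/
lemma bs_le {Q : Type} (M : TH Q) (x : List (Fin 3)) (a : Bool) (u : Q × ℕ) :
    (M.bs x a u).2 ≤ u.2 + 1 := by
  have h := (dz_bounds ((M.bd x a u).2 a)).2
  simp only [TH.bs]
  omega

end EXTx

theorem t_EXT (hPIG : PIG_Stmt) : EXT_Stmt := by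
  intro Q _ M ℓ x a u hu hS
  classical
  have hex : ∃ t, ℓ + 1 < ((M.bs x a)^[t] u).2 := by
    by_contra hcon
    push Not at hcon
    exact hS hcon
  have hspec := Nat.find_spec hex
  have hmin : ∀ i < Nat.find hex, ((M.bs x a)^[i] u).2 ≤ ℓ + 1 := fun i hi => by
    have h := Nat.find_min hex hi
    omega
  have hpos : 1 ≤ Nat.find hex := by
    rcases Nat.eq_zero_or_pos (Nat.find hex) with h0 | h0
    · rw [h0] at hspec
      simp only [Function.iterate_zero, id_eq] at hspec
      omega
    · exact h0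
  obtain ⟨s, hs⟩ := Nat.exists_eq_add_of_le' hpos
  have hlast : ((M.bs x a)^[s] u).2 ≤ ℓ + 1 := hmin s (by omega)
  have hstep : ((M.bs x a)^[Nat.find hex] u).2 ≤ ((M.bs x a)^[s] u).2 + 1 := by
    rw [hs, Function.iterate_succ_apply']
    exact EXTx.bs_le M x a _
  refine ⟨Nat.find hex, hpos, ?_, hmin, by omega⟩
  by_contra hK
  push Not at hK
  have hcard : ((Finset.univ : Finset Q) ×ˢ Finset.range (ℓ + 2)).card ≤ KK Q ℓ := by
    rw [Finset.card_product, Finset.card_univ, Finset.card_range]
    exact le_rfl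
  have hall := (hPIG (Q × ℕ) (M.bs x a) u ((Finset.univ : Finset Q) ×ˢ Finset.range (ℓ + 2))
    (KK Q ℓ) hcard (fun i hi => by
      rw [Finset.mem_product, Finset.mem_range]
      exact ⟨Finset.mem_univ _, by have := hmin i (by omega); omega⟩)).1 (Nat.find hex)
  rw [Finset.mem_product, Finset.mem_range] at hall
  omega

end Pool.Agent.THX
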