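import Pool.Agent.THX.Stmts

/-!
# Finite automata as total step functions (MP_5e85fc_lc, THX): module FAC
-/

set_option autoImplicit false

namespace Pool.Agent.THX

open Pool.Agent.Heads

noncomputable section

namespace FACx

/-- The configuration as a configuration of the total automaton. -/
def enc {Q : Type} (c : Q × (Fin 2 → ℕ)) : Cf Q := (c.1, fun b => c.2 (if b then 1 else 0))

open Classical in
/-- The total transition function. -/
def tδ (M : SA) (q : M.Q) (s : Bool → Sym (Fin 3)) (b : Bool) : M.Q × (Bool → Dir) :=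
  if q ∈ M.accept then (q, fun _ => Dir.S)
  else match M.δ q (fun i => s (decide (i = 1))) b with
    | none => (q, fun _ => Dir.S)
    | some t => (t.1, fun b => t.2 (if b then 1 else 0))

/-- The total automaton. -/
def tot (M : SA) : TH M.Q where
  start := M.start
  acc := M.accept
  δ := tδ M
  abs := by
    intro q hq s b
    unfold tδ
    rw [if_pos hq]

theorem move_S (N p : ℕ) : move N p Dir.S = p := rfl

theorem syms (M : SA) (w : List (Fin 3)) (c : M.Q × (Fin 2 → ℕ)) :
    (fun i : Fin 2 => (fun b => tape w ((enc c).2 b)) (decide (i = 1))) =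
      fun i => tape w (c.2 i) := by
  funext i
  fin_cases i <;> rfl

theorem stay_acc (M : SA) (w : List (Fin 3)) (c : M.Q × (Fin 2 → ℕ)) (h : c.1 ∈ M.accept) :
    (tot M).step w (enc c) = enc c := step_acc (tot M) w (enc c) h

theorem stay_none (M : SA) (w : List (Fin 3)) (c : M.Q × (Fin 2 → ℕ)) (h : c.1 ∉ M.accept)
    (hn : M.δ c.1 (fun i => tape w (c.2 i)) (decide (c.2 0 = c.2 1)) = none) :
    (tot M).step w (enc c) = enc c := by
  have h1 : (tot M).rd w (enc c) = (c.1, fun _ => Dir.S) := by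
    change tδ M c.1 (fun b => tape w ((enc c).2 b)) (decide (c.2 0 = c.2 1)) = _
    unfold tδ
    rw [if_neg h, syms M w c, hn]
  unfold TH.step
  rw [h1]
  rfl

theorem step_some (M : SA) (w : List (Fin 3)) (c : M.Q × (Fin 2 → ℕ)) (h : c.1 ∉ M.accept)
    (t : M.Q × (Fin 2 → Dir))
    (hn : M.δ c.1 (fun i => tape w (c.2 i)) (decide (c.2 0 = c.2 1)) = some t) :
    (tot M).step w (enc c) = enc (t.1, fun i => move (w.length + 1) (c.2 i) (t.2 i)) := by
  have h1 : (tot M).rd w (enc c) = (t.1, fun b => t.2 (if b then 1 else 0)) := by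
    change tδ M c.1 (fun b => tape w ((enc c).2 b)) (decide (c.2 0 = c.2 1)) = _
    unfold tδ
    rw [if_neg h, syms M w c, hn]
  unfold TH.step
  rw [h1]
  rfl

theorem acc_of (M : SA) (w : List (Fin 3)) (c c' : M.Q × (Fin 2 → ℕ))
    (h : Relation.ReflTransGen (M.Step w) c c') (h' : c'.1 ∈ M.accept) :
    (tot M).Acc w (enc c) := by
  induction h using Relation.ReflTransGen.head_induction_on with
  | refl => exact ⟨0, h'⟩
  | head hs hr ih =>
    rename_i a b
    by_cases ha : a.1 ∈ M.accept
    · exact ⟨0, ha⟩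
    · obtain ⟨t, ht, hb⟩ := hs
      obtain ⟨n, hn⟩ := ih
      refine ⟨n + 1, ?_⟩
      rw [Function.iterate_succ_apply, step_some M w a ha t ht, ← hb]
      exact hn

theorem reach_of (M : SA) (w : List (Fin 3)) (c : M.Q × (Fin 2 → ℕ)) (n : ℕ) :
    ∃ c', Relation.ReflTransGen (M.Step w) c c' ∧ ((tot M).step w)^[n] (enc c) = enc c' := by
  induction n with
  | zero => exact ⟨c, Relation.ReflTransGen.refl, rfl⟩
  | succ n ih =>
    obtain ⟨d, hd, he⟩ := ih
    rw [Function.iterate_succ_apply', he]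
    by_cases ha : d.1 ∈ M.accept
    · exact ⟨d, hd, stay_acc M w d ha⟩
    · cases hn : M.δ d.1 (fun i => tape w (d.2 i)) (decide (d.2 0 = d.2 1)) with
      | none => exact ⟨d, hd, stay_none M w d ha hn⟩
      | some t => exact ⟨_, hd.tail ⟨t, hn, rfl⟩, step_some M w d ha t hn⟩

end FACx

open FACx in
theorem t_FAC : FAC_Stmt := by
  intro M
  have := M.finQ
  refine ⟨Fintype.ofFinite M.Q, tot M, fun w => ⟨?_, ?_⟩⟩
  · rintro ⟨c, hc, ha⟩
    exact acc_of M w _ c hc ha
  · rintro ⟨n, hn⟩
    obtain ⟨c, hc, he⟩ := reach_of M w (M.start, fun _ => 0) n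
    refine ⟨c, hc, ?_⟩
    have h1 : ((tot M).step w)^[n] ((tot M).start, fun _ => 0) = enc c := he
    rw [h1] at hn
    exact hn

end

end Pool.Agent.THX
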