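import Pool.Agent.THX.Stmts

/-!
Project THX, module INF: the factors `2 x 2` of a joined list.
-/

set_option autoImplicit false

namespace Pool.Agent.THX

namespace INFx

lemma skip (s : List ℕ) (u v : List ℕ) (hu : 2 ∉ u) :
    (2 :: s) <:+: (u ++ v) ↔ (2 :: s) <:+: v := by
  induction u with
  | nil => rfl
  | cons a u ih =>
    have h1 : (2 : ℕ) ≠ a := fun h => hu (by rw [h]; exact List.mem_cons_self)
    have h2 : 2 ∉ u := fun h => hu (List.mem_cons_of_mem _ h)
    rw [List.cons_append, List.infix_cons_iff, ih h2, List.cons_prefix_cons]
    constructor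
    · rintro (h | h)
      · exact absurd h.1 h1
      · exact h
    · exact Or.inr

lemma pre_iff (x : List ℕ) (hx : 2 ∉ x) : ∀ (y r : List ℕ), 2 ∉ y →
    ((x ++ [2]) <+: (y ++ 2 :: r) ↔ x = y) := by
  induction x with
  | nil =>
    intro y r hy
    cases y with
    | nil => simp
    | cons b y =>
      have h1 : (2 : ℕ) ≠ b := fun h => hy (by rw [h]; exact List.mem_cons_self)
      rw [List.nil_append, List.cons_append, List.cons_prefix_cons]
      constructor
      · intro h
        exact absurd h.1 h1
      · intro h
        cases h
  | cons a x ih =>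
    intro y r hy
    have h1 : a ≠ 2 := fun h => hx (by rw [h]; exact List.mem_cons_self)
    have h2 : 2 ∉ x := fun h => hx (List.mem_cons_of_mem _ h)
    cases y with
    | nil =>
      rw [List.nil_append, List.cons_append, List.cons_prefix_cons]
      constructor
      · intro h
        exact absurd h.1 h1
      · intro h
        cases h
    | cons b y =>
      have h3 : 2 ∉ y := fun h => hy (List.mem_cons_of_mem _ h)
      rw [List.cons_append, List.cons_append, List.cons_prefix_cons, ih h2 y r h3, List.cons.injEq]

lemma jn_form (ws : List (List ℕ)) : ∃ r, jn ws = 2 :: r := by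
  cases ws with
  | nil => exact ⟨[], rfl⟩
  | cons y ws => exact ⟨y ++ jn ws, rfl⟩

end INFx

open INFx in
/-- **INF** -/
theorem t_INF : INF_Stmt := by
  intro pre x ws hpre hx hws
  rw [skip _ _ _ hpre]
  induction ws with
  | nil =>
    constructor
    · intro h
      have := h.length_le
      simp [jn] at this
    · intro h
      cases h
  | cons y ws ih =>
    have hy : 2 ∉ y := hws y List.mem_cons_self
    have ih' := ih fun z hz => hws z (List.mem_cons_of_mem _ hz)
    obtain ⟨r, hr⟩ := jn_form ws
    have e : jn (y :: ws) = 2 :: (y ++ jn ws) := rfl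
    rw [e, List.infix_cons_iff, skip _ _ _ hy, ih', List.cons_prefix_cons, hr,
      pre_iff x hx y r hy, List.mem_cons]
    simp

end Pool.Agent.THX
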