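import Pool.Agent.THX.Stmts

/-!
Project THX (problem MP_5e85fc_lc), module JMP: one step of the jump machine.
-/

set_option autoImplicit false

namespace Pool.Agent.THX

open Pool.Agent.Heads

theorem t_JMP (hSIM : SIM_Stmt) (hEXF : EXF_Stmt) : JMP_Stmt := by
  intro Q _ M ℓ N x F c hx hF hc hS
  by_cases h1 : ∀ b, ℓ + 2 ≤ c.2 b
  · have e : M.J ℓ N F c = M.step (wrd x N) c := by
      unfold TH.J
      rw [if_pos h1]
      have ht : ∀ b, tape (wrd (List.replicate ℓ 0) N) (c.2 b) = tape (wrd x N) (c.2 b) := by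
        intro b
        have h2 := h1 b
        have h3 : (List.replicate ℓ (0 : Fin 3)).length = ℓ := List.length_replicate
        rcases Nat.lt_or_ge (ℓ + 1 + N) (c.2 b) with h4 | h4
        · rw [tape_end _ _ _ (by omega), tape_end _ _ _ (by omega)]
        · rw [tape_gap _ _ _ (by omega) (by omega), tape_gap _ _ _ (by omega) (by omega)]
      have hl : (wrd (List.replicate ℓ 0) N).length = (wrd x N).length := by
        rw [wrd_length, wrd_length, List.length_replicate, hx]
      simp only [TH.step, TH.rd, ht, hl]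
    rw [e]
    refine ⟨⟨1, le_rfl, rfl⟩, fun b => ?_⟩
    have h2 := h1 b
    have h3 := (hc b).2
    have h4 : (wrd x N).length + 1 = ℓ + 2 + N := by rw [wrd_length]; omega
    have h5 := le_move_succ ((wrd x N).length + 1) (c.2 b) ((M.rd (wrd x N) c).2 b) (by omega)
    have h6 := move_le ((wrd x N).length + 1) (c.2 b) ((M.rd (wrd x N) c).2 b) (by omega)
    show ℓ + 1 ≤ move ((wrd x N).length + 1) (c.2 b) ((M.rd (wrd x N) c).2 b) ∧
      move ((wrd x N).length + 1) (c.2 b) ((M.rd (wrd x N) c).2 b) ≤ ℓ + 2 + N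
    omega
  · have h2 : Jp ℓ N F c := by
      by_contra h2
      exact hS ⟨h1, h2⟩
    have e : M.J ℓ N F c = (h2.choose_spec.choose.1,
        two h2.choose (ℓ + 2) (c.2 (!h2.choose) + (h2.choose_spec.choose.2 : ℕ) - KK Q ℓ)) := by
      unfold TH.J
      rw [if_neg h1, dif_pos h2]
    obtain ⟨g1, g2, g3⟩ := h2.choose_spec.choose_spec
    revert e g1 g2 g3
    generalize h2.choose_spec.choose = r
    generalize h2.choose = a
    intro e g1 g2 g3
    obtain ⟨q, f⟩ := c
    simp only at e g1 g2 g3
    rw [e]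
    rw [← hF] at g3
    obtain ⟨g4, g5⟩ := g2
    rcases hEXF Q M ℓ x a q with ⟨_, h4⟩ | ⟨t, i, k1, k2, k3, k4, k5, k6⟩
    · rw [h4] at g3
      cases g3
    · rw [k5] at g3
      have hr : (((M.bs x a)^[t] (q, ℓ + 1)).1, i) = r := Option.some.inj g3
      have hz : ∀ j ≤ t, |dsp (M.bs x a) (M.bw x a) (q, ℓ + 1) j| ≤ KK Q ℓ := by
        intro j hj
        refine (abs_bz_le M x a (q, ℓ + 1) j).trans ?_
        exact_mod_cast hj.trans k2
      have hs := hSIM Q M ℓ x N a (q, ℓ + 1) (f (!a)) t hx k3 (by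
        intro j hj
        have h5 := abs_le.1 (hz j hj.le)
        omega)
      have hf : f = two a (ℓ + 1) (f (!a)) := by
        conv_lhs => rw [eq_two f a, g1]
      have h6 := abs_le.1 (hz t le_rfl)
      rw [← hr]
      have h7 : ((f (!a) : ℤ) + dsp (M.bs x a) (M.bw x a) (q, ℓ + 1) t).toNat =
          f (!a) + (i : ℕ) - KK Q ℓ := by omega
      refine ⟨⟨t, k1, ?_⟩, fun b => ?_⟩
      · rw [k4, h7] at hs
        rw [← hs]
        show _ = (M.step (wrd x N))^[t] (q, f)
        rw [← hf]
      · have h8 : ∀ b', b' = a ∨ b' = !a := by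
          intro b'
          cases b' <;> cases a <;> simp
        rcases h8 b with rfl | rfl
        · simp only [two_same]
          omega
        · simp only [two_not]
          omega

end Pool.Agent.THX
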