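import Pool.Agent.THX.Stmts

/-!
Project THX (problem MP_5e85fc_lc): one step in parallel on `x $ 0^N` and `x $ 0^N'`.
-/

set_option autoImplicit false

namespace Pool.Agent.THX

open Pool.Agent.Heads

namespace LCKx

variable {Q : Type} [Fintype Q]

lemma two_eq_iff (a : Bool) (p d : ℕ) : two a p d false = two a p d true ↔ p = d := by
  cases a <;> simp [two]
  exact eq_comm

lemma tape_same (ℓ N N' : ℕ) (x : List (Fin 3)) (d d' : ℕ) (hx : x.length = ℓ)
    (hN : 8 * KK Q ℓ + 8 ≤ N) (hN' : 8 * KK Q ℓ + 8 ≤ N') (h : Sm Q ℓ N N' d d') :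
    tape (wrd x N) d = tape (wrd x N') d' := by
  subst hx
  rcases h with ⟨rfl, h⟩ | ⟨j, hj, rfl, rfl⟩
  · by_cases h1 : d ≤ x.length + 1
    · rw [tape_low x N d h1, tape_low x N' d h1]
    · rw [tape_gap x N d (by omega) (by omega), tape_gap x N' d (by omega) (by omega)]
  · rcases Nat.eq_zero_or_pos j with rfl | h1
    · rw [tape_end x N _ (by omega), tape_end x N' _ (by omega)]
    · rw [tape_gap x N _ (by omega) (by omega), tape_gap x N' _ (by omega) (by omega)]

lemma rd_same (M : TH Q) (ℓ N N' : ℕ) (x : List (Fin 3)) (a : Bool) (q : Q) (p d d' : ℕ)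
    (hx : x.length = ℓ) (hN : 8 * KK Q ℓ + 8 ≤ N) (hN' : 8 * KK Q ℓ + 8 ≤ N') (hp : p ≤ ℓ + 1)
    (h : Sm Q ℓ N N' d d') :
    M.rd (wrd x N) (q, two a p d) = M.rd (wrd x N') (q, two a p d') := by
  have h1 : (fun b => tape (wrd x N) (two a p d b)) = fun b => tape (wrd x N') (two a p d' b) := by
    funext b
    by_cases hb : b = a
    · subst hb
      rw [two_same, two_same, tape_low x N p (by omega), tape_low x N' p (by omega)]
    · have : b = !a := by cases a <;> cases b <;> simp_all
      subst this
      rw [two_not, two_not]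
      exact tape_same (Q := Q) ℓ N N' x d d' hx hN hN' h
  have h2 : (two a p d false = two a p d true) ↔ (two a p d' false = two a p d' true) := by
    rw [two_eq_iff, two_eq_iff]
    rcases h with ⟨rfl, h⟩ | ⟨j, hj, rfl, rfl⟩
    · rfl
    · omega
  unfold TH.rd
  simp only
  rw [h1, decide_eq_decide.2 h2]

end LCKx

open LCKx in
/-- Module LCK. -/
theorem t_LCK : LCK_Stmt := by
  intro Q _ M ℓ N N' x a q p d d' hx hN hN' hp h
  have hr := rd_same M ℓ N N' x a q p d d' hx hN hN' hp h
  have hL : (wrd x N).length + 1 = ℓ + 2 + N := by rw [wrd_length, hx]; omega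
  have hL' : (wrd x N').length + 1 = ℓ + 2 + N' := by rw [wrd_length, hx]; omega
  set r := M.rd (wrd x N) (q, two a p d) with hrd
  refine ⟨r.1, move (ℓ + 2 + N) p (r.2 a), move (ℓ + 2 + N) d (r.2 !a),
    move (ℓ + 2 + N') d' (r.2 !a), ?_, ?_, ?_, ?_⟩
  · have := move_le_succ (ℓ + 2 + N) p (r.2 a)
    omega
  · rcases h with ⟨rfl, h⟩ | ⟨j, hj, rfl, rfl⟩
    · left
      rw [move_eq _ _ _ (by omega), move_eq _ _ _ (by omega)]
      refine ⟨rfl, ?_⟩
      have := dz_bounds (r.2 !a)
      omega
    · right
      cases r.2 !a with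
      | L => exact ⟨j + 1, by omega, by simp only [move]; omega, by simp only [move]; omega⟩
      | S => exact ⟨j, by omega, by simp only [move], by simp only [move]⟩
      | R => exact ⟨j - 1, by omega, by simp only [move]; omega, by simp only [move]; omega⟩
  · unfold TH.step
    rw [← hrd, hL]
    refine Prod.ext rfl ?_
    funext b
    by_cases hb : b = a
    · subst hb
      simp only [two_same]
    · have : b = !a := by cases a <;> cases b <;> simp_all
      subst this
      simp only [two_not]
  · unfold TH.step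
    rw [← hr, hL']
    refine Prod.ext rfl ?_
    funext b
    by_cases hb : b = a
    · subst hb
      simp only [two_same]
      rw [move_eq _ _ _ (by omega), move_eq _ _ _ (by omega)]
    · have : b = !a := by cases a <;> cases b <;> simp_all
      subst this
      simp only [two_not]

end Pool.Agent.THX
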