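import Pool.Agent.THX.Stmts

/-!
Project THX (problem MP_5e85fc_lc), module LOP: first hitting times of a drifting periodic walk.
-/

set_option autoImplicit false

namespace Pool.Agent.THX

namespace LOPx

section

variable {U : Type} (g : ℕ → ℤ) (p : ℕ → U) (K μ τ : ℕ) (v : ℤ)

/-- A drifting walk is bounded from below. -/
lemma lower (hτ : 1 ≤ τ) (hK : μ + τ ≤ K) (hb : ∀ t, |g t| ≤ t)
    (hg : ∀ t, μ ≤ t → g (t + τ) = g t + v) (hv : 0 ≤ v) (t : ℕ) : -(K : ℤ) ≤ g t := by
  induction t using Nat.strong_induction_on with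
  | _ t ih =>
    rcases Nat.lt_or_ge K t with h | h
    · have h1 := hg (t - τ) (by omega)
      rw [Nat.sub_add_cancel (by omega)] at h1
      have h2 := ih (t - τ) (by omega)
      omega
    · have h1 := abs_le.1 (hb t)
      have h2 : (t : ℤ) ≤ K := by exact_mod_cast h
      omega

/-- Values along the period. -/
lemma period (hg : ∀ t, μ ≤ t → g (t + τ) = g t + v) (j : ℕ) : g (μ + j * τ) = g μ + j * v := by
  induction j with
  | zero => simp
  | succ j ih =>
    have h1 := hg (μ + j * τ) (Nat.le_add_right _ _)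
    have h2 : μ + (j + 1) * τ = μ + j * τ + τ := by ring
    rw [h2, h1, ih]
    push_cast
    ring

/-- First hitting times. -/
lemma hit (h0 : g 0 = 0) (hs : ∀ t, |g (t + 1) - g t| ≤ 1)
    (hg : ∀ t, μ ≤ t → g (t + τ) = g t + v) (hv : 1 ≤ v) (y : ℤ) (hy : (K : ℤ) < y) :
    ∃ t, g t = y ∧ ∀ i < t, g i < y := by
  have hex : ∃ t, y ≤ g t := by
    refine ⟨μ + (y - g μ).toNat * τ, ?_⟩
    rw [period g μ τ v hg]
    have h1 : y - g μ ≤ ((y - g μ).toNat : ℤ) := Int.self_le_toNat _
    have h2 : ((y - g μ).toNat : ℤ) * 1 ≤ ((y - g μ).toNat : ℤ) * v :=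
      mul_le_mul_of_nonneg_left hv (Int.natCast_nonneg _)
    linarith
  classical
  have hmin : ∀ i < Nat.find hex, g i < y := fun i hi => not_le.1 (Nat.find_min hex hi)
  refine ⟨Nat.find hex, le_antisymm ?_ (Nat.find_spec hex), hmin⟩
  rcases Nat.eq_zero_or_pos (Nat.find hex) with h | h
  · rw [h, h0]
    have : (0 : ℤ) ≤ K := Int.natCast_nonneg _
    omega
  · have h1 := hmin (Nat.find hex - 1) (by omega)
    have h2 := abs_le.1 (hs (Nat.find hex - 1))
    rw [Nat.sub_add_cancel h] at h2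
    omega

/-- Records are translated to records. -/
lemma rec_step (hK : μ + τ ≤ K) (hb : ∀ t, |g t| ≤ t)
    (hg : ∀ t, μ ≤ t → g (t + τ) = g t + v) (hv : 1 ≤ v) (hp : ∀ t, μ ≤ t → p (t + τ) = p t)
    (t : ℕ) (ht : (K : ℤ) < g t) (hr : ∀ i < t, g i < g t) :
    g (t + τ) = g t + v ∧ (∀ i < t + τ, g i < g (t + τ)) ∧ p (t + τ) = p t := by
  have h1 := abs_le.1 (hb t)
  have h2 : μ ≤ t := by omega
  refine ⟨hg t h2, fun i hi => ?_, hp t h2⟩
  rw [hg t h2]
  rcases Nat.lt_or_ge i (μ + τ) with h | h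
  · have h3 := abs_le.1 (hb i)
    omega
  · have h3 := hg (i - τ) (by omega)
    rw [Nat.sub_add_cancel (by omega)] at h3
    have h4 := hr (i - τ) (by omega)
    omega

lemma rec_iter (hK : μ + τ ≤ K) (hb : ∀ t, |g t| ≤ t)
    (hg : ∀ t, μ ≤ t → g (t + τ) = g t + v) (hv : 1 ≤ v) (hp : ∀ t, μ ≤ t → p (t + τ) = p t)
    (t : ℕ) (ht : (K : ℤ) < g t) (hr : ∀ i < t, g i < g t) (j : ℕ) :
    g (t + j * τ) = g t + j * v ∧ (∀ i < t + j * τ, g i < g (t + j * τ)) ∧
      p (t + j * τ) = p t := by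
  induction j with
  | zero => simpa using hr
  | succ j ih =>
    obtain ⟨h1, h2, h3⟩ := ih
    have h4 : (K : ℤ) < g (t + j * τ) := by
      rw [h1]
      have : (0 : ℤ) ≤ (j : ℤ) * v := mul_nonneg (Int.natCast_nonneg _) (by omega)
      omega
    obtain ⟨h5, h6, h7⟩ := rec_step g p K μ τ v hK hb hg hv hp (t + j * τ) h4 h2
    have h8 : t + (j + 1) * τ = t + j * τ + τ := by ring
    rw [h8]
    refine ⟨?_, h6, h7.trans h3⟩
    rw [h5, h1]
    push_cast
    ring

/-- Records with values congruent modulo `K!`. -/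
lemma rec_eq (hK : μ + τ ≤ K) (hb : ∀ t, |g t| ≤ t)
    (hg : ∀ t, μ ≤ t → g (t + τ) = g t + v) (hv : 1 ≤ v) (hvK : v ≤ K)
    (hp : ∀ t, μ ≤ t → p (t + τ) = p t)
    (t t' : ℕ) (ht : (K : ℤ) < g t) (hr : ∀ i < t, g i < g t) (hr' : ∀ i < t', g i < g t')
    (hle : g t ≤ g t') (hd : (K.factorial : ℤ) ∣ g t' - g t) : p t = p t' := by
  have h1 : v ∣ (K.factorial : ℤ) := by
    have h2 : v = ((v.toNat : ℕ) : ℤ) := by omega
    rw [h2]
    exact_mod_cast Nat.dvd_factorial (by omega) (by omega)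
  obtain ⟨j, hj⟩ := h1.trans hd
  have hj0 : 0 ≤ j := by
    by_contra hcon
    have h3 : v * j ≤ 1 * j := mul_le_mul_of_nonpos_right hv (by omega)
    omega
  obtain ⟨n, rfl⟩ := Int.eq_ofNat_of_zero_le hj0
  obtain ⟨h4, h5, h6⟩ := rec_iter g p K μ τ v hK hb hg hv hp t ht hr n
  have h7 : g (t + n * τ) = g t' := by
    rw [h4]
    linarith
  have h8 : t + n * τ = t' := by
    rcases lt_trichotomy (t + n * τ) t' with h | h | h
    · exact absurd h7 (ne_of_lt (hr' _ h))
    · exact h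
    · exact absurd h7.symm (ne_of_lt (h5 _ h))
  rw [← h8, h6]

end

end LOPx

open LOPx in
theorem t_LOP (hPIG : PIG_Stmt) : LOP_Stmt := by
  intro U f w u S K hS hu hw
  obtain ⟨-, μ, τ, hτ, hK, hper⟩ := hPIG U f u S K hS fun i _ => hu i
  have hz : ∀ k, dsp f w u (μ + k + τ) = dsp f w u (μ + k) +
      (dsp f w u (μ + τ) - dsp f w u μ) := by
    intro k
    induction k with
    | zero =>
      rw [Nat.add_zero]
      ring
    | succ k ih =>
      have h1 : μ + (k + 1) + τ = (μ + k + τ) + 1 := by ring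
      have h2 : μ + (k + 1) = (μ + k) + 1 := by ring
      rw [h1, h2, dsp_succ, dsp_succ, ih, hper (μ + k) (Nat.le_add_right _ _)]
      ring
  have hz' : ∀ t, μ ≤ t → dsp f w u (t + τ) = dsp f w u t +
      (dsp f w u (μ + τ) - dsp f w u μ) := by
    intro t ht
    obtain ⟨k, rfl⟩ := Nat.exists_eq_add_of_le ht
    exact hz k
  have hb : ∀ t, |dsp f w u t| ≤ t := abs_dsp_le f w hw u
  have hv : |dsp f w u (μ + τ) - dsp f w u μ| ≤ τ := by
    rw [dsp_add, add_sub_cancel_left]
    exact abs_dsp_le f w hw _ τ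
  generalize dsp f w u (μ + τ) - dsp f w u μ = v at hz' hv
  clear hz
  rcases eq_or_ne v 0 with h0 | h0
  · left
    intro t
    induction t using Nat.strong_induction_on with
    | _ t ih =>
      rcases Nat.lt_or_ge K t with h | h
      · have h1 := hz' (t - τ) (by omega)
        rw [Nat.sub_add_cancel (by omega), h0, add_zero] at h1
        rw [h1]
        exact ih (t - τ) (by omega)
      · exact (hb t).trans (by exact_mod_cast h)
  · right
    have hs : ∃ s : ℤ, (s = 1 ∨ s = -1) ∧ 1 ≤ s * v := by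
      rcases lt_or_gt_of_ne h0 with h | h
      · exact ⟨-1, Or.inr rfl, by omega⟩
      · exact ⟨1, Or.inl rfl, by omega⟩
    obtain ⟨s, hs1, hs2⟩ := hs
    have habs : ∀ y : ℤ, |s * y| = |y| := by
      intro y
      rcases hs1 with rfl | rfl
      · rw [one_mul]
      · rw [neg_one_mul, abs_neg]
    have hb' : ∀ t : ℕ, |(fun t => s * dsp f w u t) t| ≤ t := by
      intro t
      beta_reduce
      rw [habs]
      exact hb t
    have hg : ∀ t, μ ≤ t → (fun t => s * dsp f w u t) (t + τ) =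
        (fun t => s * dsp f w u t) t + s * v := by
      intro t ht
      beta_reduce
      rw [hz' t ht]
      ring
    have hvK : s * v ≤ K := by
      have h1 := (abs_le.1 ((habs v).trans_le hv)).2
      have h2 : (μ : ℤ) + τ ≤ K := by exact_mod_cast hK
      omega
    have hstep : ∀ t, |(fun t => s * dsp f w u t) (t + 1) - (fun t => s * dsp f w u t) t| ≤ 1 := by
      intro t
      beta_reduce
      rw [← mul_sub, habs, dsp_succ, add_sub_cancel_left]
      exact hw _
    have h00 : (fun t => s * dsp f w u t) 0 = 0 := by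
      beta_reduce
      rw [dsp_zero, mul_zero]
    refine ⟨s, hs1, lower (fun t => s * dsp f w u t) K μ τ (s * v) hτ hK hb' hg (by omega),
      fun y hy => hit (fun t => s * dsp f w u t) K μ τ (s * v) h00 hstep hg hs2 y hy, ?_⟩
    intro t t' ht ht' hr hr' hd
    rcases le_total (s * dsp f w u t) (s * dsp f w u t') with hle | hle
    · exact rec_eq (fun t => s * dsp f w u t) (fun t => f^[t] u) K μ τ (s * v) hK hb' hg hs2 hvK
        hper t t' ht hr hr' hle ((dvd_sub_comm).1 hd)
    · exact (rec_eq (fun t => s * dsp f w u t) (fun t => f^[t] u) K μ τ (s * v) hK hb' hg hs2 hvK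
        hper t' t ht' hr' hr hle hd).symm

end Pool.Agent.THX
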