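import Pool.Agent.THX.Stmts

/-!
Project THX (problem MP_5e85fc_lc): module RUN, several steps of the jump machine.
-/

set_option autoImplicit false

namespace Pool.Agent.THX

open Pool.Agent.Heads

theorem t_RUN (hJMP : JMP_Stmt) : RUN_Stmt := by
  intro Q _ M ℓ N x F c t hx hF hc
  induction t with
  | zero => exact fun _ => ⟨⟨0, le_rfl, rfl⟩, hc⟩
  | succ t ih =>
    intro hs
    obtain ⟨⟨m, hm, he⟩, hb⟩ := ih fun i hi => hs i (Nat.lt_succ_of_lt hi)
    obtain ⟨⟨k, hk, he'⟩, hb'⟩ := hJMP Q M ℓ N x F ((M.J ℓ N F)^[t] c) hx hF hb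
      (hs t (Nat.lt_succ_self t))
    rw [Function.iterate_succ_apply']
    refine ⟨⟨k + m, by omega, ?_⟩, hb'⟩
    rw [he', he, Function.iterate_add_apply]

end Pool.Agent.THX
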