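import Pool.Agent.THX.Stmts

/-!
Project THX (problem MP_5e85fc_lc), module SIM: the run of the automaton is the blind run.
-/

set_option autoImplicit false

namespace Pool.Agent.THX

open Pool.Agent.Heads

namespace SIMx

/-- What the automaton does is what the blind automaton does. -/
lemma rd_eq {Q : Type} (M : TH Q) (x : List (Fin 3)) (N : ℕ) (a : Bool) (u : Q × ℕ) (D : ℕ)
    (h1 : u.2 ≤ x.length + 1) (h2 : x.length + 2 ≤ D) (h3 : D ≤ x.length + 1 + N) :
    M.rd (wrd x N) (u.1, two a u.2 D) = M.bd x a u := by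
  have hf : (fun b => tape (wrd x N) (two a u.2 D b)) =
      fun b => if b = a then tape (wrd x 0) u.2 else Sym.letter 0 := by
    funext b
    by_cases hb : b = a
    · rw [if_pos hb, hb, two_same, tape_low x N _ h1]
    · rw [if_neg hb]
      have e : two a u.2 D b = D := by simp [two, hb]
      rw [e, tape_gap x N D h2 h3]
  have hd : decide (two a u.2 D false = two a u.2 D true) = false := by
    rw [decide_eq_false_iff_not]
    cases a <;> simp [two] <;> omega
  unfold TH.rd TH.bd
  simp only
  rw [hf, hd]

/-- One step. -/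
lemma step_eq {Q : Type} (M : TH Q) (x : List (Fin 3)) (N : ℕ) (a : Bool) (u : Q × ℕ) (D : ℕ)
    (h1 : u.2 ≤ x.length + 1) (h2 : x.length + 2 ≤ D) (h3 : D ≤ x.length + 1 + N) :
    M.step (wrd x N) (u.1, two a u.2 D) =
      ((M.bs x a u).1, two a (M.bs x a u).2 ((D : ℤ) + M.bw x a u).toNat) := by
  have hr := rd_eq M x N a u D h1 h2 h3
  unfold TH.step
  rw [hr]
  unfold TH.bs TH.bw
  simp only
  congr 1
  funext b
  rw [wrd_length]
  by_cases hb : b = a
  · subst hb
    rw [two_same, two_same, move_eq _ _ _ (by omega)]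
  · have e : ∀ p d : ℕ, two a p d b = d := by intro p d; simp [two, hb]
    have e2 : b = !a := by cases a <;> cases b <;> simp_all
    rw [e, e, move_eq _ _ _ (by omega), e2]

end SIMx

open SIMx in
theorem t_SIM : SIM_Stmt := by
  intro Q M ℓ x N a u d t hx hu hd
  subst hx
  induction t with
  | zero => simp [dsp_zero]
  | succ t ih =>
    have ih' := ih (fun i hi => hu i (by omega)) (fun i hi => hd i (by omega))
    rw [Function.iterate_succ_apply', Function.iterate_succ_apply', ih', dsp_succ]
    obtain ⟨h2, h3⟩ := hd t (Nat.lt_succ_self t)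
    have h1 := hu t (Nat.lt_succ_self t)
    have hc : (((d : ℤ) + dsp (M.bs x a) (M.bw x a) u t).toNat : ℤ) =
        (d : ℤ) + dsp (M.bs x a) (M.bw x a) u t := Int.toNat_of_nonneg (by omega)
    rw [step_eq M x N a _ _ h1 (by omega) (by omega), hc, add_assoc]

end Pool.Agent.THX
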