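import Pool.Agent.THX.PIG
import Pool.Agent.THX.LOP
import Pool.Agent.THX.SIM
import Pool.Agent.THX.EXT
import Pool.Agent.THX.EXF
import Pool.Agent.THX.JMP
import Pool.Agent.THX.RUN
import Pool.Agent.THX.CA
import Pool.Agent.THX.LCK
import Pool.Agent.THX.CB
import Pool.Agent.THX.CC
import Pool.Agent.THX.EQV
import Pool.Agent.THX.INF
import Pool.Agent.THX.DGT
import Pool.Agent.THX.FAC
import Pool.Agent.THX.AV1S
import Pool.Agent.THX.AV2
import Pool.Agent.THX.AV3
import Pool.Agent.THX.AV4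

/-!
Project THX (problem MP_5e85fc_lc), part B: two heads are useless on average, without hypotheses.
-/

set_option autoImplicit false

namespace Pool.Agent.THX

theorem t_AVG : AV4_Stmt := by
  have hEXT := t_EXT t_PIG
  have hEXF := t_EXF hEXT
  have hRUN := t_RUN (t_JMP t_SIM hEXF)
  have hEQV := t_EQV (t_CA hEXF hRUN) (t_CB t_LCK hEXT t_SIM) (t_CC (t_LOP t_PIG) t_SIM)
  exact t_AV4 hEQV (t_DGT t_INF) t_FAC (t_AV2 t_AV1) t_AV3

end Pool.Agent.THX
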