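import Pool.Agent.THX.Stmts

/-!
Project THX (problem MP_5e85fc_lc), module CNT: the counting argument.
-/

set_option autoImplicit false

namespace Pool.Agent.THX

open Pool.Agent.Heads

namespace CNTx

open scoped Classical in
theorem card_Ft (Q : Type) [Fintype Q] (ℓ : ℕ) : Fintype.card (Ft Q ℓ) =
    (1 + Fintype.card Q * (2 * KK Q ℓ + 1)) ^ (2 * Fintype.card Q) := by
  rw [Fintype.card_fun, Fintype.card_fun, Fintype.card_option, Fintype.card_prod, Fintype.card_fin,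
    Fintype.card_bool, ← pow_mul, add_comm, mul_comm (Fintype.card Q) 2]

open scoped Classical in
theorem card_Cd (Q : Type) [Fintype Q] (ℓ : ℕ) :
    Fintype.card (Cd Q ℓ) = ℓ + 5 + 6 * KK Q ℓ := by
  rw [Fintype.card_sum, Fintype.card_fin, Fintype.card_fin]
  ring

open scoped Classical in
theorem card_Lb (Q : Type) [Fintype Q] (ℓ : ℕ) :
    Fintype.card (Lb Q ℓ) = ℓ + 3 + 4 * KK Q ℓ + (KK Q ℓ).factorial := by
  rw [Fintype.card_sum, Fintype.card_sum, Fintype.card_fin, Fintype.card_fin, Fintype.card_fin]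
  ring

open scoped Classical in
theorem card_Ot (Q : Type) [Fintype Q] (ℓ : ℕ) : Fintype.card (Ot Q ℓ) =
    2 + Fintype.card Q * (ℓ + 3 + 4 * KK Q ℓ + (KK Q ℓ).factorial) ^ 2 := by
  rw [Fintype.card_sum, Fintype.card_prod, Fintype.card_fun, card_Lb, Fintype.card_bool]

open scoped Classical in
theorem card_Ty (Q : Type) [Fintype Q] (ℓ : ℕ) : Fintype.card (Ty Q ℓ) =
    (KK Q ℓ).factorial * (2 + Fintype.card Q * (ℓ + 3 + 4 * KK Q ℓ + (KK Q ℓ).factorial) ^ 2) ^
      (Fintype.card Q * (ℓ + 5 + 6 * KK Q ℓ) ^ 2) := by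
  rw [Fintype.card_prod, Fintype.card_fun, card_Ot, Fintype.card_prod, Fintype.card_fun, card_Cd,
    Fintype.card_fin, Fintype.card_bool]

end CNTx

open CNTx

theorem t_CNT (hEQV : EQV_Stmt) (hDGT : DGT_Stmt) : CNT_Stmt := by
  classical
  intro Q _ M ℓ m h1 h2
  have hne : Nonempty (Ft Q ℓ) := ⟨fun _ _ => none⟩
  obtain ⟨F, hF⟩ := Fintype.exists_le_card_fiber_of_mul_le_card
    (f := fun f : Fin ℓ → Bool => M.ex ℓ (wd f)) (n := m) (by
      rw [card_Ft, Fintype.card_fun, Fintype.card_bool, Fintype.card_fin, mul_comm]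
      exact h1)
  obtain ⟨X, hXs, hXc⟩ := Finset.exists_subset_card_eq hF
  choose NS hN1 hN2 hN3 using fun S : Finset (Fin ℓ → Bool) => hDGT ℓ (8 * KK Q ℓ + 8) S
  obtain ⟨S, hS, S', hS', hSS, hty⟩ := Finset.exists_ne_map_eq_of_card_lt_of_maps_to
    (s := X.powerset) (t := (Finset.univ : Finset (Ty Q ℓ)))
    (f := fun S => M.ty ℓ F (NS S)) (by
      rw [Finset.card_univ, card_Ty, Finset.card_powerset, hXc]
      exact h2) (fun S _ => Finset.mem_univ _)
  have hSX := Finset.mem_powerset.1 hS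
  have hSX' := Finset.mem_powerset.1 hS'
  obtain ⟨f, hfX, hf⟩ : ∃ f ∈ X, ¬ (f ∈ S ↔ f ∈ S') := by
    by_contra hcon
    push Not at hcon
    apply hSS
    ext f
    constructor
    · intro h
      exact (hcon f (hSX h)).1 h
    · intro h
      exact (hcon f (hSX' h)).2 h
  have hex : M.ex ℓ (wd f) = F := (Finset.mem_filter.1 (hXs hfX)).2
  have hlen : (wd f).length = ℓ := by
    unfold wd
    rw [List.length_ofFn]
  have hE := hEQV Q M ℓ (NS S) (NS S') (wd f) hlen (hN1 S) (hN1 S') (by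
    rw [hex]
    exact hty)
  have hb : ∀ T : Finset (Fin ℓ → Bool), T ⊆ X →
      NS T < 3 ^ (2 + (8 * KK Q ℓ + 8) + (ℓ + 1) * m) := by
    intro T hT
    refine (hN2 T).trans_le (Nat.pow_le_pow_right (by norm_num) ?_)
    have h3 : T.card ≤ m := hXc ▸ Finset.card_le_card hT
    have h4 : (ℓ + 1) * T.card ≤ (ℓ + 1) * m := Nat.mul_le_mul_left _ h3
    omega
  by_cases hA : (M.Acc (wrd (wd f) (NS S)) (M.start, fun _ => 0) ↔ wrd (wd f) (NS S) ∈ LL)
  · refine ⟨wd f, NS S', hlen, hb S' hSX', fun hB => hf ?_⟩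
    rw [← hN3 S f, ← hN3 S' f, ← hA, ← hB]
    exact hE
  · exact ⟨wd f, NS S, hlen, hb S hSX, hA⟩

end Pool.Agent.THX
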