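import Pool.Agent.THX.Stmts

/-!
Project THX (problem MP_5e85fc_lc), module PDG: the ternary digits of `h` are written on the stack.
-/

set_option autoImplicit false

namespace Pool.Agent.THX.PDGx

open Pool.Agent.Heads Pool.Agent.THX

/-- The last ternary digit. -/
def d3 (i : ℕ) : Fin 3 := ⟨i % 3, Nat.mod_lt _ (by norm_num)⟩

/-- Counting down: one step. -/
lemma dn_step (x : List (Fin 3)) (N p : ℕ) (r : Fin 3) (S : List Gm) (h1 : x.length + 2 ≤ p)
    (h2 : p ≤ x.length + 1 + N) :
    ps (wrd x N) (Ph.dn r, p, S) =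
      (Ph.dn (r + 1), p - 1, (if r = 2 then Op.push none else Op.none : Op Gm).apply S) := by
  have h : pdf (Ph.dn r) (tape (wrd x N) p) S.head? =
      some (Ph.dn (r + 1), Dir.L, if r = 2 then Op.push none else Op.none) := by
    rw [tape_gap x N p h1 h2]
    simp [pdf]
  have h3 := ps_some (w := wrd x N) (c := (Ph.dn r, p, S)) h
  rw [h3]
  rfl

/-- Claim 1. -/
lemma dn_run (x : List (Fin 3)) (N h : ℕ) (S : List Gm) (hN : h ≤ N) : ∀ i ≤ h,
    PR (wrd x N) i (Ph.dn 0, x.length + 1 + h, S)
      (Ph.dn (d3 i), x.length + 1 + h - i, List.replicate (i / 3) none ++ S) := by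
  intro i
  induction i with
  | zero =>
    intro _
    exact ⟨0, le_rfl, rfl⟩
  | succ i ih =>
    intro hi
    refine PR_trans (ih (by omega)) (PR_step ?_)
    rw [dn_step x N _ _ _ (by omega) (by omega)]
    have e1 : d3 (i + 1) = d3 i + 1 := by
      apply Fin.ext
      simp only [d3, Fin.val_add]
      rw [show ((1 : Fin 3) : ℕ) = 1 from rfl]
      omega
    have e2 : x.length + 1 + h - i - 1 = x.length + 1 + h - (i + 1) := by omega
    rw [e1, e2]
    have hv : (d3 i : ℕ) = i % 3 := rfl
    by_cases hr : d3 i = 2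
    · rw [hr] at hv
      have h2 : i % 3 = 2 := by rw [← hv]; rfl
      have h3 : (i + 1) / 3 = i / 3 + 1 := by omega
      rw [if_pos hr, h3, List.replicate_succ]
      rfl
    · have h2 : i % 3 ≠ 2 := by
        intro h4
        apply hr
        apply Fin.ext
        rw [hv, h4]
        rfl
      have h3 : (i + 1) / 3 = i / 3 := by omega
      rw [if_neg hr, h3]
      rfl

/-- Claim 2. -/
lemma up_run (w : List (Fin 3)) (r : Fin 3) (S : List Gm) : ∀ (j p : ℕ), p + j ≤ w.length + 1 →
    PR w j (Ph.up r, p, List.replicate j none ++ S) (Ph.up r, p + j, S) := by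
  intro j
  induction j with
  | zero =>
    intro p _
    exact ⟨0, le_rfl, rfl⟩
  | succ j ih =>
    intro p hp
    have h1 := ih (p + 1) (by omega)
    rw [show p + 1 + j = p + (j + 1) by omega] at h1
    refine PR_head ?_ h1
    have h : pdf (Ph.up r) (tape w p) (List.replicate (j + 1) (none : Gm) ++ S).head? =
        some (Ph.up r, Dir.R, Op.pop) := by
      rw [List.replicate_succ, List.cons_append, List.head?_cons]
      cases tape w p <;> rfl
    have h3 := ps_some (w := w) (c := (Ph.up r, p, List.replicate (j + 1) none ++ S)) h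
    rw [h3]
    have h4 : move (w.length + 1) p Dir.R = p + 1 := by
      simp only [move]
      omega
    simp only [h4, List.replicate_succ, List.cons_append, Op.apply, List.tail_cons]

/-- A digit is written. -/
lemma up_end (w : List (Fin 3)) (r : Fin 3) (p : ℕ) (s : List (Fin 3)) :
    ps w (Ph.up r, p, stk s) = (Ph.ck, p, stk (r :: s)) := by
  have h : pdf (Ph.up r) (tape w p) (stk s).head? = some (Ph.ck, Dir.S, Op.push (some r)) := by
    cases s with
    | nil => cases tape w p <;> rfl
    | cons a s => cases tape w p <;> rfl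
  have h3 := ps_some (w := w) (c := (Ph.up r, p, stk s)) h
  rw [h3]
  rfl

/-- One round. -/
lemma round (x : List (Fin 3)) (N h : ℕ) (s : List (Fin 3)) (hN : h ≤ N) (h0 : 1 ≤ h) :
    PR (wrd x N) (h + h / 3 + 3) (Ph.ck, x.length + 1 + h, stk s)
      (Ph.ck, x.length + 1 + h / 3, stk (d3 h :: s)) := by
  have a1 : ps (wrd x N) (Ph.ck, x.length + 1 + h, stk s) =
      (Ph.dn 0, x.length + 1 + h, stk s) := by
    have h1 : pdf Ph.ck (tape (wrd x N) (x.length + 1 + h)) (stk s).head? =
        some (Ph.dn 0, Dir.S, Op.none) := by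
      rw [tape_gap x N _ (by omega) (by omega)]
      rfl
    have h3 := ps_some (w := wrd x N) (c := (Ph.ck, x.length + 1 + h, stk s)) h1
    rw [h3]
    rfl
  have a2 := dn_run x N h (stk s) hN h le_rfl
  rw [show x.length + 1 + h - h = x.length + 1 by omega] at a2
  have a3 : ps (wrd x N)
      (Ph.dn (d3 h), x.length + 1, List.replicate (h / 3) none ++ stk s) =
      (Ph.up (d3 h), x.length + 1, List.replicate (h / 3) none ++ stk s) := by
    have h1 : pdf (Ph.dn (d3 h)) (tape (wrd x N) (x.length + 1))
        (List.replicate (h / 3) (none : Gm) ++ stk s).head? =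
        some (Ph.up (d3 h), Dir.S, Op.none) := by
      rw [tape_sep x N]
      rfl
    have h3 := ps_some (w := wrd x N)
      (c := (Ph.dn (d3 h), x.length + 1, List.replicate (h / 3) none ++ stk s)) h1
    rw [h3]
    rfl
  have a4 := up_run (wrd x N) (d3 h) (stk s) (h / 3) (x.length + 1)
    (by rw [wrd_length]; omega)
  have a5 := up_end (wrd x N) (d3 h) (x.length + 1 + h / 3) s
  have b1 := PR_trans a4 (PR_step a5)
  have b2 := PR_trans a2 (PR_head a3 b1)
  exact PR_mono (PR_head a1 b2) (by omega)

end Pool.Agent.THX.PDGx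

namespace Pool.Agent.THX

open Pool.Agent.Heads PDGx

/-- Module PDG. -/
theorem t_PDG : PDG_Stmt := by
  intro x N h
  induction h using Nat.strong_induction_on with
  | _ h ih =>
    intro s hN
    rcases Nat.eq_zero_or_pos h with h0 | h0
    · subst h0
      exact ⟨[], by simp, PR_refl _ _ _⟩
    · obtain ⟨z, hz, hr⟩ := ih (h / 3) (Nat.div_lt_self h0 (by norm_num)) (d3 h :: s)
        ((Nat.div_le_self _ _).trans hN)
      refine ⟨z ++ [d3 h], ?_, ?_⟩
      · rw [Nat.digits_def' (by norm_num) h0, List.reverse_cons, List.map_append, hz]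
        simp [PDGx.d3]
      · have h1 := PR_trans (PDGx.round x N h s hN h0) hr
        rw [List.append_assoc]
        exact PR_mono h1 (by omega)

end Pool.Agent.THX
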