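import Pool.Agent.THX.Stmts

/-!
Project THX (problem MP_5e85fc_lc), module PDX: the pushdown automaton `PD` and the step function `ps`.
-/

set_option autoImplicit false

namespace Pool.Agent.THX

open Pool.Agent.Heads

namespace PDXx

/-- The triple of a configuration. -/
def tr (c : Cfg Ph (Fin 1 → ℕ) Gm) : Ph × ℕ × List Gm := (c.state, c.pos 0, c.stack)

/-- A step of the automaton is a step of `ps`, and it is not made in a stuck configuration. -/
lemma step_ps {w : List (Fin 3)} {c c' : Cfg Ph (Fin 1 → ℕ) Gm} (h : PD.Step w c c') :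
    ¬ Stuck w (tr c) ∧ ps w (tr c) = tr c' := by
  obtain ⟨t, ⟨v, hv, rfl⟩, rfl⟩ := h
  have hv2 : pdf (tr c).1 (tape w (tr c).2.1) (tr c).2.2.head? = some v := hv
  refine ⟨?_, ?_⟩
  · intro hs
    unfold Stuck at hs
    rw [hs] at hv2
    cases hv2
  · rw [ps_some hv2]
    rfl

/-- The computation of the automaton is the orbit of `ps`, as long as it is not stuck. -/
lemma reach_ps {w : List (Fin 3)} {t : ℕ} {c : Cfg PD.Q (Fin 1 → ℕ) PD.Γ}
    (h : PD.Reach w t c) : (ps w)^[t] (Ph.f0, 0, []) = tr c ∧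
      ∀ j < t, ¬ Stuck w ((ps w)^[j] (Ph.f0, 0, [])) := by
  induction h with
  | zero => exact ⟨rfl, fun j hj => absurd hj (Nat.not_lt_zero j)⟩
  | succ _ hs ih =>
    obtain ⟨ih1, ih2⟩ := ih
    obtain ⟨h1, h2⟩ := step_ps hs
    refine ⟨?_, ?_⟩
    · rw [Function.iterate_succ_apply', ih1, h2]
    · intro j hj
      rcases Nat.lt_succ_iff_lt_or_eq.mp hj with h3 | h3
      · exact ih2 j h3
      · rw [h3, ih1]
        exact h1

/-- Every point of the orbit of `ps` is a configuration which the automaton reaches. -/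
lemma reach_of_ps (w : List (Fin 3)) (n : ℕ) :
    ∃ (t : ℕ) (c : Cfg Ph (Fin 1 → ℕ) Gm), PD.Reach w t c ∧
      tr c = (ps w)^[n] (Ph.f0, 0, []) := by
  induction n with
  | zero => exact ⟨0, _, PDA.Reach.zero, rfl⟩
  | succ n ih =>
    obtain ⟨t, c, h, e⟩ := ih
    rw [Function.iterate_succ_apply', ← e]
    cases hp : pdf c.state (tape w (c.pos 0)) c.stack.head? with
    | none => exact ⟨t, c, h, (ps_stuck (c := tr c) hp).symm⟩
    | some v =>
      refine ⟨t + 1, ⟨v.1, fun i => move (w.length + 1) (c.pos i) v.2.1, v.2.2.apply c.stack⟩,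
        PDA.Reach.succ h ⟨_, ⟨v, hp, rfl⟩, rfl⟩, ?_⟩
      rw [ps_some (c := tr c) hp]
      rfl

end PDXx

theorem t_PDX : PDX_Stmt := by
  refine ⟨?_, ?_, ?_⟩
  · intro q x g t ht t' ht'
    obtain ⟨v, hv, rfl⟩ := ht
    obtain ⟨v', hv', rfl⟩ := ht'
    rw [hv] at hv'
    obtain rfl := Option.some.inj hv'
    rfl
  · intro w
    constructor
    · rintro ⟨t, c, h, hc⟩
      refine ⟨t, ?_⟩
      rw [(PDXx.reach_ps h).1]
      exact hc
    · rintro ⟨n, hn⟩
      obtain ⟨t, c, h, e⟩ := PDXx.reach_of_ps w n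
      refine ⟨t, c, h, ?_⟩
      rw [← e] at hn
      exact hn
  · rintro w n ⟨m, hm, hs⟩ t c h
    by_contra hlt
    exact (PDXx.reach_ps h).2 m (by omega) hs

end Pool.Agent.THX
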