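import Pool.Agent.THX.Stmts

/-!
# Project THX, module PIG: eventually periodic orbits
-/

set_option autoImplicit false

namespace Pool.Agent.THX

namespace PIGx

/-- two equal points -/
theorem rep {U : Type} (f : U → U) (u : U) (S : Finset U) (K : ℕ) (hS : S.card ≤ K)
    (h : ∀ i ≤ K, f^[i] u ∈ S) : ∃ i j, i < j ∧ j ≤ K ∧ f^[i] u = f^[j] u := by
  classical
  have h1 : S.card < (Finset.range (K + 1)).card := by
    rw [Finset.card_range]
    omega
  obtain ⟨i, hi, j, hj, hne, heq⟩ := Finset.exists_ne_map_eq_of_card_lt_of_maps_to h1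
    (f := fun i => f^[i] u) (fun i hi => h i (Nat.lt_succ_iff.1 (Finset.mem_range.1 hi)))
  rw [Finset.mem_range] at hi hj
  rcases lt_or_gt_of_ne hne with h2 | h2
  · exact ⟨i, j, h2, by omega, heq⟩
  · exact ⟨j, i, h2, by omega, heq.symm⟩

end PIGx

theorem t_PIG : PIG_Stmt := by
  intro U f u S K hS h
  obtain ⟨i, j, hij, hj, heq⟩ := PIGx.rep f u S K hS h
  have hper : ∀ t, i ≤ t → f^[t + (j - i)] u = f^[t] u := by
    intro t ht
    have e1 : t + (j - i) = (t - i) + j := by omega
    have e2 : t = (t - i) + i := by omega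
    rw [e1, Function.iterate_add_apply, ← heq, ← Function.iterate_add_apply, ← e2]
  refine ⟨?_, i, j - i, by omega, by omega, hper⟩
  intro t
  induction t using Nat.strong_induction_on with
  | _ t ih =>
    by_cases ht : t ≤ K
    · exact h t ht
    · have h1 := hper (t - (j - i)) (by omega)
      have e : t - (j - i) + (j - i) = t := by omega
      rw [e] at h1
      rw [h1]
      exact ih _ (by omega)

end Pool.Agent.THX
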