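import Pool.Agent.THX.Stmts

/-!
Project THX (problem MP_5e85fc_lc): the pushdown automaton accepts `LL` in linear time.
-/

set_option autoImplicit false

namespace Pool.Agent.THX

open Pool.Agent.Heads

namespace PLGx

lemma wrd_inj {x y : List (Fin 3)} {N M : ℕ} (hx : ∀ a ∈ x, a ≠ 2) (hy : ∀ a ∈ y, a ≠ 2)
    (h : wrd x N = wrd y M) : x = y ∧ N = M := by
  have hlen := congrArg List.length h
  rw [wrd_length, wrd_length] at hlen
  have hxy : x = y := by
    clear hlen
    induction x generalizing y with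
    | nil =>
      cases y with
      | nil => rfl
      | cons b y =>
        simp only [wrd, List.nil_append, List.cons_append, List.cons.injEq] at h
        exact absurd h.1.symm (hy b (by simp))
    | cons a x ih =>
      cases y with
      | nil =>
        simp only [wrd, List.nil_append, List.cons_append, List.cons.injEq] at h
        exact absurd h.1 (hx a (by simp))
      | cons b y =>
        simp only [wrd, List.cons_append, List.cons.injEq] at h
        rw [h.1, ih (fun c hc => hx c (by simp [hc])) (fun c hc => hy c (by simp [hc])) h.2]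
  subst hxy
  exact ⟨rfl, by omega⟩

lemma infix_val (u v : List (Fin 3)) :
    u.map Fin.val <:+: v.map Fin.val ↔ u <:+: v := by
  constructor
  · intro h
    obtain ⟨l, hl, he⟩ := List.infix_map_iff.1 h
    have : u = l := List.map_injective_iff.2 Fin.val_injective he
    rw [this]; exact hl
  · intro h
    exact h.map _

lemma mem_LL (x : List (Fin 3)) (N : ℕ) (hx : ∀ a ∈ x, a ≠ 2) (z : List (Fin 3))
    (hz : z.map Fin.val = (Nat.digits 3 N).reverse) :
    wrd x N ∈ LL ↔ (2 :: (x ++ [2])) <:+: z := by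
  have e : ∀ y : List (Fin 3), (2 :: (y.map Fin.val ++ [2])) =
      ((2 : Fin 3) :: (y ++ [2])).map Fin.val := by
    intro y; simp
  constructor
  · rintro ⟨y, M, hy, h, hi⟩
    obtain ⟨rfl, rfl⟩ := wrd_inj hx hy h
    rwa [← hz, e, infix_val] at hi
  · intro h
    refine ⟨x, N, hx, rfl, ?_⟩
    rwa [← hz, e, infix_val]

end PLGx

theorem t_PLG (hPDX : PDX_Stmt) (hPFM : PFM_Stmt) (hPDG : PDG_Stmt) (hPSR : PSR_Stmt) :
    PLG_Stmt := by
  obtain ⟨hdet, hacc, hhlt⟩ := hPDX
  obtain ⟨hf1, hf2⟩ := hPFM
  -- the run on a word of the right form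
  have key : ∀ (x : List (Fin 3)) (N : ℕ), (∀ a ∈ x, a ≠ 2) →
      (PAcc (wrd x N) (Ph.f0, 0, []) ↔ wrd x N ∈ LL) ∧
      Hlt (wrd x N) (20 * ((wrd x N).length + 1)) (Ph.f0, 0, []) := by
    intro x N hx
    have h1 := hf1 x N hx
    obtain ⟨z, hz, h2⟩ := hPDG x N N [] le_rfl
    rw [List.append_nil] at h2
    obtain ⟨h3, h4⟩ := hPSR x N z hx
    have h12 := PR_trans h1 h2
    constructor
    · rw [PAcc_iff h12, h3, PLGx.mem_LL x N hx z hz]
    · refine Hlt_mono (Hlt_trans h12 h4) ?_
      have hzl : z.length ≤ N := by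
        have := congrArg List.length hz
        rw [List.length_map, List.length_reverse] at this
        rw [this]
        rw [Nat.digits_length_le_iff (by norm_num)]
        exact Nat.lt_pow_self (by norm_num)
      rw [wrd_length]
      omega
  refine ⟨hdet, ?_, ?_⟩
  · ext w
    rw [hacc w]
    by_cases hw : ∃ (x : List (Fin 3)) (N : ℕ), (∀ a ∈ x, a ≠ 2) ∧ w = wrd x N
    · obtain ⟨x, N, hx, rfl⟩ := hw
      exact (key x N hx).1
    · constructor
      · intro h
        exact absurd h (hf2 w hw).1
      · rintro ⟨x, N, hx, h, -⟩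
        exact absurd ⟨x, N, hx, h⟩ hw
  · intro w t c hr
    refine hhlt w _ ?_ t c hr
    by_cases hw : ∃ (x : List (Fin 3)) (N : ℕ), (∀ a ∈ x, a ≠ 2) ∧ w = wrd x N
    · obtain ⟨x, N, hx, rfl⟩ := hw
      exact (key x N hx).2
    · exact Hlt_mono (hf2 w hw).2 (by omega)

end Pool.Agent.THX
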