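import Pool.Agent.THX.Stmts

/-!
Project THX (problem MP_5e85fc_lc): module PSR, the search for the factor `2 x 2` in the stack.
-/

set_option autoImplicit false

namespace Pool.Agent.THX

open Pool.Agent.Heads

namespace PSRx

/-- Rewinding. -/
lemma rewind (x : List (Fin 3)) (N : ℕ) (t : List Gm) : ∀ p : ℕ, p ≤ x.length + 1 →
    PR (wrd x N) (p + 1) (Ph.rw, p, t) (Ph.sk, 1, t) := by
  intro p
  induction p with
  | zero =>
    intro _
    refine PR_step ?_
    have h : pdf Ph.rw (tape (wrd x N) 0) t.head? = some (Ph.sk, Dir.R, Op.none) := by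
      rw [tape_zero]; rfl
    rw [ps_some (c := (Ph.rw, 0, t)) h]
    simp [move, Op.apply]
  | succ p ih =>
    intro hp
    refine PR_head ?_ (ih (by omega))
    have h : pdf Ph.rw (tape (wrd x N) (p + 1)) t.head? = some (Ph.rw, Dir.L, Op.none) := by
      rcases Nat.lt_or_ge p x.length with h1 | h1
      · rw [tape_x _ _ _ h1]; rfl
      · have h2 : p = x.length := by omega
        subst h2
        rw [tape_sep]; rfl
    rw [ps_some (c := (Ph.rw, p + 1, t)) h]
    simp [move, Op.apply]

/-- One step of the automaton given by the transition function. -/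
lemma one {x : List (Fin 3)} {N : ℕ} {q : Ph} {p : ℕ} {s : List Gm} {v : Ph × Dir × Op Gm}
    {sy : Sym (Fin 3)} {g : Option Gm} (hs : tape (wrd x N) p = sy) (hg : s.head? = g)
    (h : pdf q sy g = some v) :
    PR (wrd x N) 1 (q, p, s) (v.1, move ((wrd x N).length + 1) p v.2.1, v.2.2.apply s) := by
  refine PR_step ?_
  rw [ps_some (c := (q, p, s)) (v := v) (by simpa [hs, hg] using h)]

lemma stk_cons (a : Fin 3) (s : List (Fin 3)) : stk (a :: s) = some a :: stk s := rfl

/-- The two claims for a stack. -/
def Cl (x : List (Fin 3)) (N : ℕ) (s : List (Fin 3)) : Prop :=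
  ((PAcc (wrd x N) (Ph.sk, 1, stk s) ↔ (2 :: (x ++ [2])) <:+: s) ∧
    Hlt (wrd x N) (4 * s.length) (Ph.sk, 1, stk s)) ∧
  ∀ v y : List (Fin 3), x = v ++ y →
    (PAcc (wrd x N) (Ph.mt, v.length + 1, stk s) ↔
      ((y ++ [2]) <+: s ∨ (2 :: (x ++ [2])) <:+: s)) ∧
    Hlt (wrd x N) (v.length + 2 + 4 * s.length) (Ph.mt, v.length + 1, stk s)

lemma cl_nil (x : List (Fin 3)) (N : ℕ) : Cl x N [] := by
  refine ⟨⟨?_, ?_⟩, ?_⟩
  · have h : Stuck (wrd x N) (Ph.sk, 1, stk []) := by
      simp [Stuck, stk, pdf]
    constructor
    · intro h2
      exact absurd h2 (PAcc_stuck h (by simp))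
    · intro h2
      simp at h2
  · refine Hlt_stuck ?_
    simp [Stuck, stk, pdf]
  · intro v y _
    have h : Stuck (wrd x N) (Ph.mt, v.length + 1, stk []) := by
      simp [Stuck, stk, pdf]
    refine ⟨⟨?_, ?_⟩, Hlt_stuck h⟩
    · intro h2
      exact absurd h2 (PAcc_stuck h (by simp))
    · intro h2
      simp at h2

lemma cl_all (x : List (Fin 3)) (N : ℕ) (hx : ∀ a ∈ x, a ≠ 2) : ∀ s, Cl x N s := by
  intro s
  induction s with
  | nil => exact cl_nil x N
  | cons a s ih =>
    obtain ⟨⟨ih1, ih1'⟩, ih2⟩ := ih
    -- (I)
    have hI : (PAcc (wrd x N) (Ph.sk, 1, stk (a :: s)) ↔ (2 :: (x ++ [2])) <:+: (a :: s)) ∧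
        Hlt (wrd x N) (4 * (a :: s).length) (Ph.sk, 1, stk (a :: s)) := by
      by_cases ha : a = 2
      · have hst : PR (wrd x N) 1 (Ph.sk, 1, stk (a :: s)) (Ph.mt, 1, stk s) := by
          have := one (x := x) (N := N) (q := Ph.sk) (p := 1) (s := stk (a :: s))
            (v := (Ph.mt, Dir.S, Op.pop)) rfl rfl (by
              rw [stk_cons]
              simp only [List.head?_cons, pdf, ha, if_true])
          simpa [move, Op.apply, stk_cons] using this
        obtain ⟨h1, h2⟩ := ih2 [] x rfl
        simp only [List.length_nil, Nat.zero_add] at h1 h2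
        refine ⟨?_, ?_⟩
        · rw [PAcc_iff hst, h1, List.infix_cons_iff, List.cons_prefix_cons]
          simp [ha]
        · refine Hlt_mono (Hlt_trans hst h2) ?_
          simp only [List.length_cons]; omega
      · have hst : PR (wrd x N) 1 (Ph.sk, 1, stk (a :: s)) (Ph.sk, 1, stk s) := by
          have := one (x := x) (N := N) (q := Ph.sk) (p := 1) (s := stk (a :: s))
            (v := (Ph.sk, Dir.S, Op.pop)) rfl rfl (by
              rw [stk_cons]
              simp only [List.head?_cons, pdf, ha, if_false])
          simpa [move, Op.apply, stk_cons] using this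
        refine ⟨?_, ?_⟩
        · rw [PAcc_iff hst, ih1, List.infix_cons_iff, List.cons_prefix_cons]
          constructor
          · intro h; exact Or.inr h
          · rintro (⟨h, -⟩ | h)
            · exact absurd h.symm ha
            · exact h
        · refine Hlt_mono (Hlt_trans hst ih1') ?_
          simp only [List.length_cons]; omega
    refine ⟨hI, ?_⟩
    -- rewinding after a mismatch
    have hmis : ∀ (v : List (Fin 3)) (b : Fin 3), v.length ≤ x.length →
        tape (wrd x N) (v.length + 1) = Sym.letter b → b ≠ a →
        PR (wrd x N) (v.length + 2) (Ph.mt, v.length + 1, stk (a :: s))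
          (Ph.sk, 1, stk (a :: s)) := by
      intro v b hv ht hb
      have h1 := one (x := x) (N := N) (q := Ph.mt) (p := v.length + 1) (s := stk (a :: s))
        (v := (Ph.rw, Dir.L, Op.none)) ht rfl (by
          rw [stk_cons]
          simp only [List.head?_cons, pdf, hb, if_false])
      have h2 : PR (wrd x N) 1 (Ph.mt, v.length + 1, stk (a :: s))
          (Ph.rw, v.length, stk (a :: s)) := by
        simpa [move, Op.apply] using h1
      exact PR_mono (PR_trans h2 (rewind x N _ v.length (by omega))) (by omega)
    intro v y hxy
    have hvl : v.length + y.length = x.length := by rw [hxy]; simp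
    cases y with
    | nil =>
      have hv : v.length = x.length := by simpa using hvl
      have ht : tape (wrd x N) (v.length + 1) = Sym.letter 2 := by rw [hv]; exact tape_sep x N
      by_cases ha : a = 2
      · have h1 := one (x := x) (N := N) (q := Ph.mt) (p := v.length + 1) (s := stk (a :: s))
          (v := (Ph.ac, Dir.S, Op.none)) ht rfl (by
            rw [stk_cons]
            simp [pdf, ha])
        refine ⟨?_, ?_⟩
        · rw [PAcc_iff h1]
          constructor
          · intro _
            left
            simp [ha]
          · intro _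
            exact PAcc_ac rfl
        · refine Hlt_mono (Hlt_trans h1 (Hlt_stuck (n := 0) (ac_stuck _ _ rfl))) ?_
          omega
      · have h1 := hmis v 2 (by omega) ht (Ne.symm ha)
        refine ⟨?_, ?_⟩
        · rw [PAcc_iff h1, hI.1]
          constructor
          · intro h; exact Or.inr h
          · rintro (h | h)
            · rw [List.nil_append, List.cons_prefix_cons] at h
              exact absurd h.1.symm ha
            · exact h
        · exact Hlt_trans h1 hI.2
    | cons b y' =>
      have hlt : v.length < x.length := by simp at hvl; omega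
      have hxb : x[v.length] = b := by
        simp [hxy]
      have ht : tape (wrd x N) (v.length + 1) = Sym.letter b := by
        rw [tape_x _ _ _ hlt, hxb]
      have hb2 : b ≠ 2 := hx b (by rw [hxy]; simp)
      by_cases hab : b = a
      · have ha2 : a ≠ 2 := by rw [← hab]; exact hb2
        have h1 := one (x := x) (N := N) (q := Ph.mt) (p := v.length + 1) (s := stk (a :: s))
          (v := (Ph.mt, Dir.R, Op.pop)) ht rfl (by
            rw [stk_cons]
            simp only [List.head?_cons, pdf, hab, if_true, ha2, if_false])
        have h2 : PR (wrd x N) 1 (Ph.mt, v.length + 1, stk (a :: s))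
            (Ph.mt, (v ++ [b]).length + 1, stk s) := by
          have e : min (v.length + 1 + 1) ((wrd x N).length + 1) = v.length + 1 + 1 := by
            rw [wrd_length]; omega
          simpa [move, Op.apply, stk_cons, e] using h1
        obtain ⟨h3, h4⟩ := ih2 (v ++ [b]) y' (by rw [hxy]; simp)
        refine ⟨?_, ?_⟩
        · rw [PAcc_iff h2, h3, List.infix_cons_iff, List.cons_append, List.cons_prefix_cons,
            List.cons_prefix_cons]
          constructor
          · rintro (h | h)
            · exact Or.inl ⟨hab, h⟩
            · exact Or.inr (Or.inr h)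
          · rintro (⟨-, h⟩ | ⟨h, -⟩ | h)
            · exact Or.inl h
            · exact absurd h.symm ha2
            · exact Or.inr h
        · refine Hlt_mono (Hlt_trans h2 h4) ?_
          simp only [List.length_cons, List.length_append, List.length_nil]
          omega
      · have h1 := hmis v b (by omega) ht hab
        refine ⟨?_, ?_⟩
        · rw [PAcc_iff h1, hI.1]
          constructor
          · intro h; exact Or.inr h
          · rintro (h | h)
            · rw [List.cons_append, List.cons_prefix_cons] at h
              exact absurd h.1 hab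
            · exact h
        · exact Hlt_trans h1 hI.2

end PSRx

open PSRx in
theorem t_PSR : PSR_Stmt := by
  intro x N s hx
  have h1 := one (x := x) (N := N) (q := Ph.ck) (p := x.length + 1) (s := stk s)
    (v := (Ph.rw, Dir.L, Op.none)) (tape_sep x N) rfl (by simp [pdf])
  have h2 : PR (wrd x N) 1 (Ph.ck, x.length + 1, stk s) (Ph.rw, x.length, stk s) := by
    simpa [move, Op.apply] using h1
  have h3 := PR_trans h2 (rewind x N (stk s) x.length (by omega))
  obtain ⟨⟨h4, h5⟩, -⟩ := cl_all x N hx s
  refine ⟨?_, ?_⟩
  · rw [PAcc_iff h3, h4]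
  · refine Hlt_mono (Hlt_trans h3 h5) ?_
    omega

end Pool.Agent.THX
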