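import Pool.Agent.THX.Stmts

/-!
Project THX (problem MP_5e85fc_lc), module PFM: the pushdown automaton checks the form of the word.
-/

set_option autoImplicit false

namespace Pool.Agent.THX.PFMx

open Pool.Agent.Heads

/-- One step of the pushdown automaton in the state `f0` on the left endmarker. -/
lemma step_f0_left (w : List (Fin 3)) (s : List Gm) :
    ps w (Ph.f0, 0, s) = (Ph.f0, 1, s) := by
  have h : pdf Ph.f0 (tape w 0) s.head? = some (Ph.f0, Dir.R, Op.none) := by
    simp [tape_zero, pdf]
  have h2 := ps_some (w := w) (c := (Ph.f0, 0, s)) h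
  rw [h2]
  simp [move, Op.apply]

/-- One step in the state `f0` on a letter different from `2`. -/
lemma step_f0 (w : List (Fin 3)) (s : List Gm) (i : ℕ) (hi : i < w.length) (h2 : w[i] ≠ 2) :
    ps w (Ph.f0, i + 1, s) = (Ph.f0, i + 2, s) := by
  have h : pdf Ph.f0 (tape w (i + 1)) s.head? = some (Ph.f0, Dir.R, Op.none) := by
    rw [tape_succ_of_lt w i hi]
    simp [pdf, h2]
  have h3 := ps_some (w := w) (c := (Ph.f0, i + 1, s)) h
  rw [h3]
  simp only [move, Op.apply]
  rw [Nat.min_eq_left (by omega)]

/-- One step in the state `f0` on the letter `2`. -/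
lemma step_f0_sep (w : List (Fin 3)) (s : List Gm) (i : ℕ) (hi : i < w.length)
    (h2 : w[i] = 2) : ps w (Ph.f0, i + 1, s) = (Ph.f1, i + 2, s) := by
  have h : pdf Ph.f0 (tape w (i + 1)) s.head? = some (Ph.f1, Dir.R, Op.none) := by
    rw [tape_succ_of_lt w i hi]
    simp [pdf, h2]
  have h3 := ps_some (w := w) (c := (Ph.f0, i + 1, s)) h
  rw [h3]
  simp only [move, Op.apply]
  rw [Nat.min_eq_left (by omega)]

/-- One step in the state `f1` on the letter `0`. -/
lemma step_f1 (w : List (Fin 3)) (s : List Gm) (i : ℕ) (hi : i < w.length)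
    (h2 : w[i] = 0) : ps w (Ph.f1, i + 1, s) = (Ph.f1, i + 2, s) := by
  have h : pdf Ph.f1 (tape w (i + 1)) s.head? = some (Ph.f1, Dir.R, Op.none) := by
    rw [tape_succ_of_lt w i hi]
    simp [pdf, h2]
  have h3 := ps_some (w := w) (c := (Ph.f1, i + 1, s)) h
  rw [h3]
  simp only [move, Op.apply]
  rw [Nat.min_eq_left (by omega)]

/-- One step in the state `f1` on the right endmarker. -/
lemma step_f1_right (w : List (Fin 3)) (s : List Gm) :
    ps w (Ph.f1, w.length + 1, s) = (Ph.ck, w.length, s) := by
  have h : pdf Ph.f1 (tape w (w.length + 1)) s.head? = some (Ph.ck, Dir.L, Op.none) := by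
    rw [tape_right w _ le_rfl]
    simp [pdf]
  have h3 := ps_some (w := w) (c := (Ph.f1, w.length + 1, s)) h
  rw [h3]
  simp [move, Op.apply]

/-- The head moves in the state `f0` over the letters different from `2`. -/
lemma run_f0 (w : List (Fin 3)) (i : ℕ) (hi : i ≤ w.length)
    (h : ∀ j (hj : j < w.length), j < i → w[j] ≠ 2) :
    PR w (i + 1) (Ph.f0, 0, []) (Ph.f0, i + 1, []) := by
  induction i with
  | zero => exact PR_step (step_f0_left w [])
  | succ i ih =>
    have h1 := ih (by omega) (fun j hj hji => h j hj (by omega))
    exact PR_trans h1 (PR_step (step_f0 w [] i (by omega) (h i (by omega) (by omega))))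

/-- The head moves in the state `f1` over zeros. -/
lemma run_f1 (w : List (Fin 3)) (p i : ℕ) (hi : p + i ≤ w.length)
    (h : ∀ j (hj : p + j < w.length), j < i → w[p + j] = 0) :
    PR w i (Ph.f1, p + 1, []) (Ph.f1, p + i + 1, []) := by
  induction i with
  | zero => exact PR_refl _ _ _
  | succ i ih =>
    have h1 := ih (by omega) (fun j hj hji => h j hj (by omega))
    exact PR_trans h1 (PR_step (step_f1 w [] (p + i) (by omega) (h i (by omega) (by omega))))

/-- From the start to the cell behind the separator. -/
lemma run_sep (x y : List (Fin 3)) (hx : ∀ a ∈ x, a ≠ 2) :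
    PR (x ++ 2 :: y) (x.length + 2) (Ph.f0, 0, []) (Ph.f1, x.length + 2, []) := by
  have h1 : PR (x ++ 2 :: y) (x.length + 1) (Ph.f0, 0, []) (Ph.f0, x.length + 1, []) := by
    refine run_f0 _ _ (by simp) ?_
    intro j hj hjx
    rw [List.getElem_append_left hjx]
    exact hx _ (List.getElem_mem hjx)
  have h2 : ps (x ++ 2 :: y) (Ph.f0, x.length + 1, []) = (Ph.f1, x.length + 2, []) :=
    step_f0_sep _ [] x.length (by simp) (by simp)
  have h3 := PR_trans h1 (PR_step h2)
  exact h3

/-- A word is without the letter `2`, or it can be split at the first letter `2`. -/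
lemma split_two (w : List (Fin 3)) : (∀ a ∈ w, a ≠ 2) ∨
    ∃ x y : List (Fin 3), (∀ a ∈ x, a ≠ 2) ∧ w = x ++ 2 :: y := by
  induction w with
  | nil => left; simp
  | cons b w ih =>
    by_cases hb : b = 2
    · right
      exact ⟨[], w, by simp, by simp [hb]⟩
    · rcases ih with h | ⟨x, y, hx, hw⟩
      · left
        intro a ha
        rcases List.mem_cons.1 ha with h1 | h1
        · rw [h1]; exact hb
        · exact h a h1
      · right
        refine ⟨b :: x, y, ?_, by simp [hw]⟩
        intro a ha
        rcases List.mem_cons.1 ha with h1 | h1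
        · rw [h1]; exact hb
        · exact hx a h1

/-- A word consists of zeros, or it can be split at the first letter different from `0`. -/
lemma split_zero (y : List (Fin 3)) : (∃ N, y = List.replicate N 0) ∨
    ∃ (i : ℕ) (b : Fin 3) (z : List (Fin 3)), b ≠ 0 ∧ y = List.replicate i 0 ++ b :: z := by
  induction y with
  | nil => left; exact ⟨0, rfl⟩
  | cons a y ih =>
    by_cases ha : a = 0
    · rcases ih with ⟨N, hN⟩ | ⟨i, b, z, hb, hy⟩
      · left
        exact ⟨N + 1, by rw [List.replicate_succ, ← hN, ha]⟩
      · right
        exact ⟨i + 1, b, z, hb, by rw [List.replicate_succ, List.cons_append, ← hy, ha]⟩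
    · right
      exact ⟨0, a, y, ha, rfl⟩

end Pool.Agent.THX.PFMx

namespace Pool.Agent.THX

open Pool.Agent.Heads PFMx

/-- PFM: the check of the form of the word. -/
theorem t_PFM : PFM_Stmt := by
  refine ⟨?_, ?_⟩
  · intro x N hx
    have h1 : PR (wrd x N) (x.length + 2) (Ph.f0, 0, []) (Ph.f1, x.length + 2, []) :=
      run_sep x (List.replicate N 0) hx
    have hlen := wrd_length x N
    have h2 : PR (wrd x N) N (Ph.f1, (x.length + 1) + 1, [])
        (Ph.f1, (x.length + 1) + N + 1, []) := by
      refine run_f1 (wrd x N) (x.length + 1) N (by omega) ?_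
      intro j hj hjN
      have h3 := tape_gap x N (x.length + 1 + j + 1) (by omega) (by omega)
      rw [tape_succ_of_lt _ _ hj] at h3
      injection h3
    have h3 : PR (wrd x N) 1 (Ph.f1, (wrd x N).length + 1, []) (Ph.ck, (wrd x N).length, []) :=
      PR_step (step_f1_right _ _)
    rw [hlen] at h3
    have h4 := PR_trans (PR_trans h1 h2) h3
    exact PR_mono h4 (by omega)
  · intro w hw
    rcases split_two w with h | ⟨x, y, hx, hwd⟩
    · have h1 : PR w (w.length + 1) (Ph.f0, 0, []) (Ph.f0, w.length + 1, []) :=
        run_f0 w w.length le_rfl (fun j hj _ => h _ (List.getElem_mem hj))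
      have h2 : Stuck w (Ph.f0, w.length + 1, []) := by
        unfold Stuck
        simp only
        rw [tape_right w _ le_rfl]
        rfl
      refine ⟨?_, ?_⟩
      · rw [PAcc_iff h1]
        exact PAcc_stuck h2 (by simp)
      · have h3 := Hlt_trans h1 (Hlt_stuck (n := 1) h2)
        exact Hlt_mono h3 (by omega)
    · rcases split_zero y with ⟨N, hN⟩ | ⟨i, b, z, hb, hy⟩
      · exact absurd ⟨x, N, hx, by rw [hwd, hN]; rfl⟩ hw
      · rw [hy] at hwd
        have hlen : w.length = x.length + 1 + i + 1 + z.length := by
          simp [hwd]; omega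
        have h1 : PR w (x.length + 2) (Ph.f0, 0, []) (Ph.f1, x.length + 2, []) := by
          rw [hwd]
          exact run_sep x _ hx
        have hget : ∀ j, x.length + 1 + j < w.length →
            w[x.length + 1 + j]? = (List.replicate i 0 ++ b :: z)[j]? := by
          intro j _
          rw [hwd, List.getElem?_append_right (by omega)]
          have e : x.length + 1 + j - x.length = j + 1 := by omega
          rw [e, List.getElem?_cons_succ]
        have h2 : PR w i (Ph.f1, (x.length + 1) + 1, []) (Ph.f1, (x.length + 1) + i + 1, []) := by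
          refine run_f1 w (x.length + 1) i (by omega) ?_
          intro j hj hji
          have h3 := hget j hj
          rw [List.getElem?_eq_getElem hj] at h3
          rw [List.getElem?_append_left (by simpa using hji),
            List.getElem?_replicate_of_lt hji] at h3
          exact Option.some.inj h3
        have h3 : Stuck w (Ph.f1, (x.length + 1) + i + 1, []) := by
          unfold Stuck
          simp only
          rw [tape_succ_of_lt w (x.length + 1 + i) (by omega)]
          have h4 := hget i (by omega)
          rw [List.getElem?_eq_getElem (by omega : x.length + 1 + i < w.length)] at h4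
          rw [List.getElem?_append_right (by simp)] at h4
          simp only [List.length_replicate, Nat.sub_self, List.getElem?_cons_zero] at h4
          have h5 := Option.some.inj h4
          rw [h5]
          simp [pdf, hb]
        have h4 := PR_trans h1 h2
        refine ⟨?_, ?_⟩
        · rw [PAcc_iff h4]
          exact PAcc_stuck h3 (by simp)
        · have h5 := Hlt_trans h4 (Hlt_stuck (n := 0) h3)
          exact Hlt_mono h5 (by omega)

end Pool.Agent.THX
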