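import Pool.Agent.THX.Stmts
import Pool.Agent.THX.PFM
import Pool.Agent.THX.PLG
import Pool.Agent.THX.PDG

/-!
Project THX (problem MP_5e85fc_lc), module TRI: three heads suffice. The language `LL` is accepted by
a deterministic finite automaton with three two-way heads.

Head `0` compares digits with the letters of `x`, from right to left; the ternary digits of `N` are
computed, the least significant first, by the heads `1` and `2`: one of them (the head `R`) is on the
cell `ℓ + 1 + h`, the other one (the head `T`) on the separator; `R` goes down to the separator and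
`T` goes up to `ℓ + 1 + h / 3`; then they exchange their roles.
-/

set_option autoImplicit false

namespace Pool.Agent.THX

open Pool.Agent.Heads

namespace TRI

/-- The states: before and after the separator in the check of the form of the word; go to the
separator; compare with zero; count down; a digit is known; head `0` goes to the separator; accept.
`b`: the head `R` is the head `2`; `m`: head `0` is in `x` (a digit `2` and the following digits
agree with the letters on the right of head `0`). -/
inductive P3
  | f0 | f1 | g | ck (b m : Bool) | dn (b m : Bool) (j : Fin 3) | pr (b m : Bool) (j : Fin 3)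
  | rs (b : Bool) (j : Fin 3) | ac
  deriving DecidableEq

/-- The role of the head `2`. -/
def role : P3 → Bool
  | P3.ck b _ => b
  | P3.dn b _ _ => b
  | P3.pr b _ _ => b
  | P3.rs b _ => b
  | _ => false

/-- The head `R`. -/
def hd (q : P3) : Fin 3 := if role q then 2 else 1

/-- The transitions: state, symbol scanned by head `0`, symbol scanned by the head `R`; new state,
moves of head `0`, of the head `R` and of the head `T`. -/
def core : P3 → Sym (Fin 3) → Sym (Fin 3) → Option (P3 × Dir × Dir × Dir)
  | P3.f0, Sym.left, _ => some (P3.f0, Dir.R, Dir.R, Dir.R)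
  | P3.f0, Sym.letter a, _ => some (if a = 2 then P3.f1 else P3.f0, Dir.R, Dir.R, Dir.R)
  | P3.f0, Sym.right, _ => none
  | P3.f1, Sym.letter a, _ => if a = 0 then some (P3.f1, Dir.R, Dir.R, Dir.R) else none
  | P3.f1, Sym.right, _ => some (P3.g, Dir.L, Dir.L, Dir.L)
  | P3.f1, Sym.left, _ => none
  | P3.g, Sym.letter a, _ => if a = 2 then some (P3.ck false false, Dir.S, Dir.S, Dir.S)
      else some (P3.g, Dir.L, Dir.S, Dir.L)
  | P3.g, Sym.left, _ => none
  | P3.g, Sym.right, _ => none
  | P3.ck b m, _, Sym.letter a => if a = 2 then none else some (P3.dn b m 0, Dir.S, Dir.S, Dir.S)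
  | P3.ck _ _, _, Sym.left => none
  | P3.ck _ _, _, Sym.right => none
  | P3.dn b m j, _, Sym.letter a => if a = 2 then some (P3.pr b m j, Dir.S, Dir.S, Dir.S)
      else some (P3.dn b m (j + 1), Dir.S, Dir.L, if j = 2 then Dir.R else Dir.S)
  | P3.dn _ _ _, _, Sym.left => none
  | P3.dn _ _ _, _, Sym.right => none
  | P3.pr b false j, _, _ => if j = 2 then some (P3.ck (!b) true, Dir.L, Dir.S, Dir.S)
      else some (P3.ck (!b) false, Dir.S, Dir.S, Dir.S)
  | P3.pr b true j, Sym.left, _ => if j = 2 then some (P3.ac, Dir.S, Dir.S, Dir.S)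
      else some (P3.rs b j, Dir.S, Dir.S, Dir.S)
  | P3.pr b true j, Sym.letter c, _ => if c = j then some (P3.ck (!b) true, Dir.L, Dir.S, Dir.S)
      else some (P3.rs b j, Dir.S, Dir.S, Dir.S)
  | P3.pr _ true _, Sym.right, _ => none
  | P3.rs b j, Sym.letter c, _ => if c = 2 then some (P3.pr b false j, Dir.S, Dir.S, Dir.S)
      else some (P3.rs b j, Dir.R, Dir.S, Dir.S)
  | P3.rs b j, Sym.left, _ => some (P3.rs b j, Dir.R, Dir.S, Dir.S)
  | P3.rs _ _, Sym.right, _ => none
  | P3.ac, _, _ => none

/-- The moves of the three heads. -/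
def mv (q : P3) (v : P3 × Dir × Dir × Dir) : Fin 3 → Dir :=
  fun i => if i = 0 then v.2.1 else if i = hd q then v.2.2.1 else v.2.2.2

/-- The automaton with three heads. -/
def A3 : FA (Fin 3) 3 where
  Q := P3
  finQ := by
    refine Finite.of_injective (β := Fin 4 ⊕ (Bool × Bool) ⊕ (Bool × Bool × Fin 3) ⊕
      (Bool × Bool × Fin 3) ⊕ (Bool × Fin 3)) (fun p => match p with
      | P3.f0 => Sum.inl 0 | P3.f1 => Sum.inl 1 | P3.g => Sum.inl 2 | P3.ac => Sum.inl 3
      | P3.ck b m => Sum.inr (Sum.inl (b, m))
      | P3.dn b m j => Sum.inr (Sum.inr (Sum.inl (b, m, j)))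
      | P3.pr b m j => Sum.inr (Sum.inr (Sum.inr (Sum.inl (b, m, j))))
      | P3.rs b j => Sum.inr (Sum.inr (Sum.inr (Sum.inr (b, j))))) ?_
    intro a b h
    cases a <;> cases b <;> simp_all
  start := P3.f0
  accept := {P3.ac}
  δ q s := {t | ∃ v, core q (s 0) (s (hd q)) = some v ∧ t = (v.1, mv q v)}

/-- Configurations. -/
abbrev C3 := P3 × (Fin 3 → ℕ)

/-- One step as a function. -/
def ts (w : List (Fin 3)) (c : C3) : C3 :=
  match core c.1 (tape w (c.2 0)) (tape w (c.2 (hd c.1))) with
  | none => c
  | some v => (v.1, fun i => move (w.length + 1) (c.2 i) (mv c.1 v i))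

lemma ts_some {w : List (Fin 3)} {c : C3} {v : P3 × Dir × Dir × Dir}
    (h : core c.1 (tape w (c.2 0)) (tape w (c.2 (hd c.1))) = some v) :
    ts w c = (v.1, fun i => move (w.length + 1) (c.2 i) (mv c.1 v i)) := by
  unfold ts
  rw [h]

lemma ts_none {w : List (Fin 3)} {c : C3}
    (h : core c.1 (tape w (c.2 0)) (tape w (c.2 (hd c.1))) = none) : ts w c = c := by
  unfold ts
  rw [h]

/-- `c'` is reached from `c`. -/
def TR (w : List (Fin 3)) (c c' : C3) : Prop := ∃ m, (ts w)^[m] c = c'

/-- The automaton accepts from `c`. -/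
def TA (w : List (Fin 3)) (c : C3) : Prop := ∃ n, ((ts w)^[n] c).1 = P3.ac

lemma TR_refl (w : List (Fin 3)) (c : C3) : TR w c c := ⟨0, rfl⟩

lemma TR_trans {w : List (Fin 3)} {c c' c'' : C3} (h : TR w c c') (h' : TR w c' c'') :
    TR w c c'' := by
  obtain ⟨m, hm⟩ := h
  obtain ⟨m', hm'⟩ := h'
  exact ⟨m' + m, by rw [Function.iterate_add_apply, hm, hm']⟩

lemma TR_step {w : List (Fin 3)} {c c' : C3} (h : ts w c = c') : TR w c c' := ⟨1, h⟩

lemma ts_ac {w : List (Fin 3)} {c : C3} (h : c.1 = P3.ac) : ts w c = c := by
  apply ts_none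
  rw [h]
  rfl

lemma fix_iter {w : List (Fin 3)} {c : C3} (h : ts w c = c) (n : ℕ) : (ts w)^[n] c = c :=
  Function.iterate_fixed h n

lemma TA_iff {w : List (Fin 3)} {c c' : C3} (h : TR w c c') : TA w c ↔ TA w c' := by
  obtain ⟨m, hm⟩ := h
  constructor
  · rintro ⟨n, hn⟩
    rcases Nat.le_total m n with h1 | h1
    · refine ⟨n - m, ?_⟩
      rw [← hm, ← Function.iterate_add_apply, Nat.sub_add_cancel h1]
      exact hn
    · refine ⟨0, ?_⟩
      have e : m = (m - n) + n := by omega
      rw [e, Function.iterate_add_apply, fix_iter (ts_ac hn)] at hm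
      rw [← hm]
      exact hn
  · rintro ⟨n, hn⟩
    refine ⟨n + m, ?_⟩
    rw [Function.iterate_add_apply, hm]
    exact hn

lemma TA_stuck {w : List (Fin 3)} {c : C3}
    (h : core c.1 (tape w (c.2 0)) (tape w (c.2 (hd c.1))) = none) (h2 : c.1 ≠ P3.ac) :
    ¬ TA w c := by
  rintro ⟨n, hn⟩
  rw [fix_iter (ts_none h)] at hn
  exact h2 hn

/-! ### The automaton and the step function -/

lemma A3_det : A3.Det := by
  intro q x t ht t' ht'
  obtain ⟨v, hv, rfl⟩ := ht
  obtain ⟨v', hv', rfl⟩ := ht'
  rw [hv] at hv'
  obtain rfl := Option.some.inj hv'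
  rfl

lemma A3_step {w : List (Fin 3)} {c c' : C3} (h : A3.Step w c c') : ts w c = c' := by
  obtain ⟨t, ⟨v, hv, rfl⟩, rfl⟩ := h
  exact ts_some hv

lemma A3_lang (w : List (Fin 3)) : w ∈ A3.lang ↔ TA w (P3.f0, fun _ => 0) := by
  constructor
  · rintro ⟨c, hc, hac⟩
    have h : ∃ n, (ts w)^[n] (P3.f0, fun _ => 0) = c := by
      clear hac
      induction hc with
      | refl => exact ⟨0, rfl⟩
      | tail _ hs ih =>
        obtain ⟨n, hn⟩ := ih
        exact ⟨n + 1, by rw [Function.iterate_succ_apply', hn]; exact A3_step hs⟩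
    obtain ⟨n, hn⟩ := h
    exact ⟨n, by rw [hn]; exact hac⟩
  · rintro ⟨n, hn⟩
    refine ⟨(ts w)^[n] (P3.f0, fun _ => 0), ?_, hn⟩
    clear hn
    induction n with
    | zero => exact Relation.ReflTransGen.refl
    | succ n ih =>
      rw [Function.iterate_succ_apply']
      set c : C3 := (ts w)^[n] (P3.f0, fun _ => 0) with hc
      cases hp : core c.1 (tape w (c.2 0)) (tape w (c.2 (hd c.1))) with
      | none => rw [ts_none hp]; exact ih
      | some v =>
        rw [ts_some hp]
        exact Relation.ReflTransGen.tail ih ⟨_, ⟨v, hp, rfl⟩, rfl⟩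

/-! ### Configurations with named heads -/

/-- State `q`, head `0` on the cell `X`, the head `R` on the cell `R`, the head `T` on `T`. -/
def cf (q : P3) (X R T : ℕ) : C3 := (q, fun i => if i = 0 then X else if i = hd q then R else T)

lemma hd_ne (q : P3) : hd q ≠ 0 := by
  unfold hd
  split <;> decide

lemma cf_zero (q : P3) (X R T : ℕ) : (cf q X R T).2 0 = X := by simp [cf]

lemma cf_hd (q : P3) (X R T : ℕ) : (cf q X R T).2 (hd q) = R := by simp [cf, hd_ne]

/-- A step without exchange of roles. -/
lemma step_same {w : List (Fin 3)} {q q' : P3} {X R T : ℕ} {dX dR dT : Dir}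
    (h : core q (tape w X) (tape w R) = some (q', dX, dR, dT)) (hr : role q' = role q) :
    TR w (cf q X R T) (cf q' (move (w.length + 1) X dX) (move (w.length + 1) R dR)
      (move (w.length + 1) T dT)) := by
  refine TR_step ?_
  have h1 : core (cf q X R T).1 (tape w ((cf q X R T).2 0))
      (tape w ((cf q X R T).2 (hd (cf q X R T).1))) = some (q', dX, dR, dT) := by
    rw [cf_zero, show (cf q X R T).1 = q from rfl, cf_hd, h]
  rw [ts_some h1]
  have h2 : hd q' = hd q := by unfold hd; rw [hr]
  unfold cf mv
  rw [h2]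
  refine Prod.ext rfl ?_
  funext i
  by_cases h3 : i = 0
  · simp [h3]
  · by_cases h4 : i = hd q
    · simp [h4, hd_ne]
    · simp [h3, h4]

/-- A step with exchange of roles. -/
lemma step_swap {w : List (Fin 3)} {q q' : P3} {X R T : ℕ} {dX dR dT : Dir}
    (h : core q (tape w X) (tape w R) = some (q', dX, dR, dT)) (hr : role q' = !role q) :
    TR w (cf q X R T) (cf q' (move (w.length + 1) X dX) (move (w.length + 1) T dT)
      (move (w.length + 1) R dR)) := by
  refine TR_step ?_
  have h1 : core (cf q X R T).1 (tape w ((cf q X R T).2 0))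
      (tape w ((cf q X R T).2 (hd (cf q X R T).1))) = some (q', dX, dR, dT) := by
    rw [cf_zero, show (cf q X R T).1 = q from rfl, cf_hd, h]
  rw [ts_some h1]
  have h2 : ∀ i : Fin 3, i ≠ 0 → ((i = hd q') ↔ ¬ (i = hd q)) := by
    intro i hi
    unfold hd
    rw [hr]
    cases role q <;> fin_cases i <;> simp_all
  unfold cf mv
  refine Prod.ext rfl ?_
  funext i
  by_cases h3 : i = 0
  · simp [h3]
  · by_cases h4 : i = hd q
    · have h5 : ¬ (i = hd q') := fun h => (h2 i h3).1 h h4
      have h6 : ¬ (hd q = hd q') := by rw [← h4]; exact h5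
      simp [h4, hd_ne, h6]
    · have h5 : i = hd q' := (h2 i h3).2 h4
      have h6 : ¬ (hd q' = hd q) := by rw [← h5]; exact h4
      simp [h5, hd_ne, h6]

/-! ### The phases -/

lemma mvS (n p : ℕ) : move n p Dir.S = p := rfl

lemma mvR {n p : ℕ} (h : p + 1 ≤ n) : move n p Dir.R = p + 1 := by
  simp only [move]; omega

lemma mvL (n p : ℕ) : move n p Dir.L = p - 1 := rfl

/-- The form of the word, first part. -/
lemma run_f0 (w : List (Fin 3)) (i : ℕ) (hi : i ≤ w.length)
    (h : ∀ j (hj : j < w.length), j < i → w[j] ≠ 2) :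
    TR w (cf P3.f0 0 0 0) (cf P3.f0 (i + 1) (i + 1) (i + 1)) := by
  induction i with
  | zero =>
    have h1 := step_same (w := w) (q := P3.f0) (q' := P3.f0) (X := 0) (R := 0) (T := 0)
      (dX := Dir.R) (dR := Dir.R) (dT := Dir.R) rfl rfl
    rwa [mvR (by omega)] at h1
  | succ i ih =>
    have h1 := ih (by omega) (fun j hj hji => h j hj (by omega))
    refine TR_trans h1 ?_
    have h2 : core P3.f0 (tape w (i + 1)) (tape w (i + 1)) =
        some (P3.f0, Dir.R, Dir.R, Dir.R) := by
      rw [tape_succ_of_lt w i (by omega)]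
      simp [core, h i (by omega) (by omega)]
    have h3 := step_same (T := i + 1) h2 rfl
    rwa [mvR (by omega)] at h3

/-- The form of the word, second part. -/
lemma run_f1 (w : List (Fin 3)) (p i : ℕ) (hi : p + i ≤ w.length)
    (h : ∀ j (hj : p + j < w.length), j < i → w[p + j] = 0) :
    TR w (cf P3.f1 (p + 1) (p + 1) (p + 1)) (cf P3.f1 (p + i + 1) (p + i + 1) (p + i + 1)) := by
  induction i with
  | zero => exact TR_refl _ _
  | succ i ih =>
    have h1 := ih (by omega) (fun j hj hji => h j hj (by omega))
    refine TR_trans h1 ?_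
    have h2 : core P3.f1 (tape w (p + i + 1)) (tape w (p + i + 1)) =
        some (P3.f1, Dir.R, Dir.R, Dir.R) := by
      rw [tape_succ_of_lt w (p + i) (by omega)]
      simp [core, h i (by omega) (by omega)]
    have h3 := step_same (T := p + i + 1) h2 rfl
    rwa [mvR (by omega)] at h3

/-- From the start to the cell behind the separator. -/
lemma run_sep (x y : List (Fin 3)) (hx : ∀ a ∈ x, a ≠ 2) :
    TR (x ++ 2 :: y) (cf P3.f0 0 0 0) (cf P3.f1 (x.length + 2) (x.length + 2) (x.length + 2)) := by
  have h1 : TR (x ++ 2 :: y) (cf P3.f0 0 0 0)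
      (cf P3.f0 (x.length + 1) (x.length + 1) (x.length + 1)) := by
    refine run_f0 _ _ (by simp) ?_
    intro j hj hjx
    rw [List.getElem_append_left hjx]
    exact hx _ (List.getElem_mem hjx)
  refine TR_trans h1 ?_
  have h2 : core P3.f0 (tape (x ++ 2 :: y) (x.length + 1)) (tape (x ++ 2 :: y) (x.length + 1)) =
      some (P3.f1, Dir.R, Dir.R, Dir.R) := by
    rw [tape_succ_of_lt _ x.length (by simp)]
    simp [core]
  have h3 := step_same (T := x.length + 1) h2 rfl
  rwa [mvR (by simp)] at h3

/-- Words of another form are not accepted. -/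
lemma reject (w : List (Fin 3)) (hw : ¬ ∃ (x : List (Fin 3)) (N : ℕ), (∀ a ∈ x, a ≠ 2) ∧
    w = wrd x N) : ¬ TA w (cf P3.f0 0 0 0) := by
  rcases PFMx.split_two w with h | ⟨x, y, hx, hwd⟩
  · have h1 := run_f0 w w.length le_rfl (fun j hj _ => h _ (List.getElem_mem hj))
    rw [TA_iff h1]
    refine TA_stuck ?_ (by simp [cf])
    rw [cf_zero, show (cf P3.f0 (w.length + 1) (w.length + 1) (w.length + 1)).1 = P3.f0 from rfl,
      tape_right w _ le_rfl]
    rfl
  · rcases PFMx.split_zero y with ⟨N, hN⟩ | ⟨i, b, z, hb, hy⟩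
    · exact absurd ⟨x, N, hx, by rw [hwd, hN]; rfl⟩ hw
    · rw [hy] at hwd
      have hlen : w.length = x.length + 1 + i + 1 + z.length := by
        simp [hwd]; omega
      have h1 : TR w (cf P3.f0 0 0 0)
          (cf P3.f1 (x.length + 2) (x.length + 2) (x.length + 2)) := by
        rw [hwd]
        exact run_sep x _ hx
      have hget : ∀ j, x.length + 1 + j < w.length →
          w[x.length + 1 + j]? = (List.replicate i 0 ++ b :: z)[j]? := by
        intro j _
        rw [hwd, List.getElem?_append_right (by omega)]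
        have e : x.length + 1 + j - x.length = j + 1 := by omega
        rw [e, List.getElem?_cons_succ]
      have h2 : TR w (cf P3.f1 (x.length + 1 + 1) (x.length + 1 + 1) (x.length + 1 + 1))
          (cf P3.f1 (x.length + 1 + i + 1) (x.length + 1 + i + 1) (x.length + 1 + i + 1)) := by
        refine run_f1 w (x.length + 1) i (by omega) ?_
        intro j hj hji
        have h3 := hget j hj
        rw [List.getElem?_eq_getElem hj] at h3
        rw [List.getElem?_append_left (by simpa using hji),
          List.getElem?_replicate_of_lt hji] at h3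
        exact Option.some.inj h3
      rw [TA_iff (TR_trans h1 h2)]
      refine TA_stuck ?_ (by simp [cf])
      rw [cf_zero, show (cf P3.f1 (x.length + 1 + i + 1) (x.length + 1 + i + 1)
        (x.length + 1 + i + 1)).1 = P3.f1 from rfl,
        tape_succ_of_lt w (x.length + 1 + i) (by omega)]
      have h4 := hget i (by omega)
      rw [List.getElem?_eq_getElem (by omega : x.length + 1 + i < w.length)] at h4
      rw [List.getElem?_append_right (by simp)] at h4
      simp only [List.length_replicate, Nat.sub_self, List.getElem?_cons_zero] at h4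
      have h5 := Option.some.inj h4
      rw [h5]
      simp [core, hb]

/-- The check of the form and the way back to the separator. -/
lemma run_form (x : List (Fin 3)) (N : ℕ) (hx : ∀ a ∈ x, a ≠ 2) :
    TR (wrd x N) (cf P3.f0 0 0 0)
      (cf (P3.ck false false) (x.length + 1) (x.length + 1 + N) (x.length + 1)) := by
  have hlen := wrd_length x N
  have h1 : TR (wrd x N) (cf P3.f0 0 0 0)
      (cf P3.f1 (x.length + 2) (x.length + 2) (x.length + 2)) :=
    run_sep x (List.replicate N 0) hx
  have h2 : TR (wrd x N) (cf P3.f1 (x.length + 1 + 1) (x.length + 1 + 1) (x.length + 1 + 1))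
      (cf P3.f1 (x.length + 1 + N + 1) (x.length + 1 + N + 1) (x.length + 1 + N + 1)) := by
    refine run_f1 (wrd x N) (x.length + 1) N (by omega) ?_
    intro j hj hjN
    have h3 := tape_gap x N (x.length + 1 + j + 1) (by omega) (by omega)
    rw [tape_succ_of_lt _ _ hj] at h3
    injection h3
  have h3 : TR (wrd x N) (cf P3.f1 (x.length + 1 + N + 1) (x.length + 1 + N + 1)
      (x.length + 1 + N + 1)) (cf P3.g (x.length + 1 + N) (x.length + 1 + N)
      (x.length + 1 + N)) := by
    have h4 : core P3.f1 (tape (wrd x N) (x.length + 1 + N + 1))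
        (tape (wrd x N) (x.length + 1 + N + 1)) = some (P3.g, Dir.L, Dir.L, Dir.L) := by
      rw [tape_end x N _ (by omega)]
      rfl
    exact step_same (T := x.length + 1 + N + 1) h4 rfl
  have h5 : ∀ i ≤ N, TR (wrd x N) (cf P3.g (x.length + 1 + N) (x.length + 1 + N)
      (x.length + 1 + N)) (cf P3.g (x.length + 1 + (N - i)) (x.length + 1 + N)
      (x.length + 1 + (N - i))) := by
    intro i
    induction i with
    | zero => intro _; exact TR_refl _ _
    | succ i ih =>
      intro hi
      refine TR_trans (ih (by omega)) ?_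
      have h6 : core P3.g (tape (wrd x N) (x.length + 1 + (N - i)))
          (tape (wrd x N) (x.length + 1 + N)) = some (P3.g, Dir.L, Dir.S, Dir.L) := by
        rw [tape_gap x N _ (by omega) (by omega)]
        rfl
      have h7 := step_same (T := x.length + 1 + (N - i)) h6 rfl
      rw [mvL, mvS] at h7
      rwa [show x.length + 1 + (N - i) - 1 = x.length + 1 + (N - (i + 1)) by omega] at h7
  have h8 := h5 N le_rfl
  rw [Nat.sub_self, Nat.add_zero] at h8
  have h9 : TR (wrd x N) (cf P3.g (x.length + 1) (x.length + 1 + N) (x.length + 1))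
      (cf (P3.ck false false) (x.length + 1) (x.length + 1 + N) (x.length + 1)) := by
    have h10 : core P3.g (tape (wrd x N) (x.length + 1)) (tape (wrd x N) (x.length + 1 + N)) =
        some (P3.ck false false, Dir.S, Dir.S, Dir.S) := by
      rw [tape_sep x N]
      rfl
    exact step_same (T := x.length + 1) h10 rfl
  exact TR_trans (TR_trans (TR_trans (TR_trans h1 h2) h3) h8) h9

lemma core_dn (b m : Bool) (j : Fin 3) (s : Sym (Fin 3)) :
    core (P3.dn b m j) s (Sym.letter 0) =
      some (P3.dn b m (j + 1), Dir.S, Dir.L, if j = 2 then Dir.R else Dir.S) := by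
  cases s <;> rfl

lemma core_ck (b m : Bool) (s : Sym (Fin 3)) :
    core (P3.ck b m) s (Sym.letter 0) = some (P3.dn b m 0, Dir.S, Dir.S, Dir.S) := by
  cases s <;> rfl

/-- Division by three: counting down. -/
lemma dn_run (x : List (Fin 3)) (N h X : ℕ) (b m : Bool) (hN : h ≤ N) : ∀ i ≤ h,
    TR (wrd x N) (cf (P3.dn b m 0) X (x.length + 1 + h) (x.length + 1))
      (cf (P3.dn b m (PDGx.d3 i)) X (x.length + 1 + (h - i)) (x.length + 1 + i / 3)) := by
  intro i
  induction i with
  | zero =>
    intro _
    exact TR_refl _ _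
  | succ i ih =>
    intro hi
    refine TR_trans (ih (by omega)) ?_
    have h1 : core (P3.dn b m (PDGx.d3 i)) (tape (wrd x N) X)
        (tape (wrd x N) (x.length + 1 + (h - i))) =
        some (P3.dn b m (PDGx.d3 i + 1), Dir.S, Dir.L,
          if PDGx.d3 i = 2 then Dir.R else Dir.S) := by
      rw [tape_gap x N (x.length + 1 + (h - i)) (by omega) (by omega)]
      exact core_dn b m _ _
    have h2 := step_same (T := x.length + 1 + i / 3) h1 rfl
    have e1 : PDGx.d3 (i + 1) = PDGx.d3 i + 1 := by
      apply Fin.ext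
      simp only [PDGx.d3, Fin.val_add]
      rw [show ((1 : Fin 3) : ℕ) = 1 from rfl]
      omega
    have e2 : x.length + 1 + (h - i) - 1 = x.length + 1 + (h - (i + 1)) := by omega
    rw [mvS, mvL, e2, ← e1] at h2
    have hv : (PDGx.d3 i : ℕ) = i % 3 := rfl
    have hlen := wrd_length x N
    by_cases hr : PDGx.d3 i = 2
    · rw [hr] at hv
      have h3 : i % 3 = 2 := by rw [← hv]; rfl
      have h4 : (i + 1) / 3 = i / 3 + 1 := by omega
      rw [if_pos hr, mvR (by omega)] at h2
      rw [h4]
      exact h2
    · have h3 : i % 3 ≠ 2 := by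
        intro h4
        apply hr
        apply Fin.ext
        rw [hv, h4]
        rfl
      have h4 : (i + 1) / 3 = i / 3 := by omega
      rw [if_neg hr, mvS] at h2
      rw [h4]
      exact h2

/-- One digit. -/
lemma digit (x : List (Fin 3)) (N h X : ℕ) (b m : Bool) (hN : h ≤ N) (h0 : 1 ≤ h) :
    TR (wrd x N) (cf (P3.ck b m) X (x.length + 1 + h) (x.length + 1))
      (cf (P3.pr b m (PDGx.d3 h)) X (x.length + 1) (x.length + 1 + h / 3)) := by
  have a1 : TR (wrd x N) (cf (P3.ck b m) X (x.length + 1 + h) (x.length + 1))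
      (cf (P3.dn b m 0) X (x.length + 1 + h) (x.length + 1)) := by
    have h1 : core (P3.ck b m) (tape (wrd x N) X) (tape (wrd x N) (x.length + 1 + h)) =
        some (P3.dn b m 0, Dir.S, Dir.S, Dir.S) := by
      rw [tape_gap x N (x.length + 1 + h) (by omega) (by omega)]
      exact core_ck b m _
    exact step_same (T := x.length + 1) h1 rfl
  have a2 := dn_run x N h X b m hN h le_rfl
  rw [Nat.sub_self, Nat.add_zero] at a2
  have a3 : TR (wrd x N) (cf (P3.dn b m (PDGx.d3 h)) X (x.length + 1) (x.length + 1 + h / 3))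
      (cf (P3.pr b m (PDGx.d3 h)) X (x.length + 1) (x.length + 1 + h / 3)) := by
    have h1 : core (P3.dn b m (PDGx.d3 h)) (tape (wrd x N) X) (tape (wrd x N) (x.length + 1)) =
        some (P3.pr b m (PDGx.d3 h), Dir.S, Dir.S, Dir.S) := by
      rw [tape_sep x N]
      simp [core]
    exact step_same (T := x.length + 1 + h / 3) h1 rfl
  exact TR_trans (TR_trans a1 a2) a3

/-- Head `0` goes back to the separator. -/
lemma run_rs (x : List (Fin 3)) (N i R T : ℕ) (b : Bool) (j : Fin 3) (hx : ∀ a ∈ x, a ≠ 2)
    (hi : i ≤ x.length) :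
    TR (wrd x N) (cf (P3.rs b j) (x.length - i) R T)
      (cf (P3.pr b false j) (x.length + 1) R T) := by
  have hlen := wrd_length x N
  have h1 : ∀ k ≤ x.length, TR (wrd x N) (cf (P3.rs b j) k R T)
      (cf (P3.rs b j) (k + 1) R T) := by
    intro k hk
    have h2 : core (P3.rs b j) (tape (wrd x N) k) (tape (wrd x N) R) =
        some (P3.rs b j, Dir.R, Dir.S, Dir.S) := by
      rcases k with _ | k
      · rfl
      · rw [tape_x x N k (by omega)]
        simp [core, hx _ (List.getElem_mem (by omega : k < x.length))]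
    have h3 := step_same (T := T) h2 rfl
    rwa [mvR (by omega)] at h3
  have h4 : TR (wrd x N) (cf (P3.rs b j) (x.length + 1) R T)
      (cf (P3.pr b false j) (x.length + 1) R T) := by
    have h5 : core (P3.rs b j) (tape (wrd x N) (x.length + 1)) (tape (wrd x N) R) =
        some (P3.pr b false j, Dir.S, Dir.S, Dir.S) := by
      rw [tape_sep x N]
      rfl
    exact step_same (T := T) h5 rfl
  induction i with
  | zero => exact TR_trans (h1 _ le_rfl) h4
  | succ i ih =>
    refine TR_trans (h1 _ (by omega)) ?_
    rw [show x.length - (i + 1) + 1 = x.length - i by omega]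
    exact ih (by omega)

/-! ### The comparison -/

/-- The factor which is looked for in the list of digits (the least significant one first). -/
def pat (x : List (Fin 3)) : List ℕ := 2 :: ((x.map Fin.val).reverse ++ [2])

/-- The rest of the factor if head `0` is on the cell `i`. -/
def rst (x : List (Fin 3)) (i : ℕ) : List ℕ := ((x.map Fin.val).take i).reverse ++ [2]

lemma pat_eq (x : List (Fin 3)) : pat x = 2 :: rst x x.length := by
  unfold pat rst
  rw [List.take_of_length_le (by simp)]

lemma rst_succ (x : List (Fin 3)) (i : ℕ) (h : i < x.length) :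
    rst x (i + 1) = (x[i] : ℕ) :: rst x i := by
  unfold rst
  rw [List.take_add_one, List.getElem?_eq_getElem (by simpa using h)]
  simp

/-- The digit of the state `j` when head `0` is on the separator. -/
lemma off_case (x : List (Fin 3)) (N R T : ℕ) (b : Bool) (j : Fin 3) (D : List ℕ)
    (ih1 : TA (wrd x N) (cf (P3.ck (!b) false) (x.length + 1) T R) ↔ pat x <:+: D)
    (ih2 : TA (wrd x N) (cf (P3.ck (!b) true) x.length T R) ↔
      rst x x.length <+: D ∨ pat x <:+: D) :
    TA (wrd x N) (cf (P3.pr b false j) (x.length + 1) R T) ↔ pat x <:+: (j : ℕ) :: D := by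
  by_cases hj : j = 2
  · have h1 : core (P3.pr b false j) (tape (wrd x N) (x.length + 1)) (tape (wrd x N) R) =
        some (P3.ck (!b) true, Dir.L, Dir.S, Dir.S) := by
      simp [core, hj]
    have h2 := step_swap (T := T) h1 rfl
    rw [mvL, mvS, mvS, Nat.add_sub_cancel] at h2
    rw [TA_iff h2, ih2, List.infix_cons_iff, pat_eq, List.cons_prefix_cons, hj]
    simp
  · have h1 : core (P3.pr b false j) (tape (wrd x N) (x.length + 1)) (tape (wrd x N) R) =
        some (P3.ck (!b) false, Dir.S, Dir.S, Dir.S) := by
      simp [core, hj]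
    have h2 := step_swap (T := T) h1 rfl
    rw [mvS, mvS, mvS] at h2
    have hj2 : ¬ (2 = (j : ℕ)) := fun h => hj (Fin.ext h.symm)
    rw [TA_iff h2, ih1, List.infix_cons_iff, pat_eq, List.cons_prefix_cons]
    simp [hj2]

/-- The comparison of the digits of `h`. -/
lemma main (x : List (Fin 3)) (N : ℕ) (hx : ∀ a ∈ x, a ≠ 2) : ∀ h ≤ N, ∀ b : Bool,
    (TA (wrd x N) (cf (P3.ck b false) (x.length + 1) (x.length + 1 + h) (x.length + 1)) ↔
      pat x <:+: Nat.digits 3 h) ∧
    ∀ i ≤ x.length,
      (TA (wrd x N) (cf (P3.ck b true) i (x.length + 1 + h) (x.length + 1)) ↔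
        rst x i <+: Nat.digits 3 h ∨ pat x <:+: Nat.digits 3 h) := by
  intro h
  induction h using Nat.strong_induction_on with
  | _ h ih =>
    intro hN b
    rcases Nat.eq_zero_or_pos h with h0 | h0
    · subst h0
      have h1 : ∀ (m : Bool) (X : ℕ), ¬ TA (wrd x N)
          (cf (P3.ck b m) X (x.length + 1 + 0) (x.length + 1)) := by
        intro m X
        refine TA_stuck ?_ (by simp [cf])
        rw [cf_zero, show (cf (P3.ck b m) X (x.length + 1 + 0) (x.length + 1)).1 = P3.ck b m
          from rfl, cf_hd, Nat.add_zero, tape_sep x N]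
        simp [core]
      refine ⟨?_, ?_⟩
      · constructor
        · intro h2; exact absurd h2 (h1 _ _)
        · intro h2
          simp [pat] at h2
      · intro i _
        constructor
        · intro h2; exact absurd h2 (h1 _ _)
        · intro h2
          simp [pat, rst] at h2
    · have hd3 : Nat.digits 3 h = ((PDGx.d3 h : Fin 3) : ℕ) :: Nat.digits 3 (h / 3) := by
        rw [Nat.digits_def' (by norm_num) h0]
        rfl
      have ih' := ih (h / 3) (Nat.div_lt_self h0 (by norm_num))
        (le_trans (Nat.div_le_self _ _) hN) (!b)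
      have hoff := off_case x N (x.length + 1) (x.length + 1 + h / 3) b (PDGx.d3 h)
        (Nat.digits 3 (h / 3)) ih'.1 (ih'.2 _ le_rfl)
      refine ⟨?_, ?_⟩
      · rw [TA_iff (digit x N h _ b false hN h0), hoff, hd3]
      · intro i hi
        rw [TA_iff (digit x N h _ b true hN h0), hd3]
        set j := PDGx.d3 h with hj
        set D := Nat.digits 3 (h / 3) with hD
        rcases i with _ | i
        · by_cases hj2 : j = 2
          · have h1 : core (P3.pr b true j) (tape (wrd x N) 0) (tape (wrd x N) (x.length + 1)) =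
                some (P3.ac, Dir.S, Dir.S, Dir.S) := by
              simp [core, hj2, tape_zero]
            constructor
            · intro _
              left
              rw [hj2]
              simp [rst]
            · intro _
              refine ⟨1, ?_⟩
              have h2 : ts (wrd x N) (cf (P3.pr b true j) 0 (x.length + 1)
                  (x.length + 1 + h / 3)) = _ := ts_some (v := (P3.ac, Dir.S, Dir.S, Dir.S)) (by
                rw [cf_zero, show (cf (P3.pr b true j) 0 (x.length + 1)
                  (x.length + 1 + h / 3)).1 = P3.pr b true j from rfl, cf_hd, h1])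
              rw [Function.iterate_one, h2]
          · have h1 : core (P3.pr b true j) (tape (wrd x N) 0) (tape (wrd x N) (x.length + 1)) =
                some (P3.rs b j, Dir.S, Dir.S, Dir.S) := by
              simp [core, hj2, tape_zero]
            have h2 := step_same (T := x.length + 1 + h / 3) h1 rfl
            rw [mvS, mvS, mvS] at h2
            have h3 := run_rs x N x.length (x.length + 1) (x.length + 1 + h / 3) b j hx le_rfl
            rw [Nat.sub_self] at h3
            rw [TA_iff (TR_trans h2 h3), hoff]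
            have hj3 : ¬ (2 = (j : ℕ)) := fun h => hj2 (Fin.ext h.symm)
            simp [rst, hj3]
        · have hi' : i < x.length := by omega
          have ht := tape_x x N i hi'
          have hne := hx _ (List.getElem_mem hi')
          by_cases hj2 : x[i] = j
          · have h1 : core (P3.pr b true j) (tape (wrd x N) (i + 1))
                (tape (wrd x N) (x.length + 1)) =
                some (P3.ck (!b) true, Dir.L, Dir.S, Dir.S) := by
              rw [ht]
              simp [core, hj2]
            have h2 := step_swap (T := x.length + 1 + h / 3) h1 rfl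
            rw [mvS, mvS, mvL, Nat.add_sub_cancel] at h2
            rw [TA_iff h2, ih'.2 i (by omega), rst_succ x i hi', List.cons_prefix_cons,
              List.infix_cons_iff, pat_eq, List.cons_prefix_cons]
            have hj3 : ¬ (2 = (j : ℕ)) := by
              intro h3
              apply hne
              rw [hj2]
              exact Fin.ext h3.symm
            simp [hj2, hj3]
          · have h1 : core (P3.pr b true j) (tape (wrd x N) (i + 1))
                (tape (wrd x N) (x.length + 1)) =
                some (P3.rs b j, Dir.S, Dir.S, Dir.S) := by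
              rw [ht]
              simp [core, hj2]
            have h2 := step_same (T := x.length + 1 + h / 3) h1 rfl
            rw [mvS, mvS, mvS] at h2
            have h3 := run_rs x N (x.length - (i + 1)) (x.length + 1) (x.length + 1 + h / 3) b j
              hx (by omega)
            rw [show x.length - (x.length - (i + 1)) = i + 1 by omega] at h3
            rw [TA_iff (TR_trans h2 h3), hoff, rst_succ x i hi', List.cons_prefix_cons]
            have hj3 : ¬ ((x[i] : ℕ) = (j : ℕ)) := fun h => hj2 (Fin.ext h)
            simp [hj3]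

lemma pat_iff (x : List (Fin 3)) (D : List ℕ) :
    pat x <:+: D ↔ (2 :: (x.map Fin.val ++ [2])) <:+: D.reverse := by
  rw [← List.reverse_infix]
  unfold pat
  simp

end TRI

/-- Three heads suffice. -/
theorem t_TRI : ∃ M : FA (Fin 3) 3, M.Det ∧ M.lang = LL := by
  refine ⟨TRI.A3, TRI.A3_det, ?_⟩
  ext w
  have h0 : ((TRI.P3.f0, fun _ => 0) : TRI.C3) = TRI.cf TRI.P3.f0 0 0 0 := by
    unfold TRI.cf
    refine Prod.ext rfl ?_
    funext i
    simp
  rw [TRI.A3_lang w, h0]
  by_cases hw : ∃ (x : List (Fin 3)) (N : ℕ), (∀ a ∈ x, a ≠ 2) ∧ w = wrd x N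
  · obtain ⟨x, N, hx, rfl⟩ := hw
    rw [TRI.TA_iff (TRI.run_form x N hx), (TRI.main x N hx N le_rfl false).1, TRI.pat_iff]
    constructor
    · intro h
      exact ⟨x, N, hx, rfl, h⟩
    · rintro ⟨y, M, hy, h, hi⟩
      obtain ⟨rfl, rfl⟩ := PLGx.wrd_inj hx hy h
      exact hi
  · constructor
    · intro h
      exact absurd h (TRI.reject w hw)
    · rintro ⟨x, N, hx, h, -⟩
      exact absurd ⟨x, N, hx, h⟩ hw

end Pool.Agent.THX
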