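import Pool.Agent.THX.StmtsB
import Pool.Agent.THX.CNT

/-!
Project THX (problem MP_5e85fc_lc), module AV4: two heads are useless on average, assembly.
-/

set_option autoImplicit false

namespace Pool.Agent.THX

open Pool.Agent.Heads

namespace AV4x

open scoped Classical in
/-- Counting pairs (element, set) by functions. -/
theorem card_pairs {X : Type} [Fintype X] (R : X → Finset X → Prop) :
    (Nat.card {p : X × Finset X // R p.1 p.2} : ℝ) =
      ∑ A : X → Bool, ((Finset.univ.filter fun x =>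
        R x (Finset.univ.filter fun y => A y = true)).card : ℝ) := by
  have h1 : Nat.card {p : X × Finset X // R p.1 p.2} =
      ∑ S : Finset X, (Finset.univ.filter fun x => R x S).card := by
    rw [Nat.card_eq_fintype_card, Fintype.card_subtype]
    rw [Finset.card_filter, ← Finset.univ_product_univ, Finset.sum_product_right]
    refine Finset.sum_congr rfl fun S _ => ?_
    rw [Finset.card_filter]
  rw [h1, Nat.cast_sum]
  refine (Finset.sum_bij (fun (A : X → Bool) _ => Finset.univ.filter fun y => A y = true)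
    (fun _ _ => Finset.mem_univ _) ?_ ?_ ?_).symm
  · intro A _ B _ h
    funext y
    have h2 : y ∈ (Finset.univ.filter fun y => A y = true) ↔
        y ∈ (Finset.univ.filter fun y => B y = true) := by
      have h3 : (Finset.univ.filter fun y => A y = true) =
        (Finset.univ.filter fun y => B y = true) := h
      rw [h3]
    simp only [Finset.mem_filter, Finset.mem_univ, true_and] at h2
    cases hA : A y <;> cases hB : B y <;> simp_all
  · intro S _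
    refine ⟨fun y => decide (y ∈ S), Finset.mem_univ _, ?_⟩
    ext y
    simp
  · intro A _
    rfl

theorem card_filter_eq {X : Type} (i0 i0' : Fintype X) (p q : X → Prop) (i1 : DecidablePred p)
    (i2 : DecidablePred q) (h : ∀ x, p x ↔ q x) :
    (@Finset.filter X p i1 (@Finset.univ X i0)).card =
      (@Finset.filter X q i2 (@Finset.univ X i0')).card := by
  congr 1
  ext x
  simp [h x]

/-- The last estimate. -/
theorem fin_bound {ℓ z : ℕ} (h : z ^ 3 ≤ 2 ^ ℓ) :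
    Real.sqrt ((z : ℝ) * 2 ^ ℓ / 2) ≤ 2 ^ ℓ * (2 : ℝ) ^ (-(ℓ : ℝ) / 3) := by
  have h2 : (0 : ℝ) < (2 : ℝ) ^ ((ℓ : ℝ) / 3) := Real.rpow_pos_of_pos (by norm_num) _
  have hz : (z : ℝ) ≤ (2 : ℝ) ^ ((ℓ : ℝ) / 3) := by
    have h3 : ((z : ℝ)) ^ 3 ≤ ((2 : ℝ) ^ ((ℓ : ℝ) / 3)) ^ 3 := by
      have h4 : ((2 : ℝ) ^ ((ℓ : ℝ) / 3)) ^ 3 = 2 ^ ℓ := by
        rw [← Real.rpow_natCast ((2 : ℝ) ^ ((ℓ : ℝ) / 3)) 3, ← Real.rpow_mul (by norm_num),
          ← Real.rpow_natCast (2 : ℝ) ℓ]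
        congr 1
        push_cast
        ring
      rw [h4]
      exact_mod_cast h
    exact le_of_pow_le_pow_left₀ (by norm_num) h2.le h3
  have e1 : (2 : ℝ) ^ (-(ℓ : ℝ) / 3) = ((2 : ℝ) ^ ((ℓ : ℝ) / 3))⁻¹ := by
    rw [← Real.rpow_neg (by norm_num)]
    congr 1
    ring
  rw [e1]
  set r := (2 : ℝ) ^ ((ℓ : ℝ) / 3) with hr
  have hr3 : r ^ 3 = 2 ^ ℓ := by
    rw [hr, ← Real.rpow_natCast ((2 : ℝ) ^ ((ℓ : ℝ) / 3)) 3, ← Real.rpow_mul (by norm_num),
      ← Real.rpow_natCast (2 : ℝ) ℓ]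
    congr 1
    push_cast
    ring
  have e2 : (2 : ℝ) ^ ℓ * r⁻¹ = r ^ 2 := by
    rw [← hr3]
    field_simp
  rw [e2, ← hr3]
  apply Real.sqrt_le_iff.2
  refine ⟨by positivity, ?_⟩
  have h5 : (z : ℝ) * r ^ 3 ≤ r * r ^ 3 := mul_le_mul_of_nonneg_right hz (by positivity)
  have h6 : (0 : ℝ) ≤ r ^ 4 := by positivity
  nlinarith

end AV4x

open CNTx AV4x

theorem t_AV4 (hEQV : EQV_Stmt) (hDGT : DGT_Stmt) (hFAC : FAC_Stmt) (hAV2 : AV2_Stmt)
    (hAV3 : AV3_Stmt) : AV4_Stmt := by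
  classical
  intro ℓ hℓ
  choose N hN1 hN2 hN3 using fun S : Finset (Fin ℓ → Bool) => hDGT ℓ (ℓ ^ 2) S
  refine ⟨N, ?_, hN3, ?_⟩
  · intro A
    refine ((hN2 A).le.trans ?_).trans (hAV3.2 ℓ hℓ)
    refine Nat.pow_le_pow_right (by norm_num) ?_
    have h1 : A.card ≤ 2 ^ ℓ := by
      have := Finset.card_le_univ A
      rwa [Fintype.card_fun, Fintype.card_bool, Fintype.card_fin] at this
    exact Nat.add_le_add_left (Nat.mul_le_mul_left _ h1) _
  intro M hM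
  obtain ⟨hF, T, hT⟩ := hFAC M
  have e : Nat.card M.Q = Fintype.card M.Q := Nat.card_eq_fintype_card
  have hs : 1 ≤ Fintype.card M.Q := Fintype.card_pos_iff.2 ⟨M.start⟩
  rw [e] at hM
  obtain ⟨p1, p2, p3⟩ := hAV3.1 ℓ (Fintype.card M.Q) hℓ hs hM
  have hN0 : ∀ A, 8 * KK M.Q ℓ + 8 ≤ N A := fun A => p1.trans (hN1 A)
  have hlen : ∀ f : Fin ℓ → Bool, (wd f).length = ℓ := by
    intro f
    unfold wd
    rw [List.length_ofFn]
  let S : ((Fin ℓ → Bool) → Bool) → Finset (Fin ℓ → Bool) :=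
    fun A => Finset.univ.filter fun y => A y = true
  have hL : (0 : ℝ) < (ℓ : ℝ) ^ 10 := by
    have : (0 : ℝ) < ℓ := by
      have : 0 < ℓ := by omega
      exact_mod_cast this
    positivity
  have hTy : (Fintype.card (Ty M.Q ℓ) : ℝ) ≤ Real.exp ((ℓ : ℝ) ^ 10) := by
    have h1 : Fintype.card (Ty M.Q ℓ) ≤ 2 ^ (ℓ ^ 10) := by
      rw [card_Ty]
      exact p2
    have h2 : (Fintype.card (Ty M.Q ℓ) : ℝ) ≤ (2 : ℝ) ^ (ℓ ^ 10) := by exact_mod_cast h1
    refine h2.trans ?_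
    have h3 : (2 : ℝ) ≤ Real.exp 1 := by
      have := Real.add_one_le_exp (1 : ℝ)
      linarith
    calc (2 : ℝ) ^ (ℓ ^ 10) ≤ (Real.exp 1) ^ (ℓ ^ 10) :=
          pow_le_pow_left₀ (by norm_num) h3 _
      _ = Real.exp ((ℓ : ℝ) ^ 10) := by
          rw [← Real.exp_nat_mul]
          congr 1
          push_cast
          ring
  have key := hAV2 (Fin ℓ → Bool) (Ft M.Q ℓ) (Ty M.Q ℓ) (fun f => T.ex ℓ (wd f))
    (fun F A => T.ty ℓ F (N (S A)))
    (fun f A => decide (T.Acc (wrd (wd f) (N (S A))) (T.start, fun _ => 0))) ((ℓ : ℝ) ^ 10) hL hTy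
    (by
      intro f A A' h
      have := hEQV M.Q T ℓ (N (S A)) (N (S A')) (wd f) (hlen f) (hN0 _) (hN0 _) h
      exact decide_eq_decide.2 this)
  have hcard : (Nat.card {p : (Fin ℓ → Bool) × Finset (Fin ℓ → Bool) //
      (wrd (wd p.1) (N p.2) ∈ M.lang ↔ wrd (wd p.1) (N p.2) ∈ LL)} : ℝ) =
      ∑ A : (Fin ℓ → Bool) → Bool, ((Finset.univ.filter fun f =>
        decide (T.Acc (wrd (wd f) (N (S A))) (T.start, fun _ => 0)) = A f).card : ℝ) := by
    rw [card_pairs (X := Fin ℓ → Bool)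
      (fun f B => (wrd (wd f) (N B) ∈ M.lang ↔ wrd (wd f) (N B) ∈ LL))]
    have hu : ∀ (i1 i2 : Fintype ((Fin ℓ → Bool) → Bool)) (a b : ((Fin ℓ → Bool) → Bool) → ℝ),
        (∀ A, a A = b A) → (@Finset.univ _ i1).sum a = (@Finset.univ _ i2).sum b := by
      intro i1 i2 a b hab
      rw [Subsingleton.elim i1 i2]
      exact Finset.sum_congr rfl fun A _ => hab A
    apply hu
    intro A
    refine congrArg Nat.cast (card_filter_eq _ _ _ _ _ _ fun f => ?_)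
    rw [hT, hN3]
    simp only [Finset.mem_filter, Finset.mem_univ, true_and]
    cases hA : A f <;> simp [S]
  rw [hcard]
  have hX : Fintype.card (Fin ℓ → Bool) = 2 ^ ℓ := by
    rw [Fintype.card_fun, Fintype.card_bool, Fintype.card_fin]
  rw [hX] at key
  refine key.trans ?_
  have hz : (((1 + Fintype.card M.Q * (2 * (Fintype.card M.Q * (ℓ + 2)) + 1)) ^
      (2 * Fintype.card M.Q) * ℓ ^ 10 : ℕ)) ^ 3 ≤ 2 ^ ℓ := p3
  have hb := fin_bound hz
  have hI : (Fintype.card (Ft M.Q ℓ) : ℝ) * ((2 ^ ℓ : ℕ) : ℝ) * (ℓ : ℝ) ^ 10 / 2 =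
      (((1 + Fintype.card M.Q * (2 * (Fintype.card M.Q * (ℓ + 2)) + 1)) ^
      (2 * Fintype.card M.Q) * ℓ ^ 10 : ℕ) : ℝ) * 2 ^ ℓ / 2 := by
    rw [card_Ft]
    unfold KK
    push_cast
    ring
  rw [hI]
  push_cast at hb ⊢
  have h2 : (0 : ℝ) < (2 : ℝ) ^ (2 ^ ℓ) := by positivity
  calc (2 : ℝ) ^ (2 ^ ℓ) * (2 ^ ℓ / 2 + _) ≤
        (2 : ℝ) ^ (2 ^ ℓ) * (2 ^ ℓ / 2 + 2 ^ ℓ * (2 : ℝ) ^ (-(ℓ : ℝ) / 3)) :=
        mul_le_mul_of_nonneg_left (by linarith) h2.le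
    _ = _ := by ring

end Pool.Agent.THX
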