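import Pool.Agent.THX.Defs

/-!
Project THX (problem MP_5e85fc_lc): basic facts.
-/

set_option autoImplicit false

namespace Pool.Agent.THX

open Pool.Agent.Heads

/-! ### Words -/

lemma wrd_length (x : List (Fin 3)) (N : ℕ) : (wrd x N).length = x.length + 1 + N := by
  simp [wrd]; omega

lemma wd_length {ℓ : ℕ} (f : Fin ℓ → Bool) : (wd f).length = ℓ := by simp [wd]

lemma wd_ne {ℓ : ℕ} (f : Fin ℓ → Bool) : ∀ a ∈ wd f, a ≠ 2 := by
  intro a ha
  simp only [wd, List.mem_ofFn] at ha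
  obtain ⟨i, rfl⟩ := ha
  split <;> decide

lemma wd_inj {ℓ : ℕ} {f g : Fin ℓ → Bool} (h : wd f = wd g) : f = g := by
  unfold wd at h
  have h2 := List.ofFn_injective h
  funext i
  have h3 := congrFun h2 i
  by_cases hf : f i <;> by_cases hg : g i <;> simp_all

/-! ### Tapes -/

lemma tape_succ_of_lt (w : List (Fin 3)) (i : ℕ) (h : i < w.length) :
    tape w (i + 1) = Sym.letter w[i] := by
  simp [tape, List.getElem?_eq_getElem h]

lemma tape_zero (w : List (Fin 3)) : tape w 0 = Sym.left := rfl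

lemma tape_right (w : List (Fin 3)) (p : ℕ) (h : w.length + 1 ≤ p) : tape w p = Sym.right := by
  obtain ⟨i, rfl⟩ : ∃ i, p = i + 1 := ⟨p - 1, by omega⟩
  have h2 : w[i]? = none := List.getElem?_eq_none (by omega)
  simp [tape, h2]

lemma tape_x (x : List (Fin 3)) (N i : ℕ) (h : i < x.length) :
    tape (wrd x N) (i + 1) = Sym.letter x[i] := by
  rw [tape_succ_of_lt _ _ (by rw [wrd_length]; omega)]
  simp [wrd, List.getElem_append_left h]

lemma tape_sep (x : List (Fin 3)) (N : ℕ) : tape (wrd x N) (x.length + 1) = Sym.letter 2 := by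
  rw [tape_succ_of_lt _ _ (by rw [wrd_length]; omega)]
  simp [wrd]

lemma tape_gap (x : List (Fin 3)) (N p : ℕ) (h : x.length + 2 ≤ p) (h2 : p ≤ x.length + 1 + N) :
    tape (wrd x N) p = Sym.letter 0 := by
  obtain ⟨i, rfl⟩ : ∃ i, p = (x.length + 1 + i) + 1 := ⟨p - (x.length + 2), by omega⟩
  rw [tape_succ_of_lt _ _ (by rw [wrd_length]; omega)]
  congr 1
  simp only [wrd]
  rw [List.getElem_append_right (by omega)]
  have e : x.length + 1 + i - x.length = i + 1 := by omega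
  simp [e]

lemma tape_end (x : List (Fin 3)) (N p : ℕ) (h : x.length + 2 + N ≤ p) :
    tape (wrd x N) p = Sym.right := tape_right _ _ (by rw [wrd_length]; omega)

lemma tape_low (x : List (Fin 3)) (N p : ℕ) (h : p ≤ x.length + 1) :
    tape (wrd x N) p = tape (wrd x 0) p := by
  rcases p with _ | i
  · rfl
  · rcases Nat.lt_or_ge i x.length with h1 | h1
    · rw [tape_x _ _ _ h1, tape_x _ _ _ h1]
    · have : i = x.length := by omega
      subst this
      rw [tape_sep, tape_sep]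

/-! ### Head positions -/

lemma move_le (N p : ℕ) (d : Dir) (h : p ≤ N) : move N p d ≤ N := by
  cases d <;> simp [move] <;> omega

lemma move_le_succ (N p : ℕ) (d : Dir) : move N p d ≤ p + 1 := by
  cases d <;> simp [move]; omega

lemma le_move_succ (N p : ℕ) (d : Dir) (h : p ≤ N) : p ≤ move N p d + 1 := by
  cases d <;> simp [move] <;> omega

lemma move_eq (N p : ℕ) (d : Dir) (h : p + 1 ≤ N) : move N p d = ((p : ℤ) + dz d).toNat := by
  cases d <;> simp [move, dz] <;> omega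

lemma abs_dz (d : Dir) : |dz d| ≤ 1 := by cases d <;> simp [dz]

lemma dz_bounds (d : Dir) : -1 ≤ dz d ∧ dz d ≤ 1 := by cases d <;> simp [dz]

@[simp] lemma two_same (a : Bool) (p d : ℕ) : two a p d a = p := by simp [two]

@[simp] lemma two_not (a : Bool) (p d : ℕ) : two a p d (!a) = d := by cases a <;> simp [two]

lemma two_swap (a : Bool) (p d : ℕ) : two a p d = two (!a) d p := by
  funext b
  cases a <;> cases b <;> simp [two]

lemma eq_two (f : Bool → ℕ) (a : Bool) : f = two a (f a) (f !a) := by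
  funext b
  cases a <;> cases b <;> simp [two]

/-! ### Displacements -/

lemma dsp_zero {U : Type} (f : U → U) (w : U → ℤ) (u : U) : dsp f w u 0 = 0 := by simp [dsp]

lemma dsp_succ {U : Type} (f : U → U) (w : U → ℤ) (u : U) (t : ℕ) :
    dsp f w u (t + 1) = dsp f w u t + w (f^[t] u) := by
  simp [dsp, Finset.sum_range_succ]

lemma dsp_add {U : Type} (f : U → U) (w : U → ℤ) (u : U) (s t : ℕ) :
    dsp f w u (s + t) = dsp f w u s + dsp f w (f^[s] u) t := by
  induction t with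
  | zero => simp [dsp_zero]
  | succ t ih =>
    rw [← Nat.add_assoc, dsp_succ, dsp_succ, ih]
    have : f^[s + t] u = f^[t] (f^[s] u) := by
      rw [Nat.add_comm, Function.iterate_add_apply]
    rw [this]; ring

lemma abs_dsp_le {U : Type} (f : U → U) (w : U → ℤ) (hw : ∀ v, |w v| ≤ 1) (u : U) (t : ℕ) :
    |dsp f w u t| ≤ t := by
  induction t with
  | zero => simp [dsp_zero]
  | succ t ih =>
    rw [dsp_succ]
    have := hw (f^[t] u)
    have := abs_add_le (dsp f w u t) (w (f^[t] u))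
    push_cast
    omega

lemma abs_bw {Q : Type} (M : TH Q) (x : List (Fin 3)) (a : Bool) (u : Q × ℕ) :
    |M.bw x a u| ≤ 1 := abs_dz _

lemma abs_bz_le {Q : Type} (M : TH Q) (x : List (Fin 3)) (a : Bool) (u : Q × ℕ) (t : ℕ) :
    |dsp (M.bs x a) (M.bw x a) u t| ≤ t := abs_dsp_le _ _ (abs_bw M x a) u t

/-! ### Acceptance -/

variable {Q : Type}

lemma step_acc (M : TH Q) (w : List (Fin 3)) (c : Cf Q) (h : c.1 ∈ M.acc) : M.step w c = c := by
  obtain ⟨q, f⟩ := c
  simp only [TH.step, TH.rd, M.abs q h]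
  rfl

lemma iter_acc (M : TH Q) (w : List (Fin 3)) (c : Cf Q) (h : c.1 ∈ M.acc) (n : ℕ) :
    (M.step w)^[n] c = c := by
  induction n with
  | zero => rfl
  | succ n ih => rw [Function.iterate_succ_apply, step_acc M w c h, ih]

/-- Accepting states persist. -/
lemma acc_mono (M : TH Q) (w : List (Fin 3)) (c : Cf Q) (m n : ℕ) (hmn : m ≤ n)
    (h : ((M.step w)^[m] c).1 ∈ M.acc) : (M.step w)^[n] c = (M.step w)^[m] c := by
  obtain ⟨k, rfl⟩ := Nat.exists_eq_add_of_le hmn
  rw [Nat.add_comm, Function.iterate_add_apply, iter_acc M w _ h]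

lemma acc_iter (M : TH Q) (w : List (Fin 3)) (c : Cf Q) (m : ℕ) :
    M.Acc w ((M.step w)^[m] c) ↔ M.Acc w c := by
  constructor
  · rintro ⟨n, hn⟩
    exact ⟨n + m, by rwa [Function.iterate_add_apply]⟩
  · rintro ⟨n, hn⟩
    refine ⟨n, ?_⟩
    rw [← Function.iterate_add_apply]
    rw [acc_mono M w c n (n + m) (Nat.le_add_right _ _) hn]
    exact hn

/-! ### The pushdown automaton -/

lemma PR_refl (w : List (Fin 3)) (n : ℕ) (c : Ph × ℕ × List Gm) : PR w n c c :=
  ⟨0, Nat.zero_le _, rfl⟩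

lemma PR_mono {w : List (Fin 3)} {n n' : ℕ} {c c' : Ph × ℕ × List Gm} (h : PR w n c c')
    (hn : n ≤ n') : PR w n' c c' := by
  obtain ⟨m, h1, h2⟩ := h
  exact ⟨m, h1.trans hn, h2⟩

lemma PR_trans {w : List (Fin 3)} {n n' : ℕ} {c c' c'' : Ph × ℕ × List Gm} (h : PR w n c c')
    (h' : PR w n' c' c'') : PR w (n + n') c c'' := by
  obtain ⟨m, hm, rfl⟩ := h
  obtain ⟨m', hm', rfl⟩ := h'
  exact ⟨m' + m, by omega, Function.iterate_add_apply _ _ _ _⟩

lemma PR_step {w : List (Fin 3)} {c c' : Ph × ℕ × List Gm} (h : ps w c = c') : PR w 1 c c' :=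
  ⟨1, le_rfl, h⟩

lemma PR_head {w : List (Fin 3)} {n : ℕ} {c c' c'' : Ph × ℕ × List Gm} (h : ps w c = c')
    (h' : PR w n c' c'') : PR w (n + 1) c c'' := by
  rw [Nat.add_comm]
  exact PR_trans (PR_step h) h'

lemma Hlt_stuck {w : List (Fin 3)} {n : ℕ} {c : Ph × ℕ × List Gm} (h : Stuck w c) : Hlt w n c :=
  ⟨0, Nat.zero_le _, h⟩

lemma Hlt_trans {w : List (Fin 3)} {n n' : ℕ} {c c' : Ph × ℕ × List Gm} (h : PR w n c c')
    (h' : Hlt w n' c') : Hlt w (n + n') c := by
  obtain ⟨m, hm, rfl⟩ := h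
  obtain ⟨m', hm', h2⟩ := h'
  exact ⟨m' + m, by omega, by rwa [Function.iterate_add_apply]⟩

lemma Hlt_mono {w : List (Fin 3)} {n n' : ℕ} {c : Ph × ℕ × List Gm} (h : Hlt w n c)
    (hn : n ≤ n') : Hlt w n' c := by
  obtain ⟨m, h1, h2⟩ := h
  exact ⟨m, h1.trans hn, h2⟩

lemma ps_stuck {w : List (Fin 3)} {c : Ph × ℕ × List Gm} (h : Stuck w c) : ps w c = c := by
  unfold Stuck at h
  simp [ps, h]

lemma ps_some {w : List (Fin 3)} {c : Ph × ℕ × List Gm} {v : Ph × Dir × Op Gm}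
    (h : pdf c.1 (tape w c.2.1) c.2.2.head? = some v) :
    ps w c = (v.1, move (w.length + 1) c.2.1 v.2.1, v.2.2.apply c.2.2) := by
  simp [ps, h]

lemma ac_stuck (w : List (Fin 3)) (c : Ph × ℕ × List Gm) (h : c.1 = Ph.ac) : Stuck w c := by
  obtain ⟨q, p, s⟩ := c
  simp only at h
  subst h
  simp [Stuck, pdf]

lemma ps_iter_stuck {w : List (Fin 3)} {c : Ph × ℕ × List Gm} (h : Stuck w c) (n : ℕ) :
    (ps w)^[n] c = c := Function.iterate_fixed (ps_stuck h) n

/-- No acceptance from a configuration without a step, unless it is accepting. -/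
lemma PAcc_stuck {w : List (Fin 3)} {c : Ph × ℕ × List Gm} (h : Stuck w c) (h2 : c.1 ≠ Ph.ac) :
    ¬ PAcc w c := by
  rintro ⟨n, hn⟩
  rw [ps_iter_stuck h] at hn
  exact h2 hn

lemma PAcc_ac {w : List (Fin 3)} {c : Ph × ℕ × List Gm} (h : c.1 = Ph.ac) : PAcc w c := ⟨0, h⟩

/-- Acceptance does not change along a run. -/
lemma PAcc_iff {w : List (Fin 3)} {n : ℕ} {c c' : Ph × ℕ × List Gm} (h : PR w n c c') :
    PAcc w c ↔ PAcc w c' := by
  obtain ⟨m, -, rfl⟩ := h
  constructor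
  · rintro ⟨n, hn⟩
    refine ⟨n, ?_⟩
    rw [← Function.iterate_add_apply, Nat.add_comm, Function.iterate_add_apply,
      ps_iter_stuck (ac_stuck w _ hn)]
    exact hn
  · rintro ⟨n, hn⟩
    exact ⟨n + m, by rwa [Function.iterate_add_apply]⟩

end Pool.Agent.THX
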