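import Pool.Agent.Lib_helper16.Heads.Defs

/-!
Project THX (problem MP_5e85fc_lc): definitions. One head with a pushdown store against two heads.

The words are `x $ 0^N` over the alphabet `Fin 3` (the letter `2` is the separator `$`). Cell `0` is
the left endmarker, the cells `1, …, ℓ` hold `x`, the cell `ℓ + 1` holds the separator, the cells
`ℓ + 2, …, ℓ + 1 + N` (the gap) hold `0`, the cell `ℓ + 2 + N` is the right endmarker.
-/

set_option autoImplicit false

namespace Pool.Agent.THX

open Pool.Agent.Heads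

/-! ### The language -/

/-- The word `x $ 0^N`. -/
def wrd (x : List (Fin 3)) (N : ℕ) : List (Fin 3) := x ++ 2 :: List.replicate N 0

/-- The language: the words `x $ 0^N` such that no letter of `x` is `2` and `2 x 2` is a factor of
the ternary notation of `N` (most significant digit first; the notation of `0` is empty). -/
def LL : Set (List (Fin 3)) :=
  {w | ∃ (x : List (Fin 3)) (N : ℕ), (∀ a ∈ x, a ≠ 2) ∧ w = wrd x N ∧
    (2 :: (x.map Fin.val ++ [2])) <:+: (Nat.digits 3 N).reverse}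

/-- The binary words of length `ℓ`. -/
def wd {ℓ : ℕ} (f : Fin ℓ → Bool) : List (Fin 3) := List.ofFn fun i => if f i then 1 else 0

/-! ### Orbits -/

/-- The sum of the weights of the first `t` points of the orbit of `u`. -/
def dsp {U : Type} (f : U → U) (w : U → ℤ) (u : U) (t : ℕ) : ℤ :=
  ∑ i ∈ Finset.range t, w (f^[i] u)

/-! ### Automata with two heads -/

/-- Deterministic automata with two heads (numbered by `Bool`), as total step functions; accepting
states are absorbing. The last argument of `δ` tells whether the two heads are on the same cell. -/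
structure TH (Q : Type) where
  start : Q
  acc : Set Q
  δ : Q → (Bool → Sym (Fin 3)) → Bool → Q × (Bool → Dir)
  abs : ∀ q ∈ acc, ∀ s b, δ q s b = (q, fun _ => Dir.S)

/-- Configurations: state and head positions. -/
abbrev Cf (Q : Type) := Q × (Bool → ℕ)

/-- The head `a` is on the cell `p`, the other head on the cell `d`. -/
def two (a : Bool) (p d : ℕ) : Bool → ℕ := fun b => if b = a then p else d

/-- The displacement of a head move. -/
def dz : Dir → ℤ
  | Dir.L => -1
  | Dir.S => 0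
  | Dir.R => 1

variable {Q : Type}

/-- What the automaton does in the configuration `c`. -/
def TH.rd (M : TH Q) (w : List (Fin 3)) (c : Cf Q) : Q × (Bool → Dir) :=
  M.δ c.1 (fun b => tape w (c.2 b)) (decide (c.2 false = c.2 true))

/-- One step on the word `w`. -/
def TH.step (M : TH Q) (w : List (Fin 3)) (c : Cf Q) : Cf Q :=
  ((M.rd w c).1, fun b => move (w.length + 1) (c.2 b) ((M.rd w c).2 b))

/-- The automaton accepts from the configuration `c`. -/
def TH.Acc (M : TH Q) (w : List (Fin 3)) (c : Cf Q) : Prop := ∃ n, ((M.step w)^[n] c).1 ∈ M.acc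

/-! ### Blind runs: one head on `⊢ x $`, the other head reads `0` -/

/-- What the automaton does in the state `u.1` if the head `a` is on the cell `u.2` of the tape of
`x $` and the other head is on another cell and reads `0`. -/
def TH.bd (M : TH Q) (x : List (Fin 3)) (a : Bool) (u : Q × ℕ) : Q × (Bool → Dir) :=
  M.δ u.1 (fun b => if b = a then tape (wrd x 0) u.2 else Sym.letter 0) false

/-- One blind step. -/
def TH.bs (M : TH Q) (x : List (Fin 3)) (a : Bool) (u : Q × ℕ) : Q × ℕ :=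
  ((M.bd x a u).1, ((u.2 : ℤ) + dz ((M.bd x a u).2 a)).toNat)

/-- The displacement of the other head in one blind step. -/
def TH.bw (M : TH Q) (x : List (Fin 3)) (a : Bool) (u : Q × ℕ) : ℤ := dz ((M.bd x a u).2 (!a))

/-- The head `a` stays on the cells `0, …, ℓ + 1` forever in the blind run from `u`. -/
def TH.Stays (M : TH Q) (ℓ : ℕ) (x : List (Fin 3)) (a : Bool) (u : Q × ℕ) : Prop :=
  ∀ t, ((M.bs x a)^[t] u).2 ≤ ℓ + 1

/-- The bound `K`. -/
def KK (Q : Type) [Fintype Q] (ℓ : ℕ) : ℕ := Fintype.card Q * (ℓ + 2)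

variable [Fintype Q]

/-- The tables `F`: for a head `a` and a state, the state at the exit and `K +` the displacement of
the other head; `none` if there is no exit. -/
abbrev Ft (Q : Type) [Fintype Q] (ℓ : ℕ) := Bool → Q → Option (Q × Fin (2 * KK Q ℓ + 1))

open scoped Classical in
/-- The table of the word `x`: the blind run from the separator, in the state `q`, up to the first
time when the head `a` is on the cell `ℓ + 2`. -/
noncomputable def TH.ex (M : TH Q) (ℓ : ℕ) (x : List (Fin 3)) : Ft Q ℓ := fun a q =>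
  if h : ∃ t, ((M.bs x a)^[t] (q, ℓ + 1)).2 = ℓ + 2 then
    some (((M.bs x a)^[Nat.find h] (q, ℓ + 1)).1,
      ⟨((dsp (M.bs x a) (M.bw x a) (q, ℓ + 1) (Nat.find h)) + KK Q ℓ).toNat % (2 * KK Q ℓ + 1),
        Nat.mod_lt _ (Nat.succ_pos _)⟩)
  else none

/-! ### The jump machine -/

/-- The cell `d` is deep in the gap. -/
def Dp (Q : Type) [Fintype Q] (ℓ N d : ℕ) : Prop :=
  ℓ + 2 + 2 * KK Q ℓ ≤ d ∧ d + 2 * KK Q ℓ < ℓ + 2 + N

/-- A jump is possible in the configuration `c`. -/
def Jp (ℓ N : ℕ) (F : Ft Q ℓ) (c : Cf Q) : Prop :=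
  ∃ (a : Bool) (r : Q × Fin (2 * KK Q ℓ + 1)), c.2 a = ℓ + 1 ∧ Dp Q ℓ N (c.2 !a) ∧ F a c.1 = some r

open scoped Classical in
/-- One step of the jump machine: if both heads are in the gap or on the right endmarker, a step of
the automaton; if one head is on the separator and the other one is deep, a jump according to the
table `F`; otherwise, or if the table has no value, nothing. -/
noncomputable def TH.J (M : TH Q) (ℓ N : ℕ) (F : Ft Q ℓ) (c : Cf Q) : Cf Q :=
  if ∀ b, ℓ + 2 ≤ c.2 b then M.step (wrd (List.replicate ℓ 0) N) c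
  else if h : Jp ℓ N F c then
    (h.choose_spec.choose.1,
      two h.choose (ℓ + 2) (c.2 (!h.choose) + (h.choose_spec.choose.2 : ℕ) - KK Q ℓ))
  else c

/-- The jump machine has stopped. -/
def Stp (ℓ N : ℕ) (F : Ft Q ℓ) (c : Cf Q) : Prop := ¬ (∀ b, ℓ + 2 ≤ c.2 b) ∧ ¬ Jp ℓ N F c

/-- Labels of cells: near the left end, near the right end, deep (modulo `K!`). -/
abbrev Lb (Q : Type) [Fintype Q] (ℓ : ℕ) :=
  Fin (ℓ + 2 + 2 * KK Q ℓ) ⊕ Fin (2 * KK Q ℓ + 1) ⊕ Fin (KK Q ℓ).factorial

/-- The label of the cell `p`. -/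
noncomputable def lab (Q : Type) [Fintype Q] (ℓ N p : ℕ) : Lb Q ℓ :=
  if h : p < ℓ + 2 + 2 * KK Q ℓ then Sum.inl ⟨p, h⟩
  else if h' : ℓ + 2 + N ≤ p + 2 * KK Q ℓ then Sum.inr (Sum.inl ⟨ℓ + 2 + N - p, by omega⟩)
  else Sum.inr (Sum.inr ⟨p % (KK Q ℓ).factorial, Nat.mod_lt _ (Nat.factorial_pos _)⟩)

/-- Codes of the cells which are not deep (with a wider margin). -/
abbrev Cd (Q : Type) [Fintype Q] (ℓ : ℕ) := Fin (ℓ + 3 + 3 * KK Q ℓ) ⊕ Fin (3 * KK Q ℓ + 2)

/-- The cell with the code `z`. -/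
def dec {Q : Type} [Fintype Q] {ℓ : ℕ} (N : ℕ) : Cd Q ℓ → ℕ
  | Sum.inl i => i
  | Sum.inr j => ℓ + 2 + N - j

/-- The configuration with the code `k`. -/
def dcf {ℓ : ℕ} (N : ℕ) (k : Q × (Bool → Cd Q ℓ)) : Cf Q := (k.1, fun b => dec N (k.2 b))

/-- Outcomes of the jump machine: stopped (state and labels of the positions), or never stopped
(with or without an accepting state). -/
abbrev Ot (Q : Type) [Fintype Q] (ℓ : ℕ) := Bool ⊕ (Q × (Bool → Lb Q ℓ))

open scoped Classical in
/-- The outcome of the run of the jump machine from `c`. -/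
noncomputable def TH.out (M : TH Q) (ℓ N : ℕ) (F : Ft Q ℓ) (c : Cf Q) : Ot Q ℓ :=
  if h : ∃ t, Stp ℓ N F ((M.J ℓ N F)^[t] c) then
    Sum.inr (((M.J ℓ N F)^[Nat.find h] c).1,
      fun b => lab Q ℓ N (((M.J ℓ N F)^[Nat.find h] c).2 b))
  else Sum.inl (decide (∃ t, ((M.J ℓ N F)^[t] c).1 ∈ M.acc))

/-- The types of numbers. -/
abbrev Ty (Q : Type) [Fintype Q] (ℓ : ℕ) :=
  Fin (KK Q ℓ).factorial × (Q × (Bool → Cd Q ℓ) → Ot Q ℓ)

/-- The type of the number `N`. -/
noncomputable def TH.ty (M : TH Q) (ℓ : ℕ) (F : Ft Q ℓ) (N : ℕ) : Ty Q ℓ :=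
  (⟨N % (KK Q ℓ).factorial, Nat.mod_lt _ (Nat.factorial_pos _)⟩,
    fun k => M.out ℓ N F (dcf N k))

/-! ### Related configurations on `x $ 0^N` and `x $ 0^N'` -/

/-- The cells `p` and `p'` are at the same distance from the left end, or from the right end, and
not deep. -/
def Sm (Q : Type) [Fintype Q] (ℓ N N' p p' : ℕ) : Prop :=
  (p = p' ∧ p < ℓ + 2 + 2 * KK Q ℓ) ∨
    ∃ j ≤ 2 * KK Q ℓ, p = ℓ + 2 + N - j ∧ p' = ℓ + 2 + N' - j

/-- The same with the margin increased by one. -/
def Sn (Q : Type) [Fintype Q] (ℓ N N' p p' : ℕ) : Prop :=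
  (p = p' ∧ p < ℓ + 3 + 2 * KK Q ℓ) ∨
    ∃ j ≤ 2 * KK Q ℓ + 1, p = ℓ + 2 + N - j ∧ p' = ℓ + 2 + N' - j

/-- Related, both heads in the gap or on the right endmarker. -/
def RG (ℓ N N' : ℕ) (c c' : Cf Q) : Prop :=
  ∃ k : Q × (Bool → Cd Q ℓ), c = dcf N k ∧ c' = dcf N' k ∧
    (∀ b, ℓ + 2 ≤ c.2 b) ∧ ∀ b, ℓ + 2 ≤ c'.2 b

/-- Related, one head on the cells `0, …, ℓ + 1`, the other one not deep. -/
def RB (ℓ N N' : ℕ) (c c' : Cf Q) : Prop :=
  ∃ (a : Bool) (q : Q) (p d d' : ℕ), p ≤ ℓ + 1 ∧ c = (q, two a p d) ∧ c' = (q, two a p d') ∧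
    Sm Q ℓ N N' d d'

/-- Related, one head on the cells `0, …, ℓ + 1` forever in the blind run, the other one deep. -/
def TH.RC (M : TH Q) (ℓ : ℕ) (x : List (Fin 3)) (N N' : ℕ) (c c' : Cf Q) : Prop :=
  ∃ (a : Bool) (q : Q) (p d d' : ℕ), p ≤ ℓ + 1 ∧ c = (q, two a p d) ∧ c' = (q, two a p d') ∧
    Dp Q ℓ N d ∧ Dp Q ℓ N' d' ∧ d ≡ d' [MOD (KK Q ℓ).factorial] ∧ M.Stays ℓ x a (q, p)

/-- Related configurations. -/
def TH.Rl (M : TH Q) (ℓ : ℕ) (x : List (Fin 3)) (N N' : ℕ) (c c' : Cf Q) : Prop :=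
  RG ℓ N N' c c' ∨ RB ℓ N N' c c' ∨ M.RC ℓ x N N' c c'

/-- From the related configurations `c`, `c'` the automaton gets to related configurations, or it
accepts from `c'`, or it does not accept from `c`. -/
def TH.Pr (M : TH Q) (ℓ : ℕ) (x : List (Fin 3)) (N N' : ℕ) (c c' : Cf Q) : Prop :=
  ¬ M.Acc (wrd x N) c ∨ M.Acc (wrd x N') c' ∨
    ∃ m m', 1 ≤ m ∧ M.Rl ℓ x N N' ((M.step (wrd x N))^[m] c) ((M.step (wrd x N'))^[m'] c')

/-! ### Deterministic finite automata with two sensing heads -/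

/-- A two-way deterministic finite automaton with two heads; a step depends on the state, the two
scanned symbols and on whether the two heads are on the same cell. -/
structure SA where
  Q : Type
  finQ : Finite Q
  start : Q
  accept : Set Q
  δ : Q → (Fin 2 → Sym (Fin 3)) → Bool → Option (Q × (Fin 2 → Dir))

/-- One step on the word `w`. -/
def SA.Step (M : SA) (w : List (Fin 3)) (c c' : M.Q × (Fin 2 → ℕ)) : Prop :=
  ∃ t, M.δ c.1 (fun i => tape w (c.2 i)) (decide (c.2 0 = c.2 1)) = some t ∧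
    c' = (t.1, fun i => move (w.length + 1) (c.2 i) (t.2 i))

/-- The language accepted by `M`. -/
def SA.lang (M : SA) : Set (List (Fin 3)) :=
  {w | ∃ c, Relation.ReflTransGen (M.Step w) (M.start, fun _ => 0) c ∧ c.1 ∈ M.accept}

/-! ### The pushdown automaton -/

/-- The states: before and after the separator in the check of the form of the word; compare with
zero; count down modulo three; count up; rewind; look for a digit `2`; compare; accept. -/
inductive Ph
  | f0 | f1 | ck | dn (r : Fin 3) | up (r : Fin 3) | rw | sk | mt | ac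
  deriving DecidableEq

/-- The stack symbols: a unit (`none`) or a digit. -/
abbrev Gm := Option (Fin 3)

/-- The transition function: state, scanned symbol, top of the stack. -/
def pdf : Ph → Sym (Fin 3) → Option Gm → Option (Ph × Dir × Op Gm)
  | Ph.f0, Sym.left, _ => some (Ph.f0, Dir.R, Op.none)
  | Ph.f0, Sym.letter a, _ => some (if a = 2 then Ph.f1 else Ph.f0, Dir.R, Op.none)
  | Ph.f0, Sym.right, _ => none
  | Ph.f1, Sym.letter a, _ => if a = 0 then some (Ph.f1, Dir.R, Op.none) else none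
  | Ph.f1, Sym.right, _ => some (Ph.ck, Dir.L, Op.none)
  | Ph.f1, Sym.left, _ => none
  | Ph.ck, Sym.letter a, _ =>
    if a = 2 then some (Ph.rw, Dir.L, Op.none) else some (Ph.dn 0, Dir.S, Op.none)
  | Ph.ck, Sym.left, _ => none
  | Ph.ck, Sym.right, _ => none
  | Ph.dn r, Sym.letter a, _ =>
    if a = 2 then some (Ph.up r, Dir.S, Op.none)
    else some (Ph.dn (r + 1), Dir.L, if r = 2 then Op.push none else Op.none)
  | Ph.dn _, Sym.left, _ => none
  | Ph.dn _, Sym.right, _ => none
  | Ph.up r, _, some none => some (Ph.up r, Dir.R, Op.pop)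
  | Ph.up r, _, some (some _) => some (Ph.ck, Dir.S, Op.push (some r))
  | Ph.up r, _, none => some (Ph.ck, Dir.S, Op.push (some r))
  | Ph.rw, Sym.left, _ => some (Ph.sk, Dir.R, Op.none)
  | Ph.rw, Sym.letter _, _ => some (Ph.rw, Dir.L, Op.none)
  | Ph.rw, Sym.right, _ => some (Ph.rw, Dir.L, Op.none)
  | Ph.sk, _, none => none
  | Ph.sk, _, some none => none
  | Ph.sk, _, some (some a) => if a = 2 then some (Ph.mt, Dir.S, Op.pop)
      else some (Ph.sk, Dir.S, Op.pop)
  | Ph.mt, _, none => none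
  | Ph.mt, _, some none => none
  | Ph.mt, Sym.letter b, some (some a) =>
    if b = a then (if a = 2 then some (Ph.ac, Dir.S, Op.none) else some (Ph.mt, Dir.R, Op.pop))
    else some (Ph.rw, Dir.L, Op.none)
  | Ph.mt, Sym.left, some (some _) => none
  | Ph.mt, Sym.right, some (some _) => none
  | Ph.ac, _, _ => none

/-- The pushdown automaton. -/
def PD : PDA (Fin 3) 1 where
  Q := Ph
  Γ := Gm
  finQ := by
    refine Finite.of_injective (β := Fin 7 ⊕ Fin 3 ⊕ Fin 3) (fun p => match p with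
      | Ph.f0 => Sum.inl 0 | Ph.f1 => Sum.inl 1 | Ph.ck => Sum.inl 2 | Ph.rw => Sum.inl 3
      | Ph.sk => Sum.inl 4 | Ph.mt => Sum.inl 5 | Ph.ac => Sum.inl 6
      | Ph.dn r => Sum.inr (Sum.inl r) | Ph.up r => Sum.inr (Sum.inr r)) ?_
    intro a b h
    cases a <;> cases b <;> simp_all
  finΓ := inferInstance
  start := Ph.f0
  accept := {Ph.ac}
  δ q s g := {t | ∃ v, pdf q (s 0) g = some v ∧ t = (v.1, fun _ => v.2.1, v.2.2)}

/-- One step of the pushdown automaton as a function on triples (state, head position, stack); it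
stays where it is if no transition is possible. -/
def ps (w : List (Fin 3)) (c : Ph × ℕ × List Gm) : Ph × ℕ × List Gm :=
  match pdf c.1 (tape w c.2.1) c.2.2.head? with
  | none => c
  | some v => (v.1, move (w.length + 1) c.2.1 v.2.1, v.2.2.apply c.2.2)

/-- The pushdown automaton accepts from `c`. -/
def PAcc (w : List (Fin 3)) (c : Ph × ℕ × List Gm) : Prop := ∃ n, ((ps w)^[n] c).1 = Ph.ac

/-- `c'` is reached from `c` in at most `n` steps. -/
def PR (w : List (Fin 3)) (n : ℕ) (c c' : Ph × ℕ × List Gm) : Prop := ∃ m ≤ n, (ps w)^[m] c = c'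

/-- No transition is possible in the configuration `c`. -/
def Stuck (w : List (Fin 3)) (c : Ph × ℕ × List Gm) : Prop :=
  pdf c.1 (tape w c.2.1) c.2.2.head? = none

/-- The run from `c` ends after at most `n` steps. -/
def Hlt (w : List (Fin 3)) (n : ℕ) (c : Ph × ℕ × List Gm) : Prop :=
  ∃ m ≤ n, Stuck w ((ps w)^[m] c)

/-- A list of digits as a stack. -/
def stk (s : List (Fin 3)) : List Gm := s.map some

end Pool.Agent.THX
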