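import Pool.Agent.THX.Basic

/-!
Project THX (problem MP_5e85fc_lc): the statements of the modules, with proofs on paper.

The theorem: the language `LL` (the words `x $ 0^N`, `x` binary, such that `2 x 2` is a factor of the
ternary notation of `N`) is accepted in linear time by a deterministic pushdown automaton with one
two-way head, and by no deterministic finite automaton with two two-way heads.

Notation of the paper proofs: `K = KK Q ℓ = |Q| (ℓ + 2)`, `e = ℓ + 2 + N` (right endmarker), `Λ = K!`.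
Abbreviations: `u_t = f^[t] u`, `z_t = dsp f w u t`. `Basic.lean` has the facts on the symbols of
the tape, on `two`, `move`, `dz`, `dsp`, on acceptance, on `PR`, `Hlt`, `PAcc`: read it first.
-/

set_option autoImplicit false

namespace Pool.Agent.THX

open Pool.Agent.Heads

/-! ## Part 1: orbits -/

/-- PIG. If the points `u_0, …, u_K` are in a set with at most `K` elements, then the whole orbit is
in this set, and it is periodic from some point on.
Proof. Two of the `K + 1` points are equal: `u_i = u_j` with `i < j ≤ K`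
(`Finset.exists_ne_map_eq_of_card_lt_of_maps_to` on `Finset.range (K + 1)`). Put `μ = i`,
`τ = j - i`. For `t ≥ μ`: `u_{t + τ} = f^[t - μ] (u_{μ + τ}) = f^[t - μ] (u_μ) = u_t`
(`Function.iterate_add_apply`). `u_t ∈ S` by strong induction: for `t ≤ K` this is the hypothesis;
for `t > K` we have `t - τ ≥ μ`, so `u_t = u_{t - τ}`. -/
def PIG_Stmt : Prop := ∀ (U : Type) (f : U → U) (u : U) (S : Finset U) (K : ℕ), S.card ≤ K →
  (∀ i ≤ K, f^[i] u ∈ S) →
  (∀ i, f^[i] u ∈ S) ∧ ∃ μ τ, 1 ≤ τ ∧ μ + τ ≤ K ∧ ∀ t, μ ≤ t → f^[t + τ] u = f^[t] u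

/-- LOP (may assume PIG). The orbit is in a set with at most `K` elements and the weights are in
`{-1, 0, 1}`. Then the displacements `z_t` are bounded by `K`, or, for a sign `s`, `s z_t` tends to
infinity and the point at the first time when `s z_t = y > K` depends only on `y` modulo `K!`.
Proof. Take `μ`, `τ` from PIG. For `t ≥ μ`: `z_{t + τ + 1} - z_{t + 1} = z_{t + τ} - z_t` because
`w (u_{t + τ}) = w (u_t)`; so `z_{t + τ} = z_t + v` for all `t ≥ μ`, where `v = z_{μ + τ} - z_μ`,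
and `|v| ≤ τ ≤ K` (`dsp_add`, `abs_dsp_le`). Moreover `|z_t| ≤ t`.
If `v = 0`: `|z_t| ≤ K` by strong induction on `t` (for `t ≤ K` because `|z_t| ≤ t`; for `t > K`
because `z_t = z_{t - τ}`, `t - τ ≥ μ`).
If `v ≠ 0` let `s` be the sign of `v`, `g_t = s z_t`, `v' = |v| ≥ 1`; so `g_{t + τ} = g_t + v'` for
`t ≥ μ`, `|g_{t+1} - g_t| ≤ 1`, `|g_t| ≤ t`. (a) `-K ≤ g_t` by strong induction on `t`. (b) `g` is
unbounded: `g_{μ + j τ} = g_μ + j v'`. So for `y > K` there is a first `t` with `g_t ≥ y`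
(`Nat.find`); `g_0 = 0 < y`, so `t ≥ 1`, `g_{t - 1} < y` and `g_t ≤ g_{t - 1} + 1`, hence
`g_t = y`; and `g_i < y` for `i < t`. (c) Call `t` a record if `g_t > K` and `g_i < g_t` for all
`i < t`. A record has `t ≥ g_t > K ≥ μ + τ`. If `t` is a record, then `t + τ` is a record:
`g_{t + τ} = g_t + v'`; for `i < t + τ`: if `i ≥ μ + τ` then `g_i = g_{i - τ} + v' < g_t + v'`
because `i - τ < t`; if `i < μ + τ ≤ K` then `g_i ≤ i < K < g_t + v'`. And `u_{t + τ} = u_t`.
So `t + j τ` is a record with value `g_t + j v'` and the same point as `t`. (d) Let `t`, `t'` be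
records with `K!` dividing `g_t - g_{t'}`, say `g_t ≤ g_{t'}` (the other case is symmetric). As
`1 ≤ v' ≤ K`, `v'` divides `K!` (`Nat.dvd_factorial`), so `g_{t'} = g_t + j v'` for some `j`, and
`t + j τ` is a record with the same value as `t'`. Two records with the same value are equal (the
earlier one would contradict the strict inequality for the later one). So `t' = t + j τ` and
`u_{t'} = u_t`. -/
def LOP_Stmt : Prop := ∀ (U : Type) (f : U → U) (w : U → ℤ) (u : U) (S : Finset U) (K : ℕ),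
  S.card ≤ K → (∀ i, f^[i] u ∈ S) → (∀ v, |w v| ≤ 1) →
  (∀ t, |dsp f w u t| ≤ K) ∨
  ∃ s : ℤ, (s = 1 ∨ s = -1) ∧ (∀ t, -(K : ℤ) ≤ s * dsp f w u t) ∧
    (∀ y : ℤ, (K : ℤ) < y → ∃ t, s * dsp f w u t = y ∧ ∀ i < t, s * dsp f w u i < y) ∧
    ∀ t t' : ℕ, (K : ℤ) < s * dsp f w u t → (K : ℤ) < s * dsp f w u t' →
      (∀ i < t, s * dsp f w u i < s * dsp f w u t) →
      (∀ i < t', s * dsp f w u i < s * dsp f w u t') →
      (K.factorial : ℤ) ∣ s * dsp f w u t - s * dsp f w u t' → f^[t] u = f^[t'] u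

/-! ## Part 2: blind runs -/

/-- SIM. The run of the automaton is the blind run as long as the head `a` is on the cells
`0, …, ℓ + 1` and the other head is in the gap.
Proof. Induction on `t` with `Function.iterate_succ_apply'`. Let `u = u_t`, `u.2 ≤ ℓ + 1`, and let
`D = d + z_t` (an integer in `[ℓ + 2, ℓ + 1 + N]`, so `D = (D.toNat : ℤ)`). One step from
`(u.1, two a u.2 D)`: the head `a` reads `tape (wrd x N) u.2 = tape (wrd x 0) u.2` (`tape_low`), the
other head reads `letter 0` (`tape_gap`), the heads are on different cells. So `M.rd` is `M.bd x a u`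
(the two functions `Bool → Sym` agree at `a` and at `!a`). The new positions: `move` is
`((p : ℤ) + dz _).toNat` for both heads (`move_eq`, `wrd_length`; both positions are
`≤ ℓ + 1 + N`), which is `(M.bs x a u).2` for the head `a` and `(D + M.bw x a u).toNat` for the
other one; `dsp_succ`. -/
def SIM_Stmt : Prop := ∀ (Q : Type) (M : TH Q) (ℓ : ℕ) (x : List (Fin 3)) (N : ℕ) (a : Bool)
  (u : Q × ℕ) (d t : ℕ), x.length = ℓ → (∀ i < t, ((M.bs x a)^[i] u).2 ≤ ℓ + 1) →
  (∀ i < t, (ℓ : ℤ) + 2 ≤ (d : ℤ) + dsp (M.bs x a) (M.bw x a) u i ∧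
    (d : ℤ) + dsp (M.bs x a) (M.bw x a) u i ≤ ℓ + 1 + N) →
  (M.step (wrd x N))^[t] (u.1, two a u.2 d) =
    (((M.bs x a)^[t] u).1,
      two a ((M.bs x a)^[t] u).2 ((d : ℤ) + dsp (M.bs x a) (M.bw x a) u t).toNat)

/-- EXT (may assume PIG). If the blind run leaves the cells `0, …, ℓ + 1`, then it is on the cell
`ℓ + 2` for the first time after at most `K` steps.
Proof. Let `t` be the first time with `u_t.2 > ℓ + 1` (`Nat.find`); `t ≥ 1`. The position changes by
at most one in a step, so `u_t.2 = ℓ + 2`. If `t > K`, then the points `u_0, …, u_K` are in the set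
`S` of the pairs `(q, p)` with `p ≤ ℓ + 1` (`Finset.univ ×ˢ Finset.range (ℓ + 2)`, `K` elements); by
PIG all points are in `S`, a contradiction. -/
def EXT_Stmt : Prop := ∀ (Q : Type) [Fintype Q] (M : TH Q) (ℓ : ℕ) (x : List (Fin 3)) (a : Bool)
  (u : Q × ℕ), u.2 ≤ ℓ + 1 → ¬ M.Stays ℓ x a u →
  ∃ t, 1 ≤ t ∧ t ≤ KK Q ℓ ∧ (∀ i < t, ((M.bs x a)^[i] u).2 ≤ ℓ + 1) ∧
    ((M.bs x a)^[t] u).2 = ℓ + 2

/-- EXF (may assume EXT). The table `M.ex`.
Proof. If the head stays, then no `t` has `u_t.2 = ℓ + 2`, so the value is `none`. Otherwise take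
`t` from EXT; it is the first `t` with `u_t.2 = ℓ + 2`, so it is the `Nat.find` of the definition.
As `|z_t| ≤ t ≤ K` (`abs_bz_le`), `z_t + K` is in `[0, 2K]`, so `toNat` and `%` do nothing. -/
def EXF_Stmt : Prop := ∀ (Q : Type) [Fintype Q] (M : TH Q) (ℓ : ℕ) (x : List (Fin 3)) (a : Bool)
  (q : Q), (M.Stays ℓ x a (q, ℓ + 1) ∧ M.ex ℓ x a q = none) ∨
  ∃ (t : ℕ) (i : Fin (2 * KK Q ℓ + 1)), 1 ≤ t ∧ t ≤ KK Q ℓ ∧
    (∀ j < t, ((M.bs x a)^[j] (q, ℓ + 1)).2 ≤ ℓ + 1) ∧
    ((M.bs x a)^[t] (q, ℓ + 1)).2 = ℓ + 2 ∧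
    M.ex ℓ x a q = some (((M.bs x a)^[t] (q, ℓ + 1)).1, i) ∧
    ((i : ℕ) : ℤ) = dsp (M.bs x a) (M.bw x a) (q, ℓ + 1) t + KK Q ℓ

/-! ## Part 3: the jump machine -/

/-- JMP (may assume SIM, EXF). One step of the jump machine is at least one step of the automaton on
`x $ 0^N`, if `F` is the table of `x`.
Proof. First case: both heads are on cells `≥ ℓ + 2`. Then `M.J` is one step on
`wrd (replicate ℓ 0) N`; the scanned symbols are the same as on `wrd x N` (`tape_gap`, `tape_end`,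
both words have the same length), so it is one step on `wrd x N` (`m = 1`). Positions: `move`
changes a position by at most one and does not leave `[0, ℓ + 2 + N]` (`le_move_succ`, `move_le`).
Second case: `Jp` holds. Let `a`, `r` be the chosen ones (`h.choose`,
`h.choose_spec.choose`, use `h.choose_spec.choose_spec`): `c.2 a = ℓ + 1`, `d = c.2 (!a)` is deep,
`F a c.1 = some r`. So `M.ex ℓ x a c.1 = some r` and the second alternative of EXF holds: `t`, `i`
with `r = (u_t.1, i)`, `i = z_t + K`. For `j ≤ t`: `|z_j| ≤ j ≤ K` and `d` is deep, so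
`ℓ + 2 ≤ d + z_j ≤ ℓ + 1 + N`. SIM from `c = (c.1, two a (ℓ + 1) d)` (`eq_two`) gives
`step^[t] c = (u_t.1, two a (ℓ + 2) (d + z_t).toNat)` and `(d + z_t).toNat = d + i - K`. Third case
(no jump): then the machine has stopped, which is excluded. -/
def JMP_Stmt : Prop := ∀ (Q : Type) [Fintype Q] (M : TH Q) (ℓ N : ℕ) (x : List (Fin 3))
  (F : Ft Q ℓ) (c : Cf Q), x.length = ℓ → M.ex ℓ x = F →
  (∀ b, ℓ + 1 ≤ c.2 b ∧ c.2 b ≤ ℓ + 2 + N) → ¬ Stp ℓ N F c →
  (∃ m, 1 ≤ m ∧ M.J ℓ N F c = (M.step (wrd x N))^[m] c) ∧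
    ∀ b, ℓ + 1 ≤ (M.J ℓ N F c).2 b ∧ (M.J ℓ N F c).2 b ≤ ℓ + 2 + N

/-- RUN (may assume JMP). `t` steps of the jump machine.
Proof. Induction on `t` with `Function.iterate_succ_apply'` and JMP; the numbers of steps add up
(`Function.iterate_add_apply`). -/
def RUN_Stmt : Prop := ∀ (Q : Type) [Fintype Q] (M : TH Q) (ℓ N : ℕ) (x : List (Fin 3))
  (F : Ft Q ℓ) (c : Cf Q) (t : ℕ), x.length = ℓ → M.ex ℓ x = F →
  (∀ b, ℓ + 1 ≤ c.2 b ∧ c.2 b ≤ ℓ + 2 + N) → (∀ i < t, ¬ Stp ℓ N F ((M.J ℓ N F)^[i] c)) →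
  (∃ m, t ≤ m ∧ (M.J ℓ N F)^[t] c = (M.step (wrd x N))^[m] c) ∧
    ∀ b, ℓ + 1 ≤ ((M.J ℓ N F)^[t] c).2 b ∧ ((M.J ℓ N F)^[t] c).2 b ≤ ℓ + 2 + N

/-! ## Part 4: progress from related configurations -/

/-- CA (may assume EXF, RUN). Progress if both heads are in the gap or on the right endmarker.
Proof. `c = dcf N k`, `c' = dcf N' k`, all positions `≥ ℓ + 2`, and `≤ ℓ + 2 + N` resp. `N'` (for
`Sum.inl i`: `i < ℓ + 3 + 3 K ≤ ℓ + 2 + N`). Neither `c` nor `c'` is stopped. From `M.ty` equal we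
get `M.out ℓ N F c = M.out ℓ N' F c'` (`congrFun` of the second components at `k`).
First case: the jump machine for `N` stops. Then the outcome is `Sum.inr _`, so it stops also for
`N'`; let `t`, `t'` be the two `Nat.find`, `g = J^[t] c`, `g' = J'^[t'] c'`; so `g.1 = g'.1` and
`lab N (g.2 b) = lab N' (g'.2 b)` for both `b`. `t ≥ 1` as `c` is not stopped. RUN:
`g = step^[m] c` with `m ≥ t ≥ 1`, `g' = step'^[m'] c'`, positions in `[ℓ + 1, ℓ + 2 + N]` resp.
`[ℓ + 1, ℓ + 2 + N']`. `g` is stopped, so some `g.2 a < ℓ + 2`, i.e. `g.2 a = ℓ + 1`; its label is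
`Sum.inl (ℓ + 1)`, so `g'.2 a = ℓ + 1`. So `g = (q, two a (ℓ + 1) d)`, `g' = (q, two a (ℓ + 1) d')`
with `q = g.1`, `d = g.2 !a`, `d' = g'.2 !a`. If the label of `d` is `Sum.inl _`, then `d = d'` and
`d < ℓ + 2 + 2K`: `Sm`. If it is `Sum.inr (Sum.inl j)`, then `j = ℓ + 2 + N - d = ℓ + 2 + N' - d'`,
`j ≤ 2K`, `d ≤ ℓ + 2 + N`, `d' ≤ ℓ + 2 + N'`: `Sm`. In these cases `RB`. Otherwise both labels are
`Sum.inr (Sum.inr _)`: `d`, `d'` are deep and congruent modulo `K!`. As `¬ Jp`, there is no `r` with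
`F a q = some r`, so `F a q = none` and EXF gives `M.Stays ℓ x a (q, ℓ + 1)`: `RC`.
Second case: the jump machine for `N` never stops. Then also for `N'`, and the two truth values are
equal. If `(J'^[t] c').1 ∈ M.acc` for some `t`, then `M.Acc (wrd x N') c'` by RUN. Otherwise no
`(J^[t] c).1` is in `M.acc`, and then `¬ M.Acc (wrd x N) c`: if `(step^[n] c).1 ∈ M.acc`, take RUN
with `t = n`: `J^[n] c = step^[m] c` with `m ≥ n`, which is `step^[n] c` by `acc_mono`. -/
def CA_Stmt : Prop := ∀ (Q : Type) [Fintype Q] (M : TH Q) (ℓ N N' : ℕ) (x : List (Fin 3))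
  (F : Ft Q ℓ) (c c' : Cf Q), x.length = ℓ → M.ex ℓ x = F → 8 * KK Q ℓ + 8 ≤ N →
  8 * KK Q ℓ + 8 ≤ N' → M.ty ℓ F N = M.ty ℓ F N' → RG ℓ N N' c c' → M.Pr ℓ x N N' c c'

/-- LCK. One step in parallel if the head `a` is on the cells `0, …, ℓ + 1` and the other head is
not deep.
Proof. The scanned symbols agree: for the head `a` by `tape_low`; for the other head, if `d = d'`
with `d < ℓ + 2 + 2K`: `tape_low` if `d ≤ ℓ + 1`, and both read `letter 0` otherwise (`tape_gap`, as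
`N, N' ≥ 8K + 8`); if `d = ℓ + 2 + N - j`, `d' = ℓ + 2 + N' - j`, `j ≤ 2K`: both read `right` if
`j = 0` (`tape_end`), both read `letter 0` if `j ≥ 1` (`tape_gap`). The heads are on the same cell
for `N` if and only if they are for `N'` (if `d = d'` trivial; in the second case
`d, d' > ℓ + 1 ≥ p`, never). So the state and the directions agree. New positions: the head `a`:
`p + 1 ≤ ℓ + 2 ≤ ℓ + 2 + N`, so `move` does not depend on `N` (`move_eq`) and is at most `ℓ + 2`.
The other head: if `d = d' < ℓ + 2 + 2K`: again `move_eq`, the new position is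
`≤ ℓ + 2 + 2K`; in the second case: new `j` is `j + 1`, `j`, `j - 1` (`0` if `j = 0`) for the
directions `L`, `S`, `R`: unfold `move`, `omega`. -/
def LCK_Stmt : Prop := ∀ (Q : Type) [Fintype Q] (M : TH Q) (ℓ N N' : ℕ) (x : List (Fin 3))
  (a : Bool) (q : Q) (p d d' : ℕ), x.length = ℓ → 8 * KK Q ℓ + 8 ≤ N → 8 * KK Q ℓ + 8 ≤ N' →
  p ≤ ℓ + 1 → Sm Q ℓ N N' d d' →
  ∃ (q₁ : Q) (p₁ d₁ d₁' : ℕ), p₁ ≤ ℓ + 2 ∧ Sn Q ℓ N N' d₁ d₁' ∧
    M.step (wrd x N) (q, two a p d) = (q₁, two a p₁ d₁) ∧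
    M.step (wrd x N') (q, two a p d') = (q₁, two a p₁ d₁')

/-- CB (may assume LCK, EXT, SIM). Progress if one head is on the cells `0, …, ℓ + 1` and the other
one is not deep.
Proof. By LCK one step leads to `(q₁, two a p₁ d₁)` and `(q₁, two a p₁ d₁')`, `Sn d₁ d₁'`.
(1) `p₁ ≤ ℓ + 1` and `Sm d₁ d₁'`: `RB`, `m = m' = 1`. (2) `p₁ ≤ ℓ + 1` and not `Sm d₁ d₁'`: then
`d₁ = d₁' = ℓ + 2 + 2K`, or `d₁ = ℓ + 2 + N - (2K + 1)`, `d₁' = ℓ + 2 + N' - (2K + 1)`. In both
cases `d₁`, `d₁'` are deep (as `N, N' ≥ 8K + 8`) and congruent modulo `K!` (as `N ≡ N'`). If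
`M.Stays ℓ x a (q₁, p₁)`: `RC`, `m = m' = 1`. Otherwise take `t` from EXT for `u = (q₁, p₁)`. For
`i ≤ t`: `|z_i| ≤ i ≤ K` (`abs_bz_le`), so `d₁ + z_i` and `d₁' + z_i` stay in the gap, and by SIM
`t` further steps lead to `(u_t.1, two a (ℓ + 2) (d₁ + z_t).toNat)` and
`(u_t.1, two a (ℓ + 2) (d₁' + z_t).toNat)`, `m = m' = t + 1`. They are related by `RG` (the code of
`ℓ + 2` is `Sum.inl (ℓ + 2)`; the code of the other cell is `Sum.inl (ℓ + 2 + 2K + z_t)`, which is
`< ℓ + 3 + 3K`, resp. `Sum.inr (2K + 1 - z_t)`, which is `< 3K + 2`; all cells are `≥ ℓ + 2`).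
(3) `p₁ = ℓ + 2` and `d₁ ≥ ℓ + 2`: then also `d₁' ≥ ℓ + 2`; `RG` with the codes `Sum.inl (ℓ + 2)`
and `Sum.inl d₁` resp. `Sum.inr j`. (4) `p₁ = ℓ + 2` and `d₁ ≤ ℓ + 1`: then `d₁ = d₁'`
(the alternative `d₁ = ℓ + 2 + N - j` is impossible as `N` is large), and
`two a (ℓ + 2) d₁ = two (!a) d₁ (ℓ + 2)` (`two_swap`): `RB` with the head `!a`,
`Sm (ℓ + 2) (ℓ + 2)` (note that `K ≥ 1` as `Q` has the element `q`). -/
def CB_Stmt : Prop := ∀ (Q : Type) [Fintype Q] (M : TH Q) (ℓ N N' : ℕ) (x : List (Fin 3))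
  (c c' : Cf Q), x.length = ℓ → 8 * KK Q ℓ + 8 ≤ N → 8 * KK Q ℓ + 8 ≤ N' →
  N ≡ N' [MOD (KK Q ℓ).factorial] → RB ℓ N N' c c' → M.Pr ℓ x N N' c c'

/-- CC (may assume LOP, SIM). Progress if one head stays on the cells `0, …, ℓ + 1` forever in the
blind run and the other one is deep.
Proof. `c = (q, two a p d)`, `c' = (q, two a p d')`; blind run from `u = (q, p)`; all its points are
in the set of the pairs `(q, p)` with `p ≤ ℓ + 1`, which has `K` elements. LOP.
First case: `|z_t| ≤ K` for all `t`. Then `d + z_t` and `d' + z_t` stay in the gap forever, so by SIM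
`(step^[t] c).1 = u_t.1 = (step'^[t] c').1` for all `t`: `M.Acc` for both or for none.
Second case: sign `s = 1`. Let `y = ℓ + 2 + N - d`, `y' = ℓ + 2 + N' - d'`; both are `> 2K ≥ K`. Let
`t`, `t'` be the times of LOP for `y`, `y'`. For `i < t`: `-K ≤ z_i < y`, so
`ℓ + 2 ≤ d - K ≤ d + z_i < ℓ + 2 + N`: SIM gives `step^[t] c = (u_t.1, two a u_t.2 (ℓ + 2 + N))`,
and in the same way `step'^[t'] c' = (u_{t'}.1, two a u_{t'}.2 (ℓ + 2 + N'))`.
`y - y' = (N - N') - (d - d')` is divisible by `K!`, so `u_t = u_{t'}` by LOP. `RB` with `j = 0`;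
`t ≥ 1` as `z_0 = 0 < y`.
Third case: sign `s = -1`. Let `y = d - (ℓ + 1)`, `y' = d' - (ℓ + 1)`; both are `> 2K`. For
`i < t`: `-K ≤ -z_i < y`, so `ℓ + 1 < d + z_i ≤ d + K < ℓ + 2 + N`. SIM gives
`step^[t] c = (u_t.1, two a u_t.2 (ℓ + 1))`, the same for `c'`; `RB` with `Sm (ℓ + 1) (ℓ + 1)`. -/
def CC_Stmt : Prop := ∀ (Q : Type) [Fintype Q] (M : TH Q) (ℓ N N' : ℕ) (x : List (Fin 3))
  (c c' : Cf Q), x.length = ℓ → 8 * KK Q ℓ + 8 ≤ N → 8 * KK Q ℓ + 8 ≤ N' →
  N ≡ N' [MOD (KK Q ℓ).factorial] → M.RC ℓ x N N' c c' → M.Pr ℓ x N N' c c'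

/-- EQV (may assume CA, CB, CC). If `N` and `N'` have the same type with respect to the table of
`x`, then the automaton accepts both or none of `x $ 0^N`, `x $ 0^N'`.
Proof. `N ≡ N'` modulo `K!` by the first components of the types. By CA, CB, CC: if `c`, `c'` are
related, then `M.Pr ℓ x N N' c c'`. Claim: if `c`, `c'` are related and `(step^[n] c).1 ∈ M.acc`,
then `M.Acc (wrd x N') c'`. Strong induction on `n`. `n = 0`: `c.1 ∈ M.acc`, and `c.1 = c'.1` for
related configurations. `n ≥ 1`: in the third alternative of `Pr` let `g = step^[m] c`,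
`g' = step'^[m'] c'`, `m ≥ 1`. If `m ≤ n`, then `(step^[n - m] g).1 ∈ M.acc`, and the induction
hypothesis gives `M.Acc (wrd x N') g'`, so `M.Acc (wrd x N') c'` (`acc_iter`). If `m > n`, then
`g = step^[n] c` by `acc_mono`, so `g.1 = g'.1` is accepting. The initial configurations are related
by `RB` (`p = d = 0`, `fun _ => 0 = two true 0 0`). The other direction: exchange `N` and `N'`
(the hypotheses are symmetric). -/
def EQV_Stmt : Prop := ∀ (Q : Type) [Fintype Q] (M : TH Q) (ℓ N N' : ℕ) (x : List (Fin 3)),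
  x.length = ℓ → 8 * KK Q ℓ + 8 ≤ N → 8 * KK Q ℓ + 8 ≤ N' →
  M.ty ℓ (M.ex ℓ x) N = M.ty ℓ (M.ex ℓ x) N' →
  (M.Acc (wrd x N) (M.start, fun _ => 0) ↔ M.Acc (wrd x N') (M.start, fun _ => 0))

/-! ## Part 5: digits and counting -/

/-- The list `2 y₁ 2 y₂ … 2 y_k 2`. -/
def jn : List (List ℕ) → List ℕ
  | [] => [2]
  | y :: ws => 2 :: (y ++ jn ws)

/-- INF. The factors `2 x 2` of `pre 2 y₁ 2 y₂ … 2 y_k 2`.
Proof. (A) If `2 ∉ u`, then `(2 :: s) <:+: (u ++ v) ↔ (2 :: s) <:+: v`: induction on `u`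
(`List.infix_cons_iff`, `List.cons_prefix_cons`). (B) If `2 ∉ x`, `2 ∉ y`, then
`(2 :: (x ++ [2])) <+: (2 :: (y ++ 2 :: r)) ↔ x = y`: induction on `x`, generalizing `y`. Every
`jn ws` has the form `2 :: r` (cases). Induction on `ws`: for `[]` the list `2 x 2` is longer than
`[2]`; for `y :: ws`: (A) for `pre`, then `List.infix_cons_iff`, (B), (A) for `y`, induction
hypothesis with empty `pre`. -/
def INF_Stmt : Prop := ∀ (pre x : List ℕ) (ws : List (List ℕ)), 2 ∉ pre → 2 ∉ x →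
  (∀ y ∈ ws, 2 ∉ y) → ((2 :: (x ++ [2])) <:+: (pre ++ jn ws) ↔ x ∈ ws)

/-- DGT (may assume INF). For every set `S` of binary words of length `ℓ` there is a number whose
ternary notation has exactly the words of `S` between two consecutive digits `2`.
Proof. `ws := S.toList.map (fun f => (wd f).map Fin.val)`, `l := 1 :: (List.replicate P 0 ++ jn ws)`,
`N := Nat.ofDigits 3 l.reverse`. All elements of `l` are `< 3` and the last element of `l.reverse` is
`1`, so `Nat.digits 3 N = l.reverse` (`Nat.digits_ofDigits`). The length of `l` is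
`2 + P + (ℓ + 1) |S|` (induction on `ws` for `jn`), so `N < 3 ^ (2 + P + (ℓ + 1) |S|)`
(`Nat.ofDigits_lt_base_pow_length`), and `3 ^ P ≤ N` (if `N < 3 ^ P` there would be at most `P`
digits, `Nat.digits_lt_base_pow_iff` or `Nat.digits_len_le_iff_lt_base_pow`), `P < 3 ^ P`. If
`wrd (wd f) N = wrd x' N'` with `2 ∉ x'`, then `x' = wd f` and `N' = N`
(`List.takeWhile (· ≠ 2)` or an induction; lengths). So `wrd (wd f) N ∈ LL` if and only if
`2 :: ((wd f).map Fin.val ++ [2]) <:+: l`, which by INF with `pre = 1 :: replicate P 0` means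
`(wd f).map Fin.val ∈ ws`, i.e. `f ∈ S` (`Fin.val` and `wd` are injective, `wd_inj`). -/
def DGT_Stmt : Prop := ∀ (ℓ P : ℕ) (S : Finset (Fin ℓ → Bool)), ∃ N : ℕ, P ≤ N ∧
  N < 3 ^ (2 + P + (ℓ + 1) * S.card) ∧ ∀ f : Fin ℓ → Bool, (wrd (wd f) N ∈ LL ↔ f ∈ S)

/-- CNT (may assume EQV, DGT). The counting argument.
Proof. Let `K = KK Q ℓ`. The tables `F` are `(1 + |Q| (2K + 1)) ^ (2 |Q|)` many
(`Fintype.card_pi`, `Fintype.card_option`), so by the first hypothesis there are a table `F` and at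
least `m` functions `f : Fin ℓ → Bool` with `M.ex ℓ (wd f) = F`
(`Fintype.exists_le_card_fiber_of_mul_le_card`, or `Finset.exists_le_card_fiber_of_mul_le_card...`);
let `X` be a set of exactly `m` of them (`Finset.exists_subset_card_eq`). For `S ⊆ X` let `N_S` be
the number of DGT for `S` and `P = 8K + 8`. There are `2 ^ m` subsets (`Finset.card_powerset`), and
the number of types is `K! * (2 + |Q| (ℓ + 3 + 4K + K!) ^ 2) ^ (|Q| (ℓ + 5 + 6K) ^ 2)`
(`Fintype.card_prod`, `card_pi`/`card_fun`, `card_sum`, `card_fin`, `card_bool`), less than `2 ^ m`.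
So there are `S ≠ S'` with `M.ty ℓ F N_S = M.ty ℓ F N_S'`
(`Finset.exists_ne_map_eq_of_card_lt_of_maps_to`). Some `f ∈ X` is in exactly one of `S`, `S'`. By
EQV for `x = wd f` the automaton accepts both or none of `wrd x N_S`, `wrd x N_S'`; by DGT exactly
one of them is in `LL`. So the automaton is wrong on one of them. `S.card ≤ m` gives the bound for
`N`. -/
def CNT_Stmt : Prop := ∀ (Q : Type) [Fintype Q] (M : TH Q) (ℓ m : ℕ),
  m * (1 + Fintype.card Q * (2 * KK Q ℓ + 1)) ^ (2 * Fintype.card Q) ≤ 2 ^ ℓ →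
  (KK Q ℓ).factorial * (2 + Fintype.card Q * (ℓ + 3 + 4 * KK Q ℓ + (KK Q ℓ).factorial) ^ 2) ^
    (Fintype.card Q * (ℓ + 5 + 6 * KK Q ℓ) ^ 2) < 2 ^ m →
  ∃ (x : List (Fin 3)) (N : ℕ), x.length = ℓ ∧ N < 3 ^ (2 + (8 * KK Q ℓ + 8) + (ℓ + 1) * m) ∧
    ¬ (M.Acc (wrd x N) (M.start, fun _ => 0) ↔ wrd x N ∈ LL)

/-- PAR. The parameters (`K = s (ℓ + 2)` is written out as `s * (ℓ + 2)`).
Proof. `ℓ = 128 s²`, `K = s (ℓ + 2) ≤ 130 s³`, `m = 200 K⁵`; note `K ≥ 130`, `s ≤ K / 130`,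
`ℓ + 2 ≤ K`. Second inequality: `K! ≤ K ^ K ≤ 2 ^ (K²)` (`Nat.factorial_le_pow`, `K < 2 ^ K`);
`ℓ + 3 + 4K + K! ≤ 1 + 5K + 2 ^ (K²) ≤ 2 · 2 ^ (K²)`; so
`2 + s (…)² ≤ 2 + 4K · 4 ^ (K²) ≤ 8 ^ (K²) = 2 ^ (3K²)`; the exponent is
`s (ℓ + 5 + 6K)² ≤ K (8K)² = 64 K³`; the product is `≤ 2 ^ (K² + 192 K⁵) < 2 ^ (200 K⁵)`. First
inequality: `1 + s (2K + 1) ≤ K²`, `200 ≤ 2⁸`, `K ≤ 130 s³ ≤ 2 ^ (8 + 3s)`, so
`200 K⁵ (1 + s (2K + 1)) ^ (2s) ≤ 2⁸ K ^ (5 + 4s) ≤ 2 ^ (8 + (8 + 3s)(5 + 4s))` and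
`8 + (8 + 3s)(5 + 4s) = 48 + 47 s + 12 s² ≤ 107 s² ≤ 128 s²`. Third inequality:
`3 ^ y ≤ 2 ^ (2y)`, `y = 10 + 8K + (ℓ + 1) m ≤ 10 + 1040 s³ + 129 s² · 200 · 130⁵ s¹⁵`, and all powers
of `s` are at most `s ^ 17`; `C = 10 ^ 16` is enough. -/
def PAR_Stmt : Prop := ∃ C : ℕ, ∀ s : ℕ, 1 ≤ s → ∃ ℓ m : ℕ,
  m * (1 + s * (2 * (s * (ℓ + 2)) + 1)) ^ (2 * s) ≤ 2 ^ ℓ ∧
  (s * (ℓ + 2)).factorial * (2 + s * (ℓ + 3 + 4 * (s * (ℓ + 2)) +
    (s * (ℓ + 2)).factorial) ^ 2) ^ (s * (ℓ + 5 + 6 * (s * (ℓ + 2))) ^ 2) < 2 ^ m ∧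
  ℓ + 1 + 3 ^ (2 + (8 * (s * (ℓ + 2)) + 8) + (ℓ + 1) * m) ≤ 2 ^ (C * s ^ 17)

/-- FAC. Every sensing automaton as a total step function with absorbing accepting states.
Proof. `T.start = M.start`, `T.acc = M.accept`, `T.δ q s b` is `(q, fun _ => S)` if
`q ∈ M.accept` or if `M.δ q (fun i => s (decide (i = 1))) b = none`, and
`(t.1, fun b => t.2 (if b then 1 else 0))` if `M.δ … = some t`. A configuration `(q, f)` of `M`
corresponds to `(q, fun b => f (if b then 1 else 0))`. If `c` is not accepting and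
`M.Step w c c'`, then `T.step w` maps `c` to `c'` (via the correspondence); so a computation of `M`
that reaches an accepting state for the first time is a run of `T`. Conversely, by induction on `n`,
`(T.step w)^[n]` of the initial configuration is the image of a configuration reachable by `M`. -/
def FAC_Stmt : Prop := ∀ M : SA, ∃ (_ : Fintype M.Q) (T : TH M.Q),
  ∀ w, w ∈ M.lang ↔ T.Acc w (T.start, fun _ => 0)

/-! ## Part 6: the pushdown automaton -/

/-- PDX. The pushdown automaton `PD` and the step function `ps`.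
Proof. `Det`: the transition is determined by `pdf`. For the rest: a configuration
`⟨q, f, s⟩ : Cfg Ph (Fin 1 → ℕ) Gm` corresponds to `(q, f 0, s)`; by induction on `t`, if
`PD.Reach w t c`, then `(ps w)^[t]` of the initial triple is the triple of `c`, and no earlier
triple is stuck; conversely every `(ps w)^[n]` of the initial triple is the triple of a
configuration `c` with `PD.Reach w t c` for some `t` (if it is stuck, `ps` stays). For the last
claim: if a triple is stuck after `m ≤ n` steps and `PD.Reach w t c` with `t > n ≥ m`, then a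
transition would have been made in the stuck triple. -/
def PDX_Stmt : Prop := PD.Det ∧ (∀ w, w ∈ PD.lang ↔ PAcc w (Ph.f0, 0, [])) ∧
  ∀ w n, Hlt w n (Ph.f0, 0, []) → ∀ t c, PD.Reach w t c → t ≤ n

/-- PFM. The check of the form of the word.
Proof. Let `w = wrd x N`: the head moves in the state `f0` over the left endmarker and `x`, reads
`2` and goes to `f1`, moves over the zeros, and moves left from the right endmarker (cell
`ℓ + 2 + N`) in the state `ck`: `ℓ + 2 + N + 1` steps. If `w` has no such form: either `w` has no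
letter `2`, and then the automaton is stuck in the state `f0` on the right endmarker after
`|w| + 1` steps; or `w = x ++ 2 :: y` with `2 ∉ x` and `y` has a letter different from `0`; let
`y = replicate i 0 ++ b :: y'`, `b ≠ 0`: the automaton is stuck in the state `f1` on `b`. (Lemmas:
for `i ≤ |x|`, `PR w (i + 1) (f0, 0, []) (f0, i + 1, [])` if the first `i` letters of `w` are
different from `2`; similarly for `f1`. A word without such a form can be split with
`List.takeWhile`/`List.dropWhile` or `List.append_of_mem`.) -/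
def PFM_Stmt : Prop :=
  (∀ (x : List (Fin 3)) (N : ℕ), (∀ a ∈ x, a ≠ 2) →
    PR (wrd x N) (x.length + 3 + N) (Ph.f0, 0, []) (Ph.ck, x.length + 1 + N, [])) ∧
  ∀ w : List (Fin 3), (¬ ∃ (x : List (Fin 3)) (N : ℕ), (∀ a ∈ x, a ≠ 2) ∧ w = wrd x N) →
    ¬ PAcc w (Ph.f0, 0, []) ∧ Hlt w (w.length + 2) (Ph.f0, 0, [])

/-- PDG. The ternary digits of `h ≤ N` are written on the stack, the most significant one on top.
Proof. Strong induction on `h`, for all `s`. `h = 0`: nothing to do, `z = []`. `h ≥ 1`: the head reads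
`letter 0` on the cell `ℓ + 1 + h` (`tape_gap`): `ck → dn 0`. Claim 1 (induction on `i ≤ h`): in
`i` further steps we get to `(dn (i % 3), ℓ + 1 + h - i, replicate (i / 3) none ++ stk s)`. So after
`h` steps the head is on the separator (`tape_sep`): `dn r → up r` with `r = h % 3`. Claim 2: with
`j` units on the stack, `j` steps of `up r` lead to `(up r, ℓ + 1 + j, stk s)` (the top is popped and
the head moves right; `ℓ + 1 + j ≤ ℓ + 2 + N`). Then the top is a digit or the stack is empty: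
`(ck, ℓ + 1 + h / 3, stk (r :: s))`. By the induction hypothesis for `h / 3 < h` and `r :: s` we get
`z'` with `z'.map Fin.val = (Nat.digits 3 (h / 3)).reverse` and the stack
`stk (z' ++ r :: s)`; put `z = z' ++ [r]`; `Nat.digits 3 h = (h % 3) :: Nat.digits 3 (h / 3)`. The
number of steps is `1 + h + 1 + h / 3 + 1 + 7 (h / 3) ≤ 7 h`. -/
def PDG_Stmt : Prop := ∀ (x : List (Fin 3)) (N h : ℕ) (s : List (Fin 3)), h ≤ N →
  ∃ z : List (Fin 3), z.map Fin.val = (Nat.digits 3 h).reverse ∧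
    PR (wrd x N) (7 * h) (Ph.ck, x.length + 1 + h, stk s) (Ph.ck, x.length + 1, stk (z ++ s))

/-- PSR. The search for the factor `2 x 2` in the stack.
Proof. Let `w = wrd x N`, `ℓ = |x|`. Rewinding: from `(rw, p, t)` with `p ≤ ℓ + 1` we get to
`(sk, 1, t)` in `p + 1` steps (induction on `p`: on the cells `1, …, ℓ + 1` the head reads a letter;
on the cell `0` it moves right). So it is enough to look at `(sk, 1, stk s)`. By induction on the
length of `s` we prove for all suffixes `y` of `x`, `x = v ++ y`: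
(I) `PAcc w (sk, 1, stk s) ↔ (2 :: (x ++ [2])) <:+: s`, and `Hlt w (4 |s|) (sk, 1, stk s)`;
(II) `PAcc w (mt, ℓ + 1 - |y|, stk s) ↔ (y ++ [2]) <+: s ∨ (2 :: (x ++ [2])) <:+: s`, and
`Hlt w (|v| + 2 + 4 |s|) (mt, ℓ + 1 - |y|, stk s)`; the head is on the cell `|v| + 1 = ℓ + 1 - |y|`.
(I) `s = []`: stuck, not accepting; no factor. `s = a :: s'`, `a ≠ 2`: one step to
`(sk, 1, stk s')`, and the factor is not a prefix of `a :: s'`. `s = 2 :: s'`: one step to
`(mt, 1, stk s')`, (II) for `s'` with `y = x`; the factor is a prefix of `2 :: s'` if and only if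
`x ++ [2]` is a prefix of `s'`; number of steps: `1 + 2 + 4 |s'| ≤ 4 |s|`.
(II) after (I) for the same `s`: `s = []`: stuck. `s = a :: s'`. If `y = []`, the head reads
`2` (`tape_sep`): `a = 2`: accepting state; `a ≠ 2`: the state `rw` on the cell `ℓ`, rewinding,
`(sk, 1, stk s)` after at most `1 + |v| + 1` steps, and `[2]` is not a prefix. If `y = b :: y'`, the
head reads `b ≠ 2` (`tape_x`): `a = b`: one step to `(mt, |v| + 2, stk s')`, (II) for `s'` and `y'`;
as `a ≠ 2`, the factor is in `a :: s'` if and only if it is in `s'`. `a ≠ b`: the state `rw` on the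
cell `|v|`, rewinding, `(sk, 1, stk s)` after at most `1 + |v| + 1` steps, and `y ++ [2]` is not a
prefix. Finally `(ck, ℓ + 1, stk s)`: the head reads `2`, one step to `(rw, ℓ, stk s)`, rewinding. -/
def PSR_Stmt : Prop := ∀ (x : List (Fin 3)) (N : ℕ) (s : List (Fin 3)), (∀ a ∈ x, a ≠ 2) →
  (PAcc (wrd x N) (Ph.ck, x.length + 1, stk s) ↔ (2 :: (x ++ [2])) <:+: s) ∧
    Hlt (wrd x N) (x.length + 2 + 4 * s.length) (Ph.ck, x.length + 1, stk s)

/-- PLG (may assume PDX, PFM, PDG, PSR). The pushdown automaton accepts `LL` in linear time.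
Proof. Language: if `w` has not the form `wrd x N`, it is not in `LL` and not accepted (PDX, PFM).
If `w = wrd x N`, then by PFM and PDG (`h = N`, `s = []`) the run gets to
`(ck, ℓ + 1, stk z)` with `z.map Fin.val = (Nat.digits 3 N).reverse`; so by `PAcc_iff` and PSR `w` is
accepted if and only if `2 :: (x ++ [2]) <:+: z`, equivalently (`Fin.val` is injective, apply
`List.map Fin.val`; the converse by `List.map_eq_append_iff` and similar) if and only if
`2 :: (x.map Fin.val ++ [2]) <:+: (Nat.digits 3 N).reverse`; and `x`, `N` are determined by `w`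
(the first letter `2` of `w` is the separator). Time: `ℓ + 3 + N + 7 N + ℓ + 2 + 4 |z|`, and
`|z| ≤ N + 1` (the number of digits of `N`; `Nat.digits_lt_base_pow_iff`, or `Nat.digits_len`), while
`|w| = ℓ + 1 + N`; so at most `20 (|w| + 1)` steps. -/
def PLG_Stmt : Prop := PD.Det ∧ PD.lang = LL ∧
  ∀ w t c, PD.Reach w t c → t ≤ 20 * (w.length + 1)

end Pool.Agent.THX
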