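import Pool.Agent.THX.Stmts

/-!
Project THX (problem MP_5e85fc_lc), part B: two heads are useless on average. Statements of the
modules AV1, AV2, AV3, AV4, with proofs on paper.

For every `ℓ ≥ 10` there are numbers `N A ≤ 2 ^ (4 ^ ℓ)`, one for every set `A` of binary words of length
`ℓ`, such that `x $ 0^(N A)` is in the language if and only if `x ∈ A`; and every deterministic
automaton with two sensing heads and `s` states, `ℓ ^ (50 s) ≤ 2 ^ ℓ`, is right about at most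
`(1 / 2 + 2 ^ (- ℓ / 3)) 2 ^ ℓ 2 ^ (2 ^ ℓ)` of the `2 ^ ℓ 2 ^ (2 ^ ℓ)` words `x $ 0^(N A)`. (The numbers `N A`
depend on `ℓ` only; half of the words are in the language.)
-/

set_option autoImplicit false

namespace Pool.Agent.THX

open Pool.Agent.Heads

/-- AV1 (helper97; self-contained, Mathlib only). At most `exp L` guesses for a random set.
Proof. If `C = ∅` the left side is `0`. Otherwise let `c = |C| ≥ 1`, `λ = √(8 L / c) > 0`,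
`a = exp (L + λ² c / 8)`, `agr A t = |{x ∈ C : v t x = A x}|`, `y A t = agr A t - c / 2`. For all
real `z`: `z ≤ (log a - 1 + exp (λ z) / a) / λ`, as `λ z - log a ≤ exp (λ z - log a) - 1`
(`Real.add_one_le_exp`). So `y A (g A) ≤ (log a - 1 + (∑ t, exp (λ y A t)) / a) / λ`. For fixed `t`:
`∑ A, exp (λ y A t) = ∑ A, ∏ x, w x (A x)` with `w x b = exp (λ / 2)` if `x ∈ C` and `v t x = b`,
`exp (- λ / 2)` if `x ∈ C` and `v t x ≠ b`, `1` if `x ∉ C`; this is `∏ x, ∑ b, w x b`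
(`Finset.prod_univ_sum`, `Fintype.piFinset_univ`) `= (2 cosh (λ / 2)) ^ c * 2 ^ (|X| - c)
= 2 ^ |X| * cosh (λ / 2) ^ c ≤ 2 ^ |X| * exp (λ² c / 8)` (`Real.cosh_le_exp_half_sq`). Sum over `A`:
`∑ A, y A (g A) ≤ 2 ^ |X| (log a - 1 + |T| exp (λ² c / 8) / a) / λ ≤ 2 ^ |X| log a / λ
= 2 ^ |X| (L / λ + λ c / 8) = 2 ^ |X| √(c L / 2)`. -/
def AV1_Stmt : Prop := ∀ (X T : Type) [Fintype X] [DecidableEq X] [Fintype T] (C : Finset X)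
  (v : T → X → Bool) (g : (X → Bool) → T) (L : ℝ), 0 < L → (Fintype.card T : ℝ) ≤ Real.exp L →
  ∑ A : X → Bool, ((C.filter fun x => v (g A) x = A x).card : ℝ) ≤
    2 ^ Fintype.card X * ((C.card : ℝ) / 2 + Real.sqrt (C.card * L / 2))

/-- AV2 (may assume AV1). The same with classes: the answer `V x A` for the element `x` of the class
`i = Φ x` depends on `A` only through `τ i A`.
Proof. For `i : I` let `C i = {x : Φ x = i}` and let `v i t x = V x A` for some `A` with `τ i A = t`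
(`false` if there is none). If `Φ x = i`, then `v i (τ i A) x = V x A` by the hypothesis. AV1 for `C i`,
`v i`, `g = τ i`: `∑ A, |{x ∈ C i : V x A = A x}| ≤ 2 ^ |X| (|C i| / 2 + √(|C i| L / 2))`. Sum over `i`:
`∑ i, |C i| = |X|` (`Finset.card_eq_sum_card_fiberwise`), and
`(∑ i, √(|C i| L / 2)) ^ 2 ≤ |I| ∑ i, |C i| L / 2` (`sq_sum_le_card_mul_sum_sq`). -/
def AV2_Stmt : Prop := ∀ (X I T : Type) [Fintype X] [DecidableEq X] [Fintype I] [DecidableEq I]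
  [Fintype T] (Φ : X → I) (τ : I → (X → Bool) → T) (V : X → (X → Bool) → Bool) (L : ℝ),
  0 < L → (Fintype.card T : ℝ) ≤ Real.exp L →
  (∀ x A A', τ (Φ x) A = τ (Φ x) A' → V x A = V x A') →
  ∑ A : X → Bool, ((Finset.univ.filter fun x => V x A = A x).card : ℝ) ≤
    2 ^ Fintype.card X *
      ((Fintype.card X : ℝ) / 2 + Real.sqrt (Fintype.card I * Fintype.card X * L / 2))

/-- AV3. The parameters (`K = s (ℓ + 2)` is written out).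
Proof. From `2 ^ (50 s) ≤ ℓ ^ (50 s) ≤ 2 ^ ℓ` we get `50 s ≤ ℓ`, so `ℓ ≥ 32` and
`2 ^ (250 s) ≤ ℓ ^ (50 s) ≤ 2 ^ ℓ`, `250 s ≤ ℓ`. `K ≥ 252`, `3 K ≤ ℓ²` (even `240 K ≤ ℓ²`),
`8 K + 8 ≤ ℓ²`. Second inequality: `PARx.two_lt` (`THX/PAR.lean`) gives `< 2 ^ (200 K ^ 5)`, and
`200 K ^ 5 ≤ (3 K) ^ 5 ≤ ℓ ^ 10`. Third inequality: `1 + s (2 K + 1) ≤ ℓ ^ 3`, so the product is at
most `ℓ ^ (6 s + 10) ≤ ℓ ^ (16 s)` and its cube at most `ℓ ^ (48 s) ≤ 2 ^ ℓ`. Last inequality: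
`3 ^ y ≤ 2 ^ (2 y)`, `2 (2 + ℓ² + (ℓ + 1) 2 ^ ℓ) ≤ 4 ^ ℓ = 2 ^ ℓ * 2 ^ ℓ` (e.g. `4 (ℓ + 2) ≤ 2 ^ ℓ`,
`ℓ² + 2 ≤ 2 ^ ℓ`, induction from `ℓ = 10`). -/
def AV3_Stmt : Prop :=
  (∀ ℓ s : ℕ, 10 ≤ ℓ → 1 ≤ s → ℓ ^ (50 * s) ≤ 2 ^ ℓ →
    8 * (s * (ℓ + 2)) + 8 ≤ ℓ ^ 2 ∧
    (s * (ℓ + 2)).factorial * (2 + s * (ℓ + 3 + 4 * (s * (ℓ + 2)) +
      (s * (ℓ + 2)).factorial) ^ 2) ^ (s * (ℓ + 5 + 6 * (s * (ℓ + 2))) ^ 2) ≤ 2 ^ (ℓ ^ 10) ∧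
    ((1 + s * (2 * (s * (ℓ + 2)) + 1)) ^ (2 * s) * ℓ ^ 10) ^ 3 ≤ 2 ^ ℓ) ∧
  ∀ ℓ : ℕ, 10 ≤ ℓ → 3 ^ (2 + ℓ ^ 2 + (ℓ + 1) * 2 ^ ℓ) ≤ 2 ^ (4 ^ ℓ)

/-- AV4 (may assume EQV, DGT, FAC, AV2, AV3). The theorem.
Proof. `N A` from DGT for `P = ℓ ^ 2`; `N A < 3 ^ (2 + ℓ² + (ℓ + 1) |A|)`, `|A| ≤ 2 ^ ℓ`, AV3. Let `M` be an
automaton, `T` from FAC, `Q = M.Q`, `X = Fin ℓ → Bool`, `I = Ft Q ℓ`, `Φ f = T.ex ℓ (wd f)`; for
`A : X → Bool` let `S A = {f : A f = true}` (a bijection from functions to sets), `τ F A =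
T.ty ℓ F (N (S A))`, `V f A = [T.Acc (wrd (wd f) (N (S A)))]`. EQV is the hypothesis of AV2
(`8 K + 8 ≤ ℓ² ≤ N A`). Cards: `CNTx.card_Ft`, `CNTx.card_Ty`; `|Ty| ≤ 2 ^ (ℓ ^ 10) ≤ exp (ℓ ^ 10)`,
`L = ℓ ^ 10`. `z = |Ft| L` has `z ^ 3 ≤ 2 ^ ℓ`, so `z ≤ 2 ^ (ℓ / 3)` and
`√(z 2 ^ ℓ / 2) ≤ 2 ^ ℓ 2 ^ (- ℓ / 3)`. `V f A = A f` if and only if `M` is right about the word. The
number of the pairs is the sum over `A` (`Finset.card_filter`, `Finset.sum_product`, equivalence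
`Finset X ≃ (X → Bool)`). If `s = 0`: impossible (`M.start`). -/
def AV4_Stmt : Prop := ∀ ℓ : ℕ, 10 ≤ ℓ → ∃ N : Finset (Fin ℓ → Bool) → ℕ,
  (∀ A, N A ≤ 2 ^ (4 ^ ℓ)) ∧
  (∀ A f, (wrd (wd f) (N A) ∈ LL ↔ f ∈ A)) ∧
  ∀ M : SA, ℓ ^ (50 * Nat.card M.Q) ≤ 2 ^ ℓ →
    (Nat.card {p : (Fin ℓ → Bool) × Finset (Fin ℓ → Bool) //
      (wrd (wd p.1) (N p.2) ∈ M.lang ↔ wrd (wd p.1) (N p.2) ∈ LL)} : ℝ) ≤
        (1 / 2 + (2 : ℝ) ^ (-(ℓ : ℝ) / 3)) * (2 ^ ℓ * 2 ^ (2 ^ ℓ))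

end Pool.Agent.THX
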