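import Pool.Agent.THX.Stmts

/-!
Project THX (problem MP_5e85fc_lc): assembly.
-/

set_option autoImplicit false

namespace Pool.Agent.THX

open Pool.Agent.Heads

/-- Every sensing automaton with `s` states is wrong on a word of length at most
`2 ^ (C * s ^ 17)`. -/
theorem low (hCNT : CNT_Stmt) (hPAR : PAR_Stmt) (hFAC : FAC_Stmt) :
    ∃ C : ℕ, ∀ M : SA, ∃ w : List (Fin 3), w.length ≤ 2 ^ (C * Nat.card M.Q ^ 17) ∧
      ¬ (w ∈ M.lang ↔ w ∈ LL) := by
  obtain ⟨C, hC⟩ := hPAR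
  refine ⟨C, fun M => ?_⟩
  obtain ⟨hF, T, hT⟩ := hFAC M
  have e : Nat.card M.Q = Fintype.card M.Q := Nat.card_eq_fintype_card
  have hs : 1 ≤ Fintype.card M.Q := Fintype.card_pos_iff.2 ⟨M.start⟩
  obtain ⟨ℓ, m, h1, h2, h3⟩ := hC (Fintype.card M.Q) hs
  obtain ⟨x, N, hx, hN, hne⟩ := hCNT M.Q T ℓ m h1 h2
  refine ⟨wrd x N, ?_, ?_⟩
  · rw [wrd_length, hx, e]
    refine le_trans ?_ h3
    have : N ≤ 3 ^ (2 + (8 * (Fintype.card M.Q * (ℓ + 2)) + 8) + (ℓ + 1) * m) := hN.le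
    omega
  · rw [hT]
    exact hne

/-- A deterministic automaton with two ordinary heads as a sensing automaton. -/
noncomputable def toSA (M : FA (Fin 3) 2) : SA where
  Q := M.Q
  finQ := M.finQ
  start := M.start
  accept := M.accept
  δ q s _ := by
    classical exact if h : ∃ t, t ∈ M.δ q s then some h.choose else none

lemma toSA_step (M : FA (Fin 3) 2) (hM : M.Det) (w : List (Fin 3)) (c c' : M.Q × (Fin 2 → ℕ)) :
    (toSA M).Step w c c' ↔ M.Step w c c' := by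
  unfold SA.Step FA.Step toSA
  constructor
  · rintro ⟨t, h1, h2⟩
    simp only at h1
    split at h1
    · rename_i h
      cases h1
      exact ⟨_, h.choose_spec, h2⟩
    · cases h1
  · rintro ⟨t, h1, h2⟩
    refine ⟨t, ?_, h2⟩
    simp only
    have h : ∃ t, t ∈ M.δ c.1 (fun i => tape w (c.2 i)) := ⟨t, h1⟩
    rw [dif_pos h, hM _ _ h.choose_spec h1]

lemma toSA_lang (M : FA (Fin 3) 2) (hM : M.Det) : (toSA M).lang = M.lang := by
  have e : ∀ w, (toSA M).Step w = M.Step w := fun w => by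
    funext c c'
    exact propext (toSA_step M hM w c c')
  ext w
  unfold SA.lang FA.lang FA.Accepts
  simp only [Set.mem_setOf_eq]
  rw [e w]
  rfl

/-- The theorem. -/
theorem top (hCNT : CNT_Stmt) (hPAR : PAR_Stmt) (hFAC : FAC_Stmt) (hPLG : PLG_Stmt) :
    (∃ M : PDA (Fin 3) 1, M.Det ∧ M.lang = LL ∧
      ∀ w t c, M.Reach w t c → t ≤ 20 * (w.length + 1)) ∧
    (∀ M : FA (Fin 3) 2, M.Det → M.lang ≠ LL) ∧
    ∃ C : ℕ, ∀ M : SA, ∃ w : List (Fin 3), w.length ≤ 2 ^ (C * Nat.card M.Q ^ 17) ∧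
      ¬ (w ∈ M.lang ↔ w ∈ LL) := by
  refine ⟨⟨PD, hPLG⟩, fun M hM h => ?_, low hCNT hPAR hFAC⟩
  obtain ⟨C, hC⟩ := low hCNT hPAR hFAC
  obtain ⟨w, -, hw⟩ := hC (toSA M)
  rw [toSA_lang M hM, h] at hw
  exact hw Iff.rfl

end Pool.Agent.THX
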